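import Mathlib

/-!
# MP_371589_nt: the algebraic part

`14 n - t² = 5 p² - 2 p q + 3 q²` is enough, and the genus of discriminant `-56`.
-/

set_option autoImplicit false

namespace Pool.Agent.Helper11.Sq

/-- the kind of representation asked for in the problem -/
def Good (n : ℕ) : Prop :=
  ∃ x y z : ℤ, (n : ℤ) = x ^ 2 + y ^ 2 + z ^ 2 ∧
    ∃ m : ℤ, x + 2 * y + 3 * z = m ^ 2 ∨ x + 2 * y + 3 * z = 2 * m ^ 2

/-- the ternary form with a linear condition -/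
lemma exists_xyz {n t p q : ℤ} (h : t ^ 2 + (5 * p ^ 2 - 2 * p * q + 3 * q ^ 2) = 14 * n) :
    ∃ x y z : ℤ, x + 2 * y + 3 * z = t ∧ x ^ 2 + y ^ 2 + z ^ 2 = n := by
  -- reduce to `14 ∣ t + 3 p + 5 q`
  have key : ∀ p q : ℤ, t ^ 2 + (5 * p ^ 2 - 2 * p * q + 3 * q ^ 2) = 14 * n →
      (7 : ℤ) ∣ t + 3 * p + 5 * q → ∃ x y z : ℤ, x + 2 * y + 3 * z = t ∧
        x ^ 2 + y ^ 2 + z ^ 2 = n := by
    intro p q h h7
    have h2 : (2 : ℤ) ∣ t + 3 * p + 5 * q := by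
      rcases Int.even_or_odd' t with ⟨a, rfl | rfl⟩ <;>
      rcases Int.even_or_odd' p with ⟨b, rfl | rfl⟩ <;>
      rcases Int.even_or_odd' q with ⟨c, rfl | rfl⟩ <;> (ring_nf at h; ring_nf; omega)
    have h14 : (14 : ℤ) ∣ t + 3 * p + 5 * q := by
      obtain ⟨a, ha⟩ := h7
      obtain ⟨b, hb⟩ := h2
      omega
    obtain ⟨x, hx⟩ := h14
    refine ⟨x, 2 * x - q, 3 * x - q - p, ?_, ?_⟩
    · have : x + 2 * (2 * x - q) + 3 * (3 * x - q - p) = 14 * x - 5 * q - 3 * p := by ring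
      rw [this, ← hx]
      ring
    · have ht : t = 14 * x - 3 * p - 5 * q := by linarith
      rw [ht] at h
      nlinarith [h]
  have h7 : (7 : ℤ) ∣ (t + 3 * p + 5 * q) * (t - 3 * p - 5 * q) := by
    have : (t + 3 * p + 5 * q) * (t - 3 * p - 5 * q) =
        7 * (2 * n - 2 * p ^ 2 - 4 * p * q - 4 * q ^ 2) := by
      have e : t ^ 2 = 14 * n - (5 * p ^ 2 - 2 * p * q + 3 * q ^ 2) := by linarith
      ring_nf
      ring_nf at e
      rw [e]
      ring
    exact ⟨_, this⟩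
  rcases (Int.prime_iff_natAbs_prime.2 (by norm_num : Nat.Prime (7 : ℤ).natAbs)).dvd_or_dvd h7
    with h' | h'
  · exact key p q h h'
  · apply key (-p) (-q)
    · rw [← h]; ring
    · have e : t + 3 * (-p) + 5 * (-q) = t - 3 * p - 5 * q := by ring
      rw [e]
      exact h'

end Pool.Agent.Helper11.Sq
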