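import Pool.Agent.Helper11.Sq.Class

/-!
# Asymptotics
-/

set_option autoImplicit false

namespace Pool.Agent.Helper11.Sq

open Finset Filter Topology

/-- the number of fourth powers used -/
def JJ (U : ℕ) : ℕ := Nat.findGreatest (fun j => j ^ 16 ≤ U) U

lemma JJ_pow_le (U : ℕ) : JJ U ^ 16 ≤ U :=
  Nat.findGreatest_spec (P := fun j => j ^ 16 ≤ U) (Nat.zero_le U) (by simp)

lemma lt_JJ_pow (U : ℕ) : U < (JJ U + 1) ^ 16 := by
  have h1 : JJ U ≤ U := Nat.findGreatest_le U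
  rcases h1.lt_or_eq with h | h
  · by_contra hcon
    push Not at hcon
    exact Nat.findGreatest_is_greatest (P := fun j => j ^ 16 ≤ U) (n := U) (k := JJ U + 1)
      (Nat.lt_succ_self _) h hcon
  · rw [h]
    calc U < U + 1 := Nat.lt_succ_self U
      _ ≤ (U + 1) ^ 16 := Nat.le_self_pow (by norm_num) _

lemma tendsto_JJ : Tendsto JJ atTop atTop := by
  rw [tendsto_atTop]
  intro b
  filter_upwards [eventually_ge_atTop (b ^ 16)] with U hU
  by_contra hcon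
  push Not at hcon
  have h1 := lt_JJ_pow U
  have h2 : (JJ U + 1) ^ 16 ≤ b ^ 16 := Nat.pow_le_pow_left hcon 16
  omega

lemma F_le {β k₀ P J : ℕ} (hJ : 1 ≤ J) : F β k₀ P J ≤ (β * (k₀ + P) ^ 4) * J ^ 4 := by
  unfold F
  rw [mul_assoc, ← mul_pow]
  apply Nat.mul_le_mul_left
  apply Nat.pow_le_pow_left
  nlinarith

lemma F_pos {β k₀ P J : ℕ} (hβ : 0 < β) (hP : 0 < P) (hJ : 1 ≤ J) : 0 < F β k₀ P J := by
  unfold F
  have : 0 < P * J := Nat.mul_pos hP hJ
  positivity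

/-- `M (F J) ^ 4 / J → 0` -/
lemma asym1 {β k₀ P : ℕ} (hβ : 0 < β) (hP : 0 < P) :
    Tendsto (fun J : ℕ => M (F β k₀ P J) ^ 4 / (J : ℝ)) atTop (𝓝 0) := by
  have h1 : Tendsto (fun J : ℕ => M (F β k₀ P J) ^ 16 / (F β k₀ P J : ℝ)) atTop (𝓝 0) :=
    (tendsto_M_pow 16).comp (F_strictMono hβ hP).tendsto_atTop
  have h2 : Tendsto (fun J : ℕ => (M (F β k₀ P J) ^ 4 / (J : ℝ)) ^ 4) atTop (𝓝 0) := by
    have h3 := h1.const_mul ((β * (k₀ + P) ^ 4 : ℕ) : ℝ)
    rw [mul_zero] at h3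
    apply squeeze_zero' _ _ h3
    · filter_upwards with J
      positivity
    · filter_upwards [eventually_ge_atTop 1] with J hJ
      have hJ0 : (0 : ℝ) < J := by exact_mod_cast hJ
      have h4 : (F β k₀ P J : ℝ) ≤ ((β * (k₀ + P) ^ 4 : ℕ) : ℝ) * (J : ℝ) ^ 4 := by
        exact_mod_cast F_le hJ
      have h5 : (0 : ℝ) < F β k₀ P J := by exact_mod_cast F_pos hβ hP hJ
      have h6 : (0 : ℝ) ≤ M (F β k₀ P J) ^ 16 := by
        have := one_le_M (F β k₀ P J)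
        positivity
      rw [div_pow, ← pow_mul, ← mul_div_assoc, div_le_div_iff₀ (by positivity) h5]
      calc M (F β k₀ P J) ^ (4 * 4) * (F β k₀ P J : ℝ) ≤
          M (F β k₀ P J) ^ (4 * 4) * (((β * (k₀ + P) ^ 4 : ℕ) : ℝ) * (J : ℝ) ^ 4) :=
            mul_le_mul_of_nonneg_left h4 h6
        _ = _ := by ring
  rw [Metric.tendsto_atTop] at h2 ⊢
  intro ε hε
  obtain ⟨N, hN⟩ := h2 (ε ^ 4) (by positivity)
  refine ⟨N, fun n hn => ?_⟩
  have h3 := hN n hn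
  rw [Real.dist_eq, sub_zero] at h3 ⊢
  have h4 : (0 : ℝ) ≤ M (F β k₀ P n) ^ 4 / (n : ℝ) := by
    have := one_le_M (F β k₀ P n)
    positivity
  rw [abs_of_nonneg (by positivity)] at h3
  rw [abs_of_nonneg h4]
  exact lt_of_pow_lt_pow_left₀ 4 hε.le h3

/-- the parameter `z` -/
def zz (α P a U : ℕ) : ℕ := Nat.sqrt (α * (a + P * U)) + 1

lemma zz_sq (α P a U : ℕ) : α * (a + P * U) ≤ zz α P a U ^ 2 := by
  unfold zz
  exact (Nat.lt_succ_sqrt' _).le

lemma zz_le (α P a : ℕ) {U : ℕ} (hU : 1 ≤ U) (hα : 0 < α) (hP : 0 < P) :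
    zz α P a U ^ 2 ≤ 4 * (α * (a + P)) * U := by
  unfold zz
  set X := α * (a + P * U) with hX
  have h1 : X ≤ (α * (a + P)) * U := by rw [hX]; nlinarith [Nat.mul_le_mul_left (α * a) hU]
  have h2 : Nat.sqrt X ^ 2 ≤ X := Nat.sqrt_le' X
  have h3 : 1 ≤ X := by
    rw [hX]
    have : 0 < P * U := Nat.mul_pos hP hU
    have : 0 < a + P * U := by omega
    exact Nat.mul_pos hα this
  have h4 : 1 ≤ Nat.sqrt X := by
    rw [Nat.le_sqrt]; omega
  nlinarith

lemma asym2 (α P a : ℕ) (hα : 0 < α) (hP : 0 < P) {τ : ℝ} (hτ : 0 < τ) :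
    ∀ᶠ U : ℕ in atTop, (zz α P a U : ℝ) ^ 2 * (1 + Real.log (zz α P a U)) / JJ U ≤ τ * U := by
  set C : ℝ := ((4 * (α * (a + P)) : ℕ) : ℝ) with hC
  have hC1 : 1 ≤ C := by
    have h0 : 0 < 4 * (α * (a + P)) := by positivity
    rw [hC]
    exact_mod_cast h0
  have hlim : Tendsto (fun J : ℕ => C * ((1 + Real.log C) / (J : ℝ) +
      16 * (Real.log ((J : ℝ) + 1) / (J : ℝ)))) atTop (𝓝 0) := by
    have h1 : Tendsto (fun J : ℕ => (1 + Real.log C) / (J : ℝ)) atTop (𝓝 0) :=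
      tendsto_const_div_atTop_nhds_zero_nat _
    have h2 : Tendsto (fun J : ℕ => Real.log ((J : ℝ) + 1) / (J : ℝ)) atTop (𝓝 0) := by
      have h3 : Tendsto (fun x : ℝ => Real.log x ^ 1 / (1 * x + -1)) atTop (𝓝 0) :=
        Real.tendsto_pow_log_div_mul_add_atTop 1 (-1) 1 one_ne_zero
      have h4 : Tendsto (fun J : ℕ => (J : ℝ) + 1) atTop atTop :=
        tendsto_atTop_add_const_right _ _ tendsto_natCast_atTop_atTop
      have h5 := h3.comp h4
      refine h5.congr fun J => ?_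
      simp
    have h3 := (h1.add (h2.const_mul 16)).const_mul C
    simpa using h3
  have h1 := (hlim.comp tendsto_JJ).eventually_le_const hτ
  filter_upwards [h1, eventually_ge_atTop 1, tendsto_JJ.eventually_ge_atTop 1] with U h2 hU hJ
  simp only [Function.comp] at h2
  have hJ0 : (0 : ℝ) < JJ U := by exact_mod_cast hJ
  have hU0 : (0 : ℝ) < U := by exact_mod_cast hU
  have h3 : (zz α P a U : ℝ) ^ 2 ≤ C * U := by
    rw [hC]
    exact_mod_cast zz_le α P a hU hα hP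
  have hz1 : (1 : ℝ) ≤ zz α P a U := by
    have : 1 ≤ zz α P a U := by unfold zz; omega
    exact_mod_cast this
  have h4 : (zz α P a U : ℝ) ≤ C * ((JJ U : ℝ) + 1) ^ 16 := by
    have h5 : (U : ℝ) ≤ ((JJ U : ℝ) + 1) ^ 16 := by exact_mod_cast (lt_JJ_pow U).le
    calc (zz α P a U : ℝ) ≤ (zz α P a U : ℝ) ^ 2 := by nlinarith
      _ ≤ C * U := h3
      _ ≤ C * ((JJ U : ℝ) + 1) ^ 16 := by gcongr
  have h5 : Real.log (zz α P a U) ≤ Real.log C + 16 * Real.log ((JJ U : ℝ) + 1) := by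
    have h6 := Real.log_le_log (by linarith) h4
    rw [Real.log_mul (by positivity) (by positivity), Real.log_pow] at h6
    exact_mod_cast h6
  have hlog0 : 0 ≤ Real.log (zz α P a U) := Real.log_nonneg hz1
  calc (zz α P a U : ℝ) ^ 2 * (1 + Real.log (zz α P a U)) / JJ U
      ≤ (C * U) * (1 + (Real.log C + 16 * Real.log ((JJ U : ℝ) + 1))) / JJ U := by gcongr
    _ = (C * ((1 + Real.log C) / (JJ U : ℝ) +
      16 * (Real.log ((JJ U : ℝ) + 1) / (JJ U : ℝ)))) * U := by ring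
    _ ≤ τ * U := by gcongr

/-- the parameter `y` -/
def yy (α β k₀ P a U₁ U : ℕ) : ℕ := Nat.sqrt (α * (a + P * U₁) - F β k₀ P (JJ U))

/-- the short range of divisors -/
lemma asym3 (α β k₀ P a : ℕ) (hα : 0 < α) (hP : 0 < P) {ε : ℝ} (hε : 0 < ε) (hε4 : ε ≤ 1 / 4) :
    ∀ᶠ U : ℕ in atTop, F β k₀ P (JJ U) ^ 2 ≤ U →
      1 ≤ yy α β k₀ P a (U - ⌊ε * U⌋₊) U ∧
      ((zz α P a U + 1 - yy α β k₀ P a (U - ⌊ε * U⌋₊) U : ℕ) : ℝ) *
        (((U - (U - ⌊ε * U⌋₊)) / yy α β k₀ P a (U - ⌊ε * U⌋₊) U + 1 : ℕ) : ℝ) ≤ 6 * ε ^ 2 * U := by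
  -- `R = √(α P U)`
  set A : ℝ := ((α * P : ℕ) : ℝ) with hA
  have hA1 : 1 ≤ A := by
    rw [hA]
    exact_mod_cast Nat.mul_pos hα hP
  have hRt : Tendsto (fun U : ℕ => Real.sqrt (A * U)) atTop atTop := by
    apply Real.tendsto_sqrt_atTop.comp
    exact tendsto_natCast_atTop_atTop.const_mul_atTop (by linarith)
  have hst : Tendsto (fun U : ℕ => Real.sqrt (U : ℝ)) atTop atTop :=
    Real.tendsto_sqrt_atTop.comp tendsto_natCast_atTop_atTop
  set c₃ : ℝ := Real.sqrt ((α * a : ℕ) : ℝ) + 3 with hc₃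
  have hc₃0 : 0 ≤ Real.sqrt ((α * a : ℕ) : ℝ) := Real.sqrt_nonneg _
  filter_upwards [hRt.eventually_ge_atTop (c₃ / ε), hRt.eventually_ge_atTop (4 / ε),
    hst.eventually_ge_atTop (Real.sqrt A / ε), eventually_ge_atTop 1] with U h1 h2 h3 hU hF
  set R := Real.sqrt (A * U) with hR
  have hU0 : (0 : ℝ) < U := by exact_mod_cast hU
  have hR2 : R ^ 2 = A * U := Real.sq_sqrt (by positivity)
  have hR16 : 16 ≤ R := by
    have : 16 ≤ 4 / ε := by
      rw [le_div_iff₀ hε]; linarith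
    linarith
  have hεR : 4 ≤ ε * R := by
    rw [div_le_iff₀ hε] at h2; linarith
  have hc₃R : c₃ ≤ ε * R := by
    rw [div_le_iff₀ hε] at h1; linarith
  set fl := ⌊ε * U⌋₊ with hfl
  have hfl1 : (fl : ℝ) ≤ ε * U := Nat.floor_le (by positivity)
  have hflU : fl ≤ U := by
    have : (fl : ℝ) ≤ U := by nlinarith
    exact_mod_cast this
  set U₁ := U - fl with hU₁
  have hU₁r : (U₁ : ℝ) = U - fl := by rw [hU₁, Nat.cast_sub hflU]
  have hUU₁ : U - U₁ = fl := by omega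
  have hFr : (F β k₀ P (JJ U) : ℝ) ≤ R := by
    rw [hR]
    apply Real.le_sqrt_of_sq_le
    have : ((F β k₀ P (JJ U) ^ 2 : ℕ) : ℝ) ≤ U := by exact_mod_cast hF
    push_cast at this
    nlinarith
  -- lower bound for `y`
  set y := yy α β k₀ P a U₁ U with hy
  have hX : (1 - ε) * R ^ 2 ≤ ((α * (a + P * U₁) : ℕ) : ℝ) := by
    push_cast
    rw [hU₁r, hR2, hA]
    push_cast
    have e1 : (α : ℝ) * (a + P * (U - fl)) = α * a + (α * P) * (U - fl) := by ring
    rw [e1]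
    have e2 : (1 - ε) * ((α : ℝ) * P * U) = (α * P) * ((1 - ε) * U) := by ring
    rw [e2]
    have e3 : (1 - ε) * (U : ℝ) ≤ U - fl := by linarith
    have e4 : (α : ℝ) * P * ((1 - ε) * U) ≤ α * P * (U - fl) :=
      mul_le_mul_of_nonneg_left e3 (by positivity)
    have e5 : (0 : ℝ) ≤ α * a := by positivity
    linarith
  have hFle : F β k₀ P (JJ U) ≤ α * (a + P * U₁) := by
    have : (F β k₀ P (JJ U) : ℝ) ≤ ((α * (a + P * U₁) : ℕ) : ℝ) := by nlinarith
    exact_mod_cast this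
  have hylow : (1 - ε) * R - 1 ≤ (y : ℝ) := by
    have h4 : ((α * (a + P * U₁) - F β k₀ P (JJ U) : ℕ) : ℝ) < ((y : ℝ) + 1) ^ 2 := by
      rw [hy]
      unfold yy
      exact_mod_cast Nat.lt_succ_sqrt' _
    rw [Nat.cast_sub hFle] at h4
    have h5 : ((1 - ε) * R) ^ 2 < ((y : ℝ) + 1) ^ 2 := by
      have : ((1 - ε) * R) ^ 2 ≤ (1 - ε) * R ^ 2 - R := by
        have e6 : (1 - ε) * R ^ 2 - R - ((1 - ε) * R) ^ 2 = R * ((1 - ε) * (ε * R) - 1) := by ring
        have e7 : 0 ≤ R * ((1 - ε) * (ε * R) - 1) := by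
          apply mul_nonneg (by linarith)
          nlinarith
        linarith
      linarith
    have h6 := lt_of_pow_lt_pow_left₀ 2 (by positivity) h5
    linarith
  have hyR : R / 2 ≤ (y : ℝ) := by nlinarith
  have hy1 : 1 ≤ y := by
    have : (1 : ℝ) ≤ y := by linarith
    exact_mod_cast this
  refine ⟨hy1, ?_⟩
  have hy0 : (0 : ℝ) < y := by exact_mod_cast hy1
  -- upper bound for `z`
  have hzup : (zz α P a U : ℝ) ≤ R + Real.sqrt ((α * a : ℕ) : ℝ) + 1 := by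
    unfold zz
    push_cast
    have h4 : ((Nat.sqrt (α * (a + P * U)) : ℕ) : ℝ) ≤ Real.sqrt ((α * (a + P * U) : ℕ) : ℝ) :=
      Real.nat_sqrt_le_real_sqrt
    have h5 : Real.sqrt ((α * (a + P * U) : ℕ) : ℝ) ≤
        Real.sqrt (A * U) + Real.sqrt ((α * a : ℕ) : ℝ) := by
      have : (((α * (a + P * U) : ℕ)) : ℝ) = A * U + ((α * a : ℕ) : ℝ) := by
        rw [hA]; push_cast; ring
      rw [this]
      rw [Real.sqrt_le_left (by positivity)]
      have e8 : 0 ≤ A * (U : ℝ) := by positivity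
      have e9 : (0 : ℝ) ≤ ((α * a : ℕ) : ℝ) := by positivity
      nlinarith [Real.sq_sqrt e8, Real.sq_sqrt e9, mul_nonneg (Real.sqrt_nonneg (A * U))
        (Real.sqrt_nonneg ((α * a : ℕ) : ℝ))]
    push_cast at h4 h5 ⊢
    linarith
  have hz1 : ((zz α P a U + 1 - y : ℕ) : ℝ) ≤ 2 * (ε * R) := by
    by_cases hc : y ≤ zz α P a U + 1
    · rw [Nat.cast_sub hc]
      push_cast
      linarith
    · push Not at hc
      rw [Nat.sub_eq_zero_of_le hc.le]
      push_cast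
      linarith
  have hd1 : (((U - U₁) / y + 1 : ℕ) : ℝ) ≤ 3 * (ε * U / R) := by
    rw [hUU₁]
    push_cast
    have h4 : ((fl / y : ℕ) : ℝ) ≤ (fl : ℝ) / y := Nat.cast_div_le
    have h5 : (fl : ℝ) / y ≤ (ε * U) / (R / 2) := by gcongr
    have h6 : (1 : ℝ) ≤ ε * U / R := by
      rw [one_le_div (by linarith)]
      -- `R = √A √U ≤ ε U`
      have h7 : R = Real.sqrt A * Real.sqrt U := by
        rw [hR, Real.sqrt_mul (by linarith)]
      rw [div_le_iff₀ hε] at h3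
      have h8 : (U : ℝ) = Real.sqrt U * Real.sqrt U := (Real.mul_self_sqrt hU0.le).symm
      rw [h7]
      calc Real.sqrt A * Real.sqrt U ≤ (Real.sqrt U * ε) * Real.sqrt U := by
            gcongr
        _ = ε * (Real.sqrt U * Real.sqrt U) := by ring
        _ = ε * U := by rw [← h8]
    have h7 : (ε * U) / (R / 2) = 2 * (ε * U / R) := by field_simp
    linarith
  calc _ ≤ (2 * (ε * R)) * (3 * (ε * U / R)) := by
        apply mul_le_mul hz1 hd1 (by positivity) (by positivity)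
    _ = 6 * ε ^ 2 * U := by
        have : R ≠ 0 := by linarith
        field_simp
        ring

end Pool.Agent.Helper11.Sq
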