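import Pool.Agent.Helper11.Sq.Chi

/-!
# Representations by the genus of `3 X² + 2 X Y + 5 Y²`
-/

set_option autoImplicit false

namespace Pool.Agent.Helper11.Sq

open Finset

/-- represented by one of the reduced forms of discriminant `-56` -/
def R (m : ℤ) : Prop :=
  ∃ X Y : ℤ, m = X ^ 2 + 14 * Y ^ 2 ∨ m = 2 * X ^ 2 + 7 * Y ^ 2 ∨ m = 3 * X ^ 2 + 2 * X * Y + 5 * Y ^ 2

/-- reduction theory -/
lemma reduce (N : ℕ) : ∀ (a b c : ℤ), 0 < a → a ≤ N → a * c - b ^ 2 = 14 → ∀ X Y : ℤ,
    R (a * X ^ 2 + 2 * b * X * Y + c * Y ^ 2) := by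
  induction N with
  | zero =>
    intro a b c h1 h2
    push_cast at h2
    omega
  | succ N ih =>
    intro a b c ha haN hd X Y
    -- shift `b` into `[-a/2, a/2]`
    obtain ⟨k, hk1, hk2⟩ : ∃ k : ℤ, -a ≤ 2 * (b + k * a) ∧ 2 * (b + k * a) ≤ a := by
      refine ⟨-((2 * b + a) / (2 * a)), ?_, ?_⟩
      · have := Int.mul_ediv_self_le (x := 2 * b + a) (k := 2 * a) (by omega)
        nlinarith
      · have := Int.lt_mul_ediv_self_add (x := 2 * b + a) (k := 2 * a) (by omega)
        nlinarith
    set b' := b + k * a with hb'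
    set c' := a * k ^ 2 + 2 * b * k + c with hc'
    have hd' : a * c' - b' ^ 2 = 14 := by rw [hc', hb', ← hd]; ring
    have hform : ∀ X Y : ℤ, a * X ^ 2 + 2 * b * X * Y + c * Y ^ 2 =
        a * (X - k * Y) ^ 2 + 2 * b' * (X - k * Y) * Y + c' * Y ^ 2 := by
      intro X Y
      rw [hc', hb']
      ring
    rw [hform]
    generalize X - k * Y = Z
    have hc0 : 0 < c' := by
      by_contra hcon
      nlinarith [sq_nonneg b']
    by_cases hac : c' < a
    · have := ih c' (-b') a hc0 (by push_cast at haN; omega) (by rw [← hd']; ring) Y (-Z)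
      convert this using 1
      ring
    · push Not at hac
      have hb2 : 4 * b' ^ 2 ≤ a ^ 2 := by nlinarith
      have ha5 : a < 5 := by
        by_contra hcon
        push Not at hcon
        nlinarith
      have hbb : -2 ≤ b' ∧ b' ≤ 2 := by omega
      obtain ⟨hb1, hb3⟩ := hbb
      clear_value b' c'
      interval_cases a
      · -- a = 1
        have : b' = 0 := by omega
        subst this
        have : c' = 14 := by omega
        subst this
        exact ⟨Z, Y, Or.inl (by ring)⟩
      · -- a = 2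
        interval_cases b' <;> first | omega | skip
        have : c' = 7 := by omega
        subst this
        exact ⟨Z, Y, Or.inr (Or.inl (by ring))⟩
      · -- a = 3
        interval_cases b' <;> first | omega | skip
        · have : c' = 5 := by omega
          subst this
          exact ⟨Z, -Y, Or.inr (Or.inr (by ring))⟩
        · have : c' = 5 := by omega
          subst this
          exact ⟨Z, Y, Or.inr (Or.inr (by ring))⟩
      · -- a = 4
        interval_cases b' <;> omega

/-- `-14` is a square modulo a squarefree number with only split primes. -/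
lemma exists_sq_add (n : ℕ) : Squarefree n → (∀ p, p.Prime → p ∣ n → chi p = 1) →
    ∃ x : ℤ, (n : ℤ) ∣ x ^ 2 + 14 := by
  induction n using Nat.strong_induction_on with
  | _ n ih =>
    intro hsq hp
    rcases Nat.lt_or_ge n 2 with h | h
    · interval_cases n
      · simp at hsq
      · exact ⟨0, by simp⟩
    · have hpp := Nat.minFac_prime (n := n) (by omega)
      obtain ⟨m, hm⟩ := Nat.minFac_dvd n
      set p := n.minFac with hpdef
      have hcop : Nat.Coprime p m := by
        rw [hpp.coprime_iff_not_dvd]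
        intro hpm
        obtain ⟨k, hk⟩ := hpm
        have h1 : p * p ∣ n := ⟨k, by rw [hm, hk]; ring⟩
        have := hsq p h1
        exact hpp.one_lt.ne' (Nat.isUnit_iff.1 this)
      have hm0 : 0 < m := by
        rcases Nat.eq_zero_or_pos m with h0 | h0
        · rw [h0] at hm; omega
        · exact h0
      have hmn : m < n := by
        rw [hm]
        exact (Nat.lt_mul_iff_one_lt_left hm0).2 hpp.one_lt
      have hmd : m ∣ n := ⟨p, by rw [mul_comm]; exact hm⟩
      obtain ⟨x₂, hx₂⟩ := ih m hmn (hsq.squarefree_of_dvd hmd) (fun q hq hqm => hp q hq (hqm.trans hmd))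
      have : Fact p.Prime := ⟨hpp⟩
      have hpd : p ∣ n := ⟨m, hm⟩
      have hsqr : IsSquare (((-14 : ℤ)) : ZMod p) :=
        ZMod.isSquare_of_jacobiSym_eq_one (hp p hpp hpd)
      obtain ⟨y, hy⟩ := hsqr
      have hx₁ : (p : ℤ) ∣ (y.val : ℤ) ^ 2 + 14 := by
        rw [← ZMod.intCast_zmod_eq_zero_iff_dvd]
        push_cast
        rw [ZMod.natCast_zmod_val]
        push_cast at hy
        rw [sq, ← hy]
        ring
      set x₁ : ℤ := (y.val : ℤ)
      have hco : IsCoprime (p : ℤ) (m : ℤ) := Nat.isCoprime_iff_coprime.2 hcop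
      obtain ⟨u, v, huv⟩ := hco
      refine ⟨x₂ * (u * p) + x₁ * (v * m), ?_⟩
      have hmul : (n : ℤ) = p * m := by exact_mod_cast hm
      rw [hmul]
      apply IsCoprime.mul_dvd (Nat.isCoprime_iff_coprime.2 hcop)
      · have : (x₂ * (u * p) + x₁ * (v * m)) ^ 2 + 14 = (x₁ ^ 2 + 14) +
            p * ((x₂ - x₁) * u * (x₂ * (u * p) + x₁ * (v * m) + x₁)) := by
          have e : x₂ * (u * p) + x₁ * (v * m) = x₁ + p * ((x₂ - x₁) * u) := by
            linear_combination x₁ * huv
          rw [e]
          ring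
        rw [this]
        exact dvd_add hx₁ (dvd_mul_right _ _)
      · have : (x₂ * (u * p) + x₁ * (v * m)) ^ 2 + 14 = (x₂ ^ 2 + 14) +
            m * ((x₁ - x₂) * v * (x₂ * (u * p) + x₁ * (v * m) + x₂)) := by
          have e : x₂ * (u * p) + x₁ * (v * m) = x₂ + m * ((x₁ - x₂) * v) := by
            linear_combination x₂ * huv
          rw [e]
          ring
        rw [this]
        exact dvd_add hx₂ (dvd_mul_right _ _)

/-- an inert prime with odd exponent makes the divisor sum vanish -/
lemma sum_chi_eq_zero {D p : ℕ} (hD : D ≠ 0) (hp : p.Prime) (hchi : chi p = -1)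
    (hodd : Odd (D.factorization p)) : ∑ d ∈ D.divisors, chi d = 0 := by
  apply Finset.sum_involution
    (fun d _ => if Even (d.factorization p) then d * p else d / p)
  · intro d hd
    have hd0 : d ≠ 0 := (Nat.pos_of_mem_divisors hd).ne'
    split_ifs with h
    · rw [chi_mul hd0 hp.ne_zero, hchi]; ring
    · have hpd : p ∣ d := by
        by_contra hcon
        rw [Nat.factorization_eq_zero_of_not_dvd hcon] at h
        simp at h
      obtain ⟨k, rfl⟩ := hpd
      rw [Nat.mul_div_cancel_left _ hp.pos, chi_mul hp.ne_zero (by rintro rfl; simp at hd0), hchi]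
      ring
  · intro d hd hne
    have hd0 : d ≠ 0 := (Nat.pos_of_mem_divisors hd).ne'
    split_ifs with h
    · intro he
      have := hp.one_lt
      have h1 : d * p = d * 1 := by rw [he, mul_one]
      exact this.ne' (Nat.eq_of_mul_eq_mul_left (Nat.pos_of_ne_zero hd0) h1)
    · intro he
      have h1 := Nat.div_lt_self (Nat.pos_of_ne_zero hd0) hp.one_lt
      omega
  · intro d hd
    have hd0 : d ≠ 0 := (Nat.pos_of_mem_divisors hd).ne'
    have hdD := Nat.dvd_of_mem_divisors hd
    rw [Nat.mem_divisors]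
    refine ⟨?_, hD⟩
    split_ifs with h
    · rw [← Nat.factorization_le_iff_dvd (by
        exact Nat.mul_ne_zero hd0 hp.ne_zero) hD]
      intro q
      rw [Nat.factorization_mul hd0 hp.ne_zero, Finsupp.add_apply]
      have h1 := (Nat.factorization_le_iff_dvd hd0 hD).2 hdD q
      by_cases hq : q = p
      · subst hq
        rw [hp.factorization_self]
        rcases Nat.lt_or_ge (d.factorization q) (D.factorization q) with h2 | h2
        · omega
        · exfalso
          have h3 : d.factorization q = D.factorization q := le_antisymm h1 h2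
          rw [h3] at h
          exact (Nat.not_even_iff_odd.2 hodd) h
      · rw [hp.factorization, Finsupp.single_apply, if_neg (Ne.symm hq)]
        omega
    · have hpd : p ∣ d := by
        by_contra hcon
        rw [Nat.factorization_eq_zero_of_not_dvd hcon] at h
        simp at h
      exact (Nat.div_dvd_of_dvd hpd).trans hdD
  · intro d hd
    have hd0 : d ≠ 0 := (Nat.pos_of_mem_divisors hd).ne'
    by_cases h : Even (d.factorization p)
    · rw [if_pos h]
      have h1 : (d * p).factorization p = d.factorization p + 1 := by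
        rw [Nat.factorization_mul hd0 hp.ne_zero, Finsupp.add_apply, hp.factorization_self]
      rw [if_neg]
      · exact Nat.mul_div_cancel _ hp.pos
      · rw [h1, Nat.even_add_one]
        exact fun h' => h' h
    · rw [if_neg h]
      have hpd : p ∣ d := by
        by_contra hcon
        rw [Nat.factorization_eq_zero_of_not_dvd hcon] at h
        simp at h
      obtain ⟨k, rfl⟩ := hpd
      have hk0 : k ≠ 0 := by rintro rfl; simp at hd0
      rw [Nat.mul_div_cancel_left _ hp.pos]
      rw [Nat.factorization_mul hp.ne_zero hk0, Finsupp.add_apply, hp.factorization_self,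
        add_comm, Nat.even_add_one, not_not] at h
      rw [if_pos h, mul_comm]

/-- the representation theorem -/
theorem rep {D : ℕ} (hD : D ≠ 0) (h7 : D % 7 = 3 ∨ D % 7 = 5 ∨ D % 7 = 6)
    (hchi : chi D ≠ 0) (hr : ∑ d ∈ D.divisors, chi d ≠ 0) :
    ∃ X Y : ℤ, (D : ℤ) = 3 * X ^ 2 + 2 * X * Y + 5 * Y ^ 2 := by
  obtain ⟨a, s, hs, hsq⟩ := Nat.sq_mul_squarefree D
  have ha0 : a ≠ 0 := hsq.ne_zero
  have hs0 : s ≠ 0 := by
    rintro rfl
    rw [zero_pow two_ne_zero, zero_mul] at hs
    exact hD hs.symm
  have hchis : chi D = chi s ^ 2 * chi a := by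
    rw [← hs, chi_mul (pow_ne_zero 2 hs0) ha0, sq, chi_mul hs0 hs0]
    ring
  have hpr : ∀ p, p.Prime → p ∣ a → chi p = 1 := by
    intro p hp hpa
    rcases chi_tri p with h | h | h
    · exfalso
      apply hchi
      obtain ⟨k, hk⟩ := hpa
      have hk0 : k ≠ 0 := by rintro rfl; rw [mul_zero] at hk; exact ha0 hk
      rw [hchis, hk, chi_mul hp.ne_zero hk0, h]
      ring
    · exact h
    · exfalso
      apply hr
      apply sum_chi_eq_zero hD hp h
      rw [← hs, Nat.factorization_mul (pow_ne_zero 2 hs0) ha0, Finsupp.add_apply,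
        Nat.factorization_pow]
      have h1 : a.factorization p = 1 := by
        have h2 := hsq.natFactorization_le_one p
        have h3 := (hp.dvd_iff_one_le_factorization ha0).1 hpa
        omega
      rw [h1]
      simp only [Finsupp.smul_apply, smul_eq_mul]
      exact ⟨_, rfl⟩
  obtain ⟨x, c, hc⟩ := exists_sq_add a hsq hpr
  have hR : R a := by
    have := reduce a (a : ℤ) x c (by positivity) le_rfl (by rw [← hc]; ring) 1 0
    simpa using this
  have hDa : (D : ℤ) = (s : ℤ) ^ 2 * a := by exact_mod_cast hs.symm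
  have h7' : ((D : ℤ) % 7 = 3 ∨ (D : ℤ) % 7 = 5 ∨ (D : ℤ) % 7 = 6) := by omega
  obtain ⟨X, Y, h | h | h⟩ := hR
  · exfalso
    rw [hDa, h] at h7'
    have e : (s : ℤ) ^ 2 * (X ^ 2 + 14 * Y ^ 2) = ((s * X) ^ 2) + 7 * (2 * (s * Y) ^ 2) := by ring
    rw [e] at h7'
    rw [Int.add_mul_emod_self_left] at h7'
    generalize (s : ℤ) * X = z at h7'
    have hz : z % 7 = 0 ∨ z % 7 = 1 ∨ z % 7 = 2 ∨ z % 7 = 3 ∨ z % 7 = 4 ∨ z % 7 = 5 ∨ z % 7 = 6 := by
      omega
    have hz2 : z ^ 2 % 7 = (z % 7) ^ 2 % 7 := (Int.mod_modEq z 7).symm.pow 2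
    rw [hz2] at h7'
    rcases hz with hz | hz | hz | hz | hz | hz | hz <;> rw [hz] at h7' <;> norm_num at h7'
  · exfalso
    rw [hDa, h] at h7'
    have e : (s : ℤ) ^ 2 * (2 * X ^ 2 + 7 * Y ^ 2) = (2 * (s * X) ^ 2) + 7 * ((s * Y) ^ 2) := by ring
    rw [e] at h7'
    rw [Int.add_mul_emod_self_left] at h7'
    generalize (s : ℤ) * X = z at h7'
    have hz : z % 7 = 0 ∨ z % 7 = 1 ∨ z % 7 = 2 ∨ z % 7 = 3 ∨ z % 7 = 4 ∨ z % 7 = 5 ∨ z % 7 = 6 := by
      omega
    have hz2 : 2 * z ^ 2 % 7 = 2 * (z % 7) ^ 2 % 7 := ((Int.mod_modEq z 7).symm.pow 2).mul_left 2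
    rw [hz2] at h7'
    rcases hz with hz | hz | hz | hz | hz | hz | hz <;> rw [hz] at h7' <;> norm_num at h7'
  · refine ⟨s * X, s * Y, ?_⟩
    rw [hDa, h]
    ring

end Pool.Agent.Helper11.Sq
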