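import Pool.Agent.Helper11.Sq.Alg
import Pool.Agent.Helper11.Sq.Rep

/-!
# The two cases of the algebraic reduction
-/

set_option autoImplicit false

namespace Pool.Agent.Helper11.Sq

open Finset

lemma pow_four_mod_seven {k : ℕ} (hk : ¬ 7 ∣ k) : k ^ 4 % 7 = 1 ∨ k ^ 4 % 7 = 2 ∨ k ^ 4 % 7 = 4 := by
  have h1 : k ^ 4 % 7 = (k % 7) ^ 4 % 7 := ((Nat.mod_modEq k 7).symm.pow 4)
  have h2 : k % 7 ≠ 0 := fun h => hk (Nat.dvd_of_mod_eq_zero h)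
  have h3 : k % 7 < 7 := Nat.mod_lt _ (by norm_num)
  rw [h1]
  generalize k % 7 = r at h2 h3
  interval_cases r <;> simp_all

lemma pow_four_mod_eight {k : ℕ} (hk : Odd k) : k ^ 4 % 8 = 1 := by
  have h1 : k ^ 4 % 8 = (k % 8) ^ 4 % 8 := ((Nat.mod_modEq k 8).symm.pow 4)
  have h2 : k % 8 % 2 = 1 := by rw [Nat.odd_iff] at hk; omega
  have h3 : k % 8 < 8 := Nat.mod_lt _ (by norm_num)
  rw [h1]
  generalize k % 8 = r at h2 h3
  interval_cases r <;> simp_all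

lemma caseA_chi {n k : ℕ} (hn : n % 8 = 1 ∨ n % 8 = 2 ∨ n % 8 = 5 ∨ n % 8 = 6) (hk : Odd k)
    (h7 : ¬ 7 ∣ k) (hlt : 1 * k ^ 4 < 14 * n) : chi (14 * n - 1 * k ^ 4) = 1 := by
  have h1 := pow_four_mod_seven h7
  have h2 := pow_four_mod_eight hk
  apply chi_eq_one <;> omega

lemma caseB_chi {n k : ℕ} (hn : n % 8 = 3)
    (h7 : ¬ 7 ∣ k) (hlt : 8 * k ^ 4 < 7 * n) : chi (7 * n - 8 * k ^ 4) = 1 := by
  have h1 := pow_four_mod_seven h7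
  apply chi_eq_one <;> omega

lemma caseA_good {n k : ℕ} (hn : n % 8 = 1 ∨ n % 8 = 2 ∨ n % 8 = 5 ∨ n % 8 = 6) (hk : Odd k)
    (h7 : ¬ 7 ∣ k) (hlt : 1 * k ^ 4 < 14 * n)
    (hr : ∑ d ∈ (14 * n - 1 * k ^ 4).divisors, chi d ≠ 0) : Good n := by
  have h1 := pow_four_mod_seven h7
  have hchi := caseA_chi hn hk h7 hlt
  obtain ⟨X, Y, hXY⟩ := rep (D := 14 * n - 1 * k ^ 4) (by omega) (by omega)
    (by rw [hchi]; norm_num) hr
  have hc : ((14 * n - 1 * k ^ 4 : ℕ) : ℤ) = 14 * n - k ^ 4 := by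
    rw [Nat.cast_sub hlt.le]; push_cast; ring
  rw [hc] at hXY
  obtain ⟨x, y, z, h, h'⟩ := exists_xyz (n := n) (t := (k : ℤ) ^ 2) (p := Y) (q := -X)
    (by linear_combination -hXY)
  exact ⟨x, y, z, h'.symm, k, Or.inl h⟩

lemma caseB_good {n k : ℕ} (hn : n % 8 = 3)
    (h7 : ¬ 7 ∣ k) (hlt : 8 * k ^ 4 < 7 * n)
    (hr : ∑ d ∈ (7 * n - 8 * k ^ 4).divisors, chi d ≠ 0) : Good n := by
  have h1 := pow_four_mod_seven h7
  have hchi := caseB_chi hn h7 hlt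
  obtain ⟨X, Y, hXY⟩ := rep (D := 7 * n - 8 * k ^ 4) (by omega) (by omega)
    (by rw [hchi]; norm_num) hr
  have hc : ((7 * n - 8 * k ^ 4 : ℕ) : ℤ) = 7 * n - 8 * k ^ 4 := by
    rw [Nat.cast_sub hlt.le]; push_cast; ring
  rw [hc] at hXY
  obtain ⟨x, y, z, h, h'⟩ := exists_xyz (n := n) (t := (2 * (k : ℤ)) ^ 2) (p := X + Y) (q := X - Y)
    (by linear_combination -2 * hXY)
  exact ⟨x, y, z, h'.symm, 2 * k, Or.inl h⟩

/-- multiplication by four -/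
lemma Good.four {n : ℕ} (h : Good n) : Good (4 * n) := by
  obtain ⟨x, y, z, h1, m, h2 | h2⟩ := h
  · refine ⟨2 * x, 2 * y, 2 * z, by push_cast; rw [h1]; ring, m, Or.inr ?_⟩
    linear_combination 2 * h2
  · refine ⟨2 * x, 2 * y, 2 * z, by push_cast; rw [h1]; ring, 2 * m, Or.inl ?_⟩
    linear_combination 2 * h2

end Pool.Agent.Helper11.Sq
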