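import Mathlib

/-!
# The Kronecker symbol `(-56 / d)`
-/

set_option autoImplicit false

namespace Pool.Agent.Helper11.Sq

open Finset

/-- the Jacobi symbol `(-14 / d)` (`0` for even `d ≥ 2`) -/
def chi (d : ℕ) : ℤ := jacobiSym (-14) d

lemma chi_mul {a b : ℕ} (ha : a ≠ 0) (hb : b ≠ 0) : chi (a * b) = chi a * chi b :=
  jacobiSym.mul_right' _ ha hb

lemma chi_one : chi 1 = 1 := jacobiSym.one_right _

lemma chi_tri (d : ℕ) : chi d = 0 ∨ chi d = 1 ∨ chi d = -1 := jacobiSym.trichotomy _ _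

lemma abs_chi_le (d : ℕ) : |chi d| ≤ 1 := by
  rcases chi_tri d with h | h | h <;> rw [h] <;> norm_num

lemma chi_even {d : ℕ} (hd : d ≠ 0) (he : Even d) : chi d = 0 := by
  unfold chi
  rw [jacobiSym.eq_zero_iff]
  refine ⟨hd, ?_⟩
  intro h
  have h2 : (2 : ℕ) ∣ Int.gcd (-14) d := by
    apply Int.dvd_gcd
    · norm_num
    · exact_mod_cast he.two_dvd
  rw [h] at h2
  norm_num at h2

lemma chi_seven {d : ℕ} (hd : d ≠ 0) (he : 7 ∣ d) : chi d = 0 := by
  unfold chi
  rw [jacobiSym.eq_zero_iff]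
  refine ⟨hd, ?_⟩
  intro h
  have h2 : (7 : ℕ) ∣ Int.gcd (-14) d := by
    apply Int.dvd_gcd
    · norm_num
    · exact_mod_cast he
  rw [h] at h2
  norm_num at h2

lemma chi_mod {d : ℕ} (hd : Odd d) : chi d = chi (d % 56) := by
  have := jacobiSym.mod_right (-14) hd
  simpa [chi] using this

lemma chi_add_56 {d : ℕ} (hd : d ≠ 0) : chi (d + 56) = chi d := by
  rcases Nat.even_or_odd d with h | h
  · rw [chi_even hd h, chi_even (by omega) (by
      rw [Nat.even_iff] at h ⊢; omega)]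
  · have h' : Odd (d + 56) := by
      rw [Nat.odd_iff] at h ⊢; omega
    rw [chi_mod h', chi_mod h]
    simp

/-- table of values -/
def tab (r : ℕ) : ℤ :=
  if r ∈ [1, 3, 5, 9, 13, 15, 19, 23, 25, 27, 39, 45] then 1
  else if r ∈ [11, 17, 29, 31, 33, 37, 41, 43, 47, 51, 53, 55] then -1 else 0

lemma chi_tab : ∀ r : ℕ, 0 < r → r < 56 → chi r = tab r := by
  intro r h0 h1
  unfold chi
  interval_cases r <;> norm_num [tab]

lemma chi_eq_tab {d : ℕ} (hd : d ≠ 0) : chi d = tab (d % 56) := by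
  rcases Nat.even_or_odd d with h | h
  · rw [chi_even hd h]
    have h2 : d % 56 % 2 = 0 := by
      rw [Nat.even_iff] at h; omega
    have h3 : d % 56 < 56 := Nat.mod_lt _ (by norm_num)
    generalize d % 56 = r at h2 h3
    interval_cases r <;> first | omega | rfl
  · rw [chi_mod h]
    have h2 : d % 56 % 2 = 1 := by
      rw [Nat.odd_iff] at h; omega
    exact chi_tab _ (by omega) (Nat.mod_lt _ (by norm_num))

/-- the values needed for the main argument -/
lemma chi_eq_one {d : ℕ} (h8 : d % 8 = 3 ∨ d % 8 = 5) (h7 : d % 7 = 3 ∨ d % 7 = 5 ∨ d % 7 = 6) :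
    chi d = 1 := by
  rw [chi_eq_tab (by rintro rfl; simp at h8)]
  have h2 : d % 56 % 8 = d % 8 := Nat.mod_mod_of_dvd _ (by norm_num)
  have h3 : d % 56 % 7 = d % 7 := Nat.mod_mod_of_dvd _ (by norm_num)
  have h4 : d % 56 < 56 := Nat.mod_lt _ (by norm_num)
  rw [← h2] at h8
  rw [← h3] at h7
  generalize d % 56 = r at h8 h7 h4
  interval_cases r <;> first | omega | rfl

/-- partial sums of `chi` -/
def S (n : ℕ) : ℤ := ∑ d ∈ range n, chi (d + 1)

lemma S_add_56 (n : ℕ) : S (n + 56) = S n := by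
  induction n with
  | zero =>
    unfold S
    simp only [zero_add, Finset.sum_range_zero]
    rw [Finset.sum_congr rfl (fun d hd => chi_eq_tab (Nat.succ_ne_zero d))]
    decide
  | succ n ih =>
    have h1 : S (n + 1 + 56) = S (n + 56) + chi (n + 1 + 56) := by
      unfold S
      rw [show n + 1 + 56 = (n + 56) + 1 by ring, Finset.sum_range_succ]
    have h2 : S (n + 1) = S n + chi (n + 1) := by
      unfold S
      rw [Finset.sum_range_succ]
    rw [h1, h2, ih, chi_add_56 (Nat.succ_ne_zero n)]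

lemma S_bounds (n : ℕ) : 0 ≤ S n ∧ S n ≤ 8 := by
  induction n using Nat.strong_induction_on with
  | _ n ih =>
    by_cases h : n < 56
    · unfold S
      rw [Finset.sum_congr rfl (fun d hd => chi_eq_tab (Nat.succ_ne_zero d))]
      have : ∀ n < 56, 0 ≤ ∑ d ∈ range n, tab ((d + 1) % 56) ∧
          ∑ d ∈ range n, tab ((d + 1) % 56) ≤ 8 := by decide
      exact this n h
    · obtain ⟨m, rfl⟩ : ∃ m, n = m + 56 := ⟨n - 56, by omega⟩
      rw [S_add_56]
      exact ih m (by omega)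

end Pool.Agent.Helper11.Sq
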