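import Pool.Agent.Helper11.Sq.Hyper

/-!
# The number of bad elements of a residue class
-/

set_option autoImplicit false

namespace Pool.Agent.Helper11.Sq

open Finset Filter Topology

/-- the data of a residue class -/
structure Data (α β k₀ P w a : ℕ) (B L : ℝ) : Prop where
  hα0 : 0 < α
  hα : ∀ q : ℕ, q.Coprime P → q.Coprime α
  hβ0 : 0 < β
  hP0 : 0 < P
  hβ : ∀ p, p.Prime → ¬ p ∣ P → ¬ p ∣ β
  hw : 1 ≤ w
  hP : ∀ p, p.Prime → p ≤ w → p ∣ P
  hB : ∀ y, |Lam P y| ≤ B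
  hL0 : 0 < L
  hL : Tendsto (fun y => Lam P y) atTop (𝓝 L)
  hk : ∀ j, Odd (k₀ + P * j) ∧ ¬ 7 ∣ (k₀ + P * j)
  hcop : ∀ u j, BadU α β P a u → F β k₀ P j < α * (a + P * u) →
    (α * (a + P * u) - F β k₀ P j).Coprime P

open Classical in
/-- the number of bad elements between `U₁` and `U` -/
noncomputable def badCount (α β P a U₁ U : ℕ) : ℕ := #((Ico U₁ U).filter (fun u => BadU α β P a u))

/-- deterministic inequality -/
lemma class_ineq {α β k₀ P w a : ℕ} {B L : ℝ} (hD : Data α β k₀ P w a B L)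
    {J y z Z U₁ U : ℕ} (hJ : 1 ≤ J) (hLam : L / 2 ≤ Lam P z)
    (hlt : ∀ j < J, F β k₀ P j < α * (a + P * U₁))
    (hy1 : 1 ≤ y) (hy : ∀ j < J, y ^ 2 ≤ α * (a + P * U₁) - F β k₀ P j)
    (hz : α * (a + P * U) ≤ z ^ 2) (hZ1 : 1 ≤ Z) (hZz : Z ≤ z) (hZ : F β k₀ P J ≤ Z)
    (hZU : Z ^ 2 ≤ U) (hUz : U ≤ z ^ 2) :
    (badCount α β P a U₁ U : ℝ) ≤ 4 / L * ((z + 1 - y : ℕ) * (((U - U₁) / y + 1 : ℕ) : ℝ)) +
      160 * B ^ 2 / L ^ 2 * (U * ((Real.exp (4 / w) - 1) + M Z ^ 4 / J) +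
        z ^ 2 * (1 + Real.log z) / J) := by
  classical
  have hJ0 : (0 : ℝ) < J := by exact_mod_cast hJ
  have hL0 := hD.hL0
  set bad := (Ico U₁ U).filter (fun u => BadU α β P a u) with hbad
  have hpt : ∀ u ∈ bad, (1 : ℝ) ≤ 4 / (J * L) * V α β k₀ P a J y z u +
      16 / (J ^ 2 * L ^ 2) * (T α β k₀ P a J z u) ^ 2 := by
    intro u hu
    rw [hbad, mem_filter, mem_Ico] at hu
    obtain ⟨⟨h1, h2⟩, h3⟩ := hu
    have hmono : α * (a + P * U₁) ≤ α * (a + P * u) :=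
      Nat.mul_le_mul_left _ (Nat.add_le_add_left (Nat.mul_le_mul_left _ h1) _)
    have hlt' : ∀ j < J, F β k₀ P j < α * (a + P * u) := fun j hj => (hlt j hj).trans_le hmono
    have h4 := bad_ineq (z := z) (y := y) hD.hk hlt' (fun j hj => hD.hcop u j h3 (hlt' j hj))
      (fun j hj => (hy j hj).trans (Nat.sub_le_sub_right hmono _))
      ((Nat.mul_le_mul_left _ (Nat.add_le_add_left (Nat.mul_le_mul_left _ h2.le) _)).trans hz) h3
    set v : ℝ := (V α β k₀ P a J y z u : ℝ) with hv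
    set t := T α β k₀ P a J z u
    have h5 : (J : ℝ) * (L / 2) ≤ v - t := by
      have : (J : ℝ) * (L / 2) ≤ J * Lam P z := mul_le_mul_of_nonneg_left hLam hJ0.le
      linarith
    have hv0 : 0 ≤ v := by positivity
    set x : ℝ := J * L with hx
    have hx0 : 0 < x := by positivity
    have h6 : x ≤ 2 * v + 2 * |t| := by
      have := neg_abs_le t
      nlinarith
    have e1 : 4 / (J * L) * v = 4 * v / x := by rw [hx]; ring
    have e2 : 16 / (J ^ 2 * L ^ 2) * t ^ 2 = (4 * |t| / x) ^ 2 := by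
      rw [div_pow, mul_pow, sq_abs, hx, mul_pow]; ring
    rw [e1, e2]
    by_cases hc : x ≤ 4 * v
    · have : 1 ≤ 4 * v / x := by rwa [one_le_div hx0]
      have h7 : 0 ≤ (4 * |t| / x) ^ 2 := by positivity
      linarith
    · push Not at hc
      have h7 : x ≤ 4 * |t| := by linarith
      have h8 : 1 ≤ 4 * |t| / x := by rwa [one_le_div hx0]
      have h9 : 1 ≤ (4 * |t| / x) ^ 2 := one_le_pow₀ h8
      have h10 : 0 ≤ 4 * v / x := by positivity
      linarith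
  have h1 : (badCount α β P a U₁ U : ℝ) ≤ ∑ u ∈ bad, (4 / (J * L) * V α β k₀ P a J y z u +
      16 / (J ^ 2 * L ^ 2) * (T α β k₀ P a J z u) ^ 2) := by
    have h2 : (badCount α β P a U₁ U : ℝ) = ∑ u ∈ bad, (1 : ℝ) := by
      rw [Finset.sum_const, nsmul_eq_mul, mul_one]
      unfold badCount
      rfl
    rw [h2]
    exact Finset.sum_le_sum hpt
  have h2 : ∑ u ∈ bad, (4 / (J * L) * V α β k₀ P a J y z u +
      16 / (J ^ 2 * L ^ 2) * (T α β k₀ P a J z u) ^ 2) ≤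
      4 / (J * L) * ∑ u ∈ Ico U₁ U, (V α β k₀ P a J y z u : ℝ) +
      16 / (J ^ 2 * L ^ 2) * ∑ u ∈ range U, (T α β k₀ P a J z u) ^ 2 := by
    rw [Finset.sum_add_distrib, ← Finset.mul_sum, ← Finset.mul_sum]
    apply add_le_add
    · apply mul_le_mul_of_nonneg_left _ (by positivity)
      apply Finset.sum_le_sum_of_subset_of_nonneg (Finset.filter_subset _ _)
      intro _ _ _; positivity
    · apply mul_le_mul_of_nonneg_left _ (by positivity)
      apply Finset.sum_le_sum_of_subset_of_nonneg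
      · intro u hu
        rw [hbad, mem_filter, mem_Ico] at hu
        exact mem_range.2 hu.1.2
      · intro _ _ _; positivity
  have h3 : ∑ u ∈ Ico U₁ U, (V α β k₀ P a J y z u : ℝ) ≤
      J * ((z + 1 - y : ℕ) * (((U - U₁) / y + 1 : ℕ) : ℝ)) := by
    exact_mod_cast V_sum_le (β := β) (k₀ := k₀) (a := a) (J := J) (z := z) (U₁ := U₁) (U := U)
      hD.hα hy1
  have h4 := second_moment (a := a) (J := J) (k₀ := k₀) hD.hB hD.hα hD.hβ0 hD.hP0 hD.hβ hD.hw hD.hP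
    hZ1 hZz hZ hZU hUz le_rfl
  refine h1.trans (h2.trans ?_)
  have h5 : 4 / (J * L) * ∑ u ∈ Ico U₁ U, (V α β k₀ P a J y z u : ℝ) ≤
      4 / (J * L) * (J * ((z + 1 - y : ℕ) * (((U - U₁) / y + 1 : ℕ) : ℝ))) :=
    mul_le_mul_of_nonneg_left h3 (by positivity)
  have h6 : 16 / (J ^ 2 * L ^ 2) * ∑ u ∈ range U, (T α β k₀ P a J z u) ^ 2 ≤
      16 / (J ^ 2 * L ^ 2) * (10 * B ^ 2 * J * (U * (J * (Real.exp (4 / w) - 1) + M Z ^ 4) +
        ((z ^ 2 : ℕ) : ℝ) * (1 + Real.log z))) :=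
    mul_le_mul_of_nonneg_left h4 (by positivity)
  refine (add_le_add h5 h6).trans (le_of_eq ?_)
  push_cast
  field_simp
  ring

end Pool.Agent.Helper11.Sq
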