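import Pool.Agent.Helper11.Sq.Mert

/-!
# Divisors of differences of fourth powers
-/

set_option autoImplicit false

namespace Pool.Agent.Helper11.Sq

open Finset Filter Topology

/-- a residue class in an interval -/
lemma count_class (J Q r : ℕ) :
    (#((range J).filter (fun j => j ≡ r [MOD Q])) : ℝ) ≤ (J : ℝ) / Q + 1 := by
  rcases Nat.eq_zero_or_pos Q with hQ | hQ
  · subst hQ
    have : #((range J).filter (fun j => j ≡ r [MOD 0])) ≤ 1 := by
      rw [Finset.card_le_one]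
      intro a ha b hb
      rw [mem_filter, Nat.modEq_zero_iff] at ha hb
      exact ha.2.trans hb.2.symm
    have h' : (#((range J).filter (fun j => j ≡ r [MOD 0])) : ℝ) ≤ 1 := by exact_mod_cast this
    simpa using h'
  · have h1 : #((range J).filter (fun j => j ≡ r [MOD Q])) ≤ J / Q + 1 := by
      rw [← Finset.card_range (J / Q + 1)]
      apply Finset.card_le_card_of_injOn (fun j => j / Q)
      · intro j hj
        rw [mem_coe, mem_filter, mem_range] at hj
        rw [mem_coe, mem_range]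
        exact Nat.lt_succ_of_le (Nat.div_le_div_right hj.1.le)
      · intro a ha b hb hab
        rw [mem_coe, mem_filter] at ha hb
        have h2 : a % Q = b % Q := ha.2.trans hb.2.symm
        simp only at hab
        rw [← Nat.div_add_mod a Q, ← Nat.div_add_mod b Q, h2, hab]
    calc (#((range J).filter (fun j => j ≡ r [MOD Q])) : ℝ) ≤ ((J / Q + 1 : ℕ) : ℝ) := by
          exact_mod_cast h1
      _ ≤ (J : ℝ) / Q + 1 := by
          push_cast
          have := Nat.cast_div_le (α := ℝ) (m := J) (n := Q)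
          linarith

/-- at most four classes modulo every prime of `S` -/
lemma count_aux (J : ℕ) (Φ : ℕ → ℕ → Prop) (S : Finset ℕ) :
    ∀ (Q r : ℕ), 0 < Q → (∀ p ∈ S, p.Prime ∧ ¬ p ∣ Q) →
      (∀ p ∈ S, ∀ i j, i ≡ j [MOD p] → (Φ p i ↔ Φ p j)) →
      (∀ p ∈ S, {x | x < p ∧ Φ p x}.ncard ≤ 4) →
      ({j | j < J ∧ j ≡ r [MOD Q] ∧ ∀ p ∈ S, Φ p j}.ncard : ℝ) ≤
        4 ^ (#S) * ((J : ℝ) / (Q * ∏ p ∈ S, (p : ℝ)) + 1) := by
  classical
  induction S using Finset.induction_on with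
  | empty =>
    intro Q r hQ _ _ _
    have h1 : {j | j < J ∧ j ≡ r [MOD Q] ∧ ∀ p ∈ (∅ : Finset ℕ), Φ p j} =
        (((range J).filter (fun j => j ≡ r [MOD Q]) : Finset ℕ) : Set ℕ) := by
      ext j; simp
    rw [h1, Set.ncard_coe_finset]
    simpa using count_class J Q r
  | insert p S hp ih =>
    intro Q r hQ hS hmod hcount
    have hpp := (hS p (mem_insert_self _ _)).1
    have hpQ := (hS p (mem_insert_self _ _)).2
    set C : Finset ℕ := (range p).filter (fun x => Φ p x) with hC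
    have hCcard : #C ≤ 4 := by
      have h1 := hcount p (mem_insert_self _ _)
      have h2 : {x | x < p ∧ Φ p x} = (C : Set ℕ) := by
        ext x; simp [hC]
      rw [h2, Set.ncard_coe_finset] at h1
      exact h1
    have hcop : Nat.Coprime Q p := (hpp.coprime_iff_not_dvd.2 hpQ).symm
    have hsub : {j | j < J ∧ j ≡ r [MOD Q] ∧ ∀ q ∈ insert p S, Φ q j} ⊆
        ⋃ x ∈ C, {j | j < J ∧ j ≡ (Nat.chineseRemainder hcop r x : ℕ) [MOD Q * p] ∧
          ∀ q ∈ S, Φ q j} := by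
      rintro j ⟨h1, h2, h3⟩
      simp only [Set.mem_iUnion, exists_prop]
      refine ⟨j % p, ?_, h1, ?_, fun q hq => h3 q (mem_insert_of_mem hq)⟩
      · rw [hC, mem_filter, mem_range]
        refine ⟨Nat.mod_lt _ hpp.pos, ?_⟩
        exact (hmod p (mem_insert_self _ _) _ _ (Nat.mod_modEq j p)).2 (h3 p (mem_insert_self _ _))
      · apply (Nat.modEq_and_modEq_iff_modEq_mul hcop).1
        have h4 := (Nat.chineseRemainder hcop r (j % p)).2
        exact ⟨h2.trans h4.1.symm, (Nat.mod_modEq j p).symm.trans h4.2.symm⟩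
    have hfin : ∀ x ∈ C, {j | j < J ∧ j ≡ (Nat.chineseRemainder hcop r x : ℕ) [MOD Q * p] ∧
          ∀ q ∈ S, Φ q j}.Finite := fun x _ => (Set.finite_lt_nat J).subset fun j hj => hj.1
    have h1 : ({j | j < J ∧ j ≡ r [MOD Q] ∧ ∀ q ∈ insert p S, Φ q j}.ncard : ℝ) ≤
        ∑ x ∈ C, ({j | j < J ∧ j ≡ (Nat.chineseRemainder hcop r x : ℕ) [MOD Q * p] ∧
          ∀ q ∈ S, Φ q j}.ncard : ℝ) := by
      have h2 := Set.ncard_le_ncard hsub (C.finite_toSet.biUnion hfin)
      have h3 : (⋃ x ∈ C, {j | j < J ∧ j ≡ (Nat.chineseRemainder hcop r x : ℕ) [MOD Q * p] ∧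
          ∀ q ∈ S, Φ q j}).ncard ≤ ∑ x ∈ C, {j | j < J ∧
          j ≡ (Nat.chineseRemainder hcop r x : ℕ) [MOD Q * p] ∧ ∀ q ∈ S, Φ q j}.ncard :=
        Finset.set_ncard_biUnion_le _ _
      exact_mod_cast h2.trans h3
    have h2 : ∀ x ∈ C, ({j | j < J ∧ j ≡ (Nat.chineseRemainder hcop r x : ℕ) [MOD Q * p] ∧
          ∀ q ∈ S, Φ q j}.ncard : ℝ) ≤
        4 ^ (#S) * ((J : ℝ) / ((Q * p : ℕ) * ∏ q ∈ S, (q : ℝ)) + 1) := by
      intro x _
      apply ih (Q * p) _ (Nat.mul_pos hQ hpp.pos)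
      · intro q hq
        have hqp := hS q (mem_insert_of_mem hq)
        refine ⟨hqp.1, ?_⟩
        intro hd
        rcases (hqp.1.dvd_mul).1 hd with h | h
        · exact hqp.2 h
        · rw [(Nat.prime_dvd_prime_iff_eq hqp.1 hpp).1 h] at hq
          exact hp hq
      · intro q hq
        exact hmod q (mem_insert_of_mem hq)
      · intro q hq
        exact hcount q (mem_insert_of_mem hq)
    refine h1.trans ((Finset.sum_le_card_nsmul _ _ _ h2).trans ?_)
    rw [nsmul_eq_mul, Finset.card_insert_of_notMem hp, Finset.prod_insert hp, pow_succ]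
    have h3 : (#C : ℝ) ≤ 4 := by exact_mod_cast hCcard
    have h4 : 0 ≤ (4 : ℝ) ^ (#S) * ((J : ℝ) / ((Q * p : ℕ) * ∏ q ∈ S, (q : ℝ)) + 1) := by
      positivity
    calc (#C : ℝ) * (4 ^ (#S) * ((J : ℝ) / ((Q * p : ℕ) * ∏ q ∈ S, (q : ℝ)) + 1))
        ≤ 4 * (4 ^ (#S) * ((J : ℝ) / ((Q * p : ℕ) * ∏ q ∈ S, (q : ℝ)) + 1)) :=
          mul_le_mul_of_nonneg_right h3 h4
      _ = _ := by push_cast; ring

lemma count_le (J : ℕ) (Φ : ℕ → ℕ → Prop) (S : Finset ℕ) (hS : ∀ p ∈ S, p.Prime)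
    (hmod : ∀ p ∈ S, ∀ i j, i ≡ j [MOD p] → (Φ p i ↔ Φ p j))
    (hcount : ∀ p ∈ S, {x | x < p ∧ Φ p x}.ncard ≤ 4) :
    ({j | j < J ∧ ∀ p ∈ S, Φ p j}.ncard : ℝ) ≤
        4 ^ (#S) * ((J : ℝ) / (∏ p ∈ S, (p : ℝ)) + 1) := by
  have := count_aux J Φ S 1 0 one_pos (fun p hp => ⟨hS p hp, (hS p hp).one_lt.ne' ∘ Nat.dvd_one.1⟩)
    hmod hcount
  simpa [Nat.modEq_one] using this

/-- the fourth powers in a progression -/
def F (β k₀ P j : ℕ) : ℕ := β * (k₀ + P * j) ^ 4

lemma roots_le {β k₀ P p : ℕ} (hp : p.Prime) (hβ : ¬ p ∣ β) (hP : ¬ p ∣ P) (c : ℤ) :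
    {x | x < p ∧ (p : ℤ) ∣ (F β k₀ P x : ℤ) - c}.ncard ≤ 4 := by
  classical
  have : Fact p.Prime := ⟨hp⟩
  have hβ' : (β : ZMod p) ≠ 0 := by rwa [Ne, ZMod.natCast_eq_zero_iff]
  have hP' : (P : ZMod p) ≠ 0 := by rwa [Ne, ZMod.natCast_eq_zero_iff]
  set R : Finset (ZMod p) := (Polynomial.nthRoots 4 ((c : ZMod p) / β)).toFinset with hR
  have hRc : #R ≤ 4 := (Multiset.toFinset_card_le _).trans (Polynomial.card_nthRoots _ _)
  have h1 : {x | x < p ∧ (p : ℤ) ∣ (F β k₀ P x : ℤ) - c}.ncard ≤ (R : Set (ZMod p)).ncard := by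
    apply Set.ncard_le_ncard_of_injOn (fun x : ℕ => ((k₀ : ZMod p) + P * x))
    · rintro x ⟨_, hx⟩
      rw [mem_coe, hR, Multiset.mem_toFinset, Polynomial.mem_nthRoots (by norm_num)]
      rw [← ZMod.intCast_zmod_eq_zero_iff_dvd] at hx
      unfold F at hx
      push_cast at hx
      rw [eq_div_iff hβ']
      linear_combination hx
    · rintro x ⟨hx, _⟩ y ⟨hy, _⟩ hxy
      simp only at hxy
      have h2 : (P : ZMod p) * x = P * y := add_left_cancel hxy
      have h3 : (x : ZMod p) = y := mul_left_cancel₀ hP' h2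
      rw [ZMod.natCast_eq_natCast_iff] at h3
      exact Nat.ModEq.eq_of_lt_of_lt h3 hx hy
  rw [Set.ncard_coe_finset] at h1
  exact h1.trans hRc

lemma F_mod {β k₀ P p : ℕ} (c : ℤ) {i j : ℕ} (h : i ≡ j [MOD p]) :
    ((p : ℤ) ∣ (F β k₀ P i : ℤ) - c ↔ (p : ℤ) ∣ (F β k₀ P j : ℤ) - c) := by
  have h1 : F β k₀ P i ≡ F β k₀ P j [MOD p] := by
    unfold F
    exact Nat.ModEq.mul_left _ ((Nat.ModEq.add_left _ (Nat.ModEq.mul_left _ h)).pow 4)
  have h2 : (p : ℤ) ∣ (F β k₀ P j : ℤ) - F β k₀ P i := (Nat.modEq_iff_dvd).1 h1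
  constructor
  · intro h3
    have := dvd_add h2 h3
    have e : (F β k₀ P j : ℤ) - c =
        (F β k₀ P j : ℤ) - F β k₀ P i + ((F β k₀ P i : ℤ) - c) := by ring
    rw [e]; exact this
  · intro h3
    have := dvd_sub h3 h2
    have e : (F β k₀ P i : ℤ) - c =
        (F β k₀ P j : ℤ) - c - ((F β k₀ P j : ℤ) - F β k₀ P i) := by ring
    rw [e]; exact this

/-- sum over the divisors coprime to `P` -/
lemma sum_inv_le (P Z : ℕ) (h : ℤ) :
    ∑ q ∈ (Icc 1 Z).filter (fun q : ℕ => q.Coprime P ∧ (q : ℤ) ∣ h), 1 / (q : ℝ) ≤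
      ∏ p ∈ ((pr Z).filter (fun p => ¬ p ∣ P)).filter (fun p : ℕ => (p : ℤ) ∣ h),
        (1 + 1 / ((p : ℝ) - 1)) := by
  classical
  set T := ((pr Z).filter (fun p => ¬ p ∣ P)).filter (fun p : ℕ => (p : ℤ) ∣ h) with hT
  let f : ℕ →* ℝ := ⟨⟨fun n => 1 / (n : ℝ), by simp⟩, fun a b => by
    push_cast
    rw [one_div_mul_one_div]⟩
  have hf : ∀ n : ℕ, f n = 1 / (n : ℝ) := fun _ => rfl
  have hsum := (EulerProduct.summable_and_hasSum_factoredNumbers_prod_filter_prime_geometric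
    (f := f) (by
      intro p hp
      rw [hf, Real.norm_of_nonneg (by positivity), div_lt_one (by exact_mod_cast hp.pos)]
      exact_mod_cast hp.one_lt) T).2
  have hprod : ∏ p ∈ T with p.Prime, (1 - f p)⁻¹ = ∏ p ∈ T, (1 + 1 / ((p : ℝ) - 1)) := by
    rw [Finset.filter_true_of_mem]
    · apply Finset.prod_congr rfl
      intro p hp
      rw [hT, mem_filter, mem_filter] at hp
      have h1 := one_lt_of_mem_pr hp.1.1
      rw [hf]
      have h2 : (p : ℝ) - 1 ≠ 0 := by linarith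
      have h3 : (p : ℝ) ≠ 0 := by linarith
      field_simp
      ring
    · intro p hp
      rw [hT, mem_filter, mem_filter, mem_pr] at hp
      exact hp.1.1.2
  rw [← hprod]
  have hmem : ∀ q ∈ (Icc 1 Z).filter (fun q : ℕ => q.Coprime P ∧ (q : ℤ) ∣ h),
      q ∈ Nat.factoredNumbers T := by
    intro q hq
    rw [mem_filter, mem_Icc] at hq
    rw [Nat.mem_factoredNumbers']
    intro p hp hpq
    rw [hT, mem_filter, mem_filter, mem_pr]
    refine ⟨⟨⟨(Nat.le_of_dvd (by omega) hpq).trans hq.1.2, hp⟩, ?_⟩, ?_⟩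
    · intro hpP
      have := Nat.dvd_gcd hpq hpP
      rw [hq.2.1] at this
      exact hp.one_lt.ne' (Nat.dvd_one.1 this)
    · exact (Int.natCast_dvd_natCast.2 hpq).trans hq.2.2
  have e := Finset.sum_subtype_of_mem (p := fun q => q ∈ Nat.factoredNumbers T)
    (fun q : ℕ => 1 / (q : ℝ)) hmem
  rw [← e]
  exact sum_le_hasSum _ (fun m _ => by positivity) hsum

/-- average over a progression -/
lemma avg_prod_le {β k₀ P : ℕ} (hβ : ∀ p, p.Prime → ¬ p ∣ P → ¬ p ∣ β) (Z J : ℕ) (c : ℤ) :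
    ∑ j ∈ range J, (∏ p ∈ ((pr Z).filter (fun p => ¬ p ∣ P)).filter
        (fun p : ℕ => (p : ℤ) ∣ (F β k₀ P j : ℤ) - c), (1 + 1 / ((p : ℝ) - 1)) - 1) ≤
      J * (∏ p ∈ (pr Z).filter (fun p => ¬ p ∣ P), (1 + 4 / ((p : ℝ) * (p - 1))) - 1) +
        ∏ p ∈ (pr Z).filter (fun p => ¬ p ∣ P), (1 + 4 / ((p : ℝ) - 1)) := by
  classical
  set Q := (pr Z).filter (fun p => ¬ p ∣ P) with hQ
  have hQp : ∀ p ∈ Q, p.Prime ∧ ¬ p ∣ P := by
    intro p hp
    rw [hQ, mem_filter, mem_pr] at hp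
    exact ⟨hp.1.2, hp.2⟩
  have hQ1 : ∀ p ∈ Q, (0 : ℝ) < (p : ℝ) - 1 := by
    intro p hp
    have : (1 : ℝ) < p := by exact_mod_cast (hQp p hp).1.one_lt
    linarith
  have h1 : ∀ j ∈ range J, ∏ p ∈ Q.filter (fun p : ℕ => (p : ℤ) ∣ (F β k₀ P j : ℤ) - c),
      (1 + 1 / ((p : ℝ) - 1)) = ∑ S ∈ Q.powerset,
        if (∀ p ∈ S, ((p : ℕ) : ℤ) ∣ (F β k₀ P j : ℤ) - c) then ∏ p ∈ S, (1 / ((p : ℝ) - 1)) else 0 := by
    intro j _
    rw [Finset.prod_one_add, ← Finset.sum_filter]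
    apply Finset.sum_congr _ (fun _ _ => rfl)
    ext S
    simp only [mem_powerset, mem_filter]
    constructor
    · intro h
      exact ⟨h.trans (Finset.filter_subset _ _), fun p hp => (mem_filter.1 (h hp)).2⟩
    · rintro ⟨h1, h2⟩ p hp
      exact mem_filter.2 ⟨h1 hp, h2 p hp⟩
  rw [Finset.sum_sub_distrib, Finset.sum_congr rfl h1, Finset.sum_comm]
  have h2 : ∀ S ∈ Q.powerset, ∑ j ∈ range J,
      (if (∀ p ∈ S, ((p : ℕ) : ℤ) ∣ (F β k₀ P j : ℤ) - c) then ∏ p ∈ S, (1 / ((p : ℝ) - 1)) else 0) ≤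
      J * ∏ p ∈ S, (4 / ((p : ℝ) * (p - 1))) + ∏ p ∈ S, (4 / ((p : ℝ) - 1)) := by
    intro S hS
    rw [mem_powerset] at hS
    have hcnt := count_le J (fun p j => ((p : ℕ) : ℤ) ∣ (F β k₀ P j : ℤ) - c) S
      (fun p hp => (hQp p (hS hp)).1) (fun p _ i j hij => F_mod c hij)
      (fun p hp => roots_le (hQp p (hS hp)).1 (hβ p (hQp p (hS hp)).1 (hQp p (hS hp)).2)
        (hQp p (hS hp)).2 c)
    rw [← Finset.sum_filter, Finset.sum_const, nsmul_eq_mul]
    have h3 : {j | j < J ∧ ∀ p ∈ S, ((p : ℕ) : ℤ) ∣ (F β k₀ P j : ℤ) - c} =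
        (((range J).filter (fun j => ∀ p ∈ S, ((p : ℕ) : ℤ) ∣ (F β k₀ P j : ℤ) - c) : Finset ℕ) :
          Set ℕ) := by
      ext j; simp
    rw [h3, Set.ncard_coe_finset] at hcnt
    have h4 : 0 ≤ ∏ p ∈ S, (1 / ((p : ℝ) - 1)) :=
      Finset.prod_nonneg fun p hp => by
        have := hQ1 p (hS hp)
        positivity
    refine (mul_le_mul_of_nonneg_right hcnt h4).trans (le_of_eq ?_)
    have e1 : ∏ p ∈ S, (4 / ((p : ℝ) * (p - 1))) =
        4 ^ (#S) * (∏ p ∈ S, (p : ℝ))⁻¹ * ∏ p ∈ S, (1 / ((p : ℝ) - 1)) := by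
      rw [← Finset.prod_inv_distrib, ← Finset.prod_const, ← Finset.prod_mul_distrib,
        ← Finset.prod_mul_distrib]
      apply Finset.prod_congr rfl
      intro p hp
      have h5 := (hQ1 p (hS hp)).ne'
      have h6 : (p : ℝ) ≠ 0 := by exact_mod_cast (hQp p (hS hp)).1.ne_zero
      field_simp
    have e2 : ∏ p ∈ S, (4 / ((p : ℝ) - 1)) = 4 ^ (#S) * ∏ p ∈ S, (1 / ((p : ℝ) - 1)) := by
      rw [← Finset.prod_const, ← Finset.prod_mul_distrib]
      apply Finset.prod_congr rfl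
      intro p hp
      ring
    rw [e1, e2]
    ring
  have h3 := Finset.sum_le_sum h2
  rw [Finset.sum_add_distrib, ← Finset.mul_sum, ← Finset.prod_one_add, ← Finset.prod_one_add] at h3
  rw [Finset.sum_const, card_range, nsmul_eq_mul]
  linarith

/-- the first product is close to one -/
lemma prod_small {P Z w : ℕ} (hw : 1 ≤ w) (hP : ∀ p, p.Prime → p ≤ w → p ∣ P) :
    ∏ p ∈ (pr Z).filter (fun p => ¬ p ∣ P), (1 + 4 / ((p : ℝ) * (p - 1))) ≤
      Real.exp (4 / w) := by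
  have hmem : ∀ p ∈ (pr Z).filter (fun p => ¬ p ∣ P), w < p := by
    intro p hp
    rw [mem_filter, mem_pr] at hp
    by_contra hcon
    exact hp.2 (hP p hp.1.2 (not_lt.1 hcon))
  calc ∏ p ∈ (pr Z).filter (fun p => ¬ p ∣ P), (1 + 4 / ((p : ℝ) * (p - 1)))
      ≤ ∏ p ∈ (pr Z).filter (fun p => ¬ p ∣ P), Real.exp (4 / ((p : ℝ) * (p - 1))) := by
        apply Finset.prod_le_prod
        · intro p hp
          have h1 := hmem p hp
          have h2 : (1 : ℝ) < p := by exact_mod_cast (by omega : 1 < p)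
          have h3 : (0 : ℝ) < p - 1 := by linarith
          positivity
        · intro p _
          have := Real.add_one_le_exp (4 / ((p : ℝ) * (p - 1)))
          linarith
    _ = Real.exp (∑ p ∈ (pr Z).filter (fun p => ¬ p ∣ P), 4 / ((p : ℝ) * (p - 1))) := by
        rw [Real.exp_sum]
    _ ≤ Real.exp (4 / w) := by
        apply Real.exp_le_exp.2
        have hsub : (pr Z).filter (fun p => ¬ p ∣ P) ⊆ Ioc w (w + Z) := by
          intro p hp
          rw [mem_Ioc]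
          refine ⟨hmem p hp, ?_⟩
          rw [mem_filter, mem_pr] at hp
          omega
        have h1 : ∑ p ∈ (pr Z).filter (fun p => ¬ p ∣ P), 4 / ((p : ℝ) * (p - 1)) ≤
            ∑ p ∈ Ioc w (w + Z), 4 / ((p : ℝ) * (p - 1)) := by
          apply Finset.sum_le_sum_of_subset_of_nonneg hsub
          intro p hp _
          rw [mem_Ioc] at hp
          have h2 : (1 : ℝ) < p := by exact_mod_cast (by omega : 1 < p)
          have h3 : (0 : ℝ) < p - 1 := by linarith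
          positivity
        refine h1.trans ?_
        have h2 : ∀ Y : ℕ, ∑ p ∈ Ioc w (w + Y), 4 / ((p : ℝ) * (p - 1)) =
            4 * (1 / (w : ℝ) - 1 / ((w : ℝ) + Y)) := by
          intro Y
          have hw0 : (0 : ℝ) < w := by exact_mod_cast hw
          induction Y with
          | zero => simp
          | succ Y ih =>
            rw [← add_assoc, Finset.sum_Ioc_succ_top (by omega), ih]
            push_cast
            have h3 : (w : ℝ) + Y ≠ 0 := by positivity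
            have h4 : (w : ℝ) + Y + 1 ≠ 0 := by positivity
            have h5 : (w : ℝ) + Y + 1 - 1 = w + Y := by ring
            rw [h5]
            field_simp
            ring
        rw [h2]
        have h3 : 0 ≤ 1 / ((w : ℝ) + Z) := by positivity
        have h4 : 4 / (w : ℝ) = 4 * (1 / (w : ℝ)) := by ring
        linarith

/-- the second product -/
lemma prod_big (P Z : ℕ) :
    ∏ p ∈ (pr Z).filter (fun p => ¬ p ∣ P), (1 + 4 / ((p : ℝ) - 1)) ≤ M Z ^ 4 := by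
  have h0 : ∏ p ∈ (pr Z).filter (fun p => ¬ p ∣ P), (1 + 4 / ((p : ℝ) - 1)) ≤
      ∏ p ∈ pr Z, (1 + 4 / ((p : ℝ) - 1)) := by
    apply Finset.prod_le_prod_of_subset_of_one_le (Finset.filter_subset _ _)
    · intro p hp
      have h1 := one_lt_of_mem_pr (Finset.mem_of_mem_filter _ hp)
      have h3 : (0 : ℝ) < p - 1 := by linarith
      positivity
    · intro p hp _
      have h1 := one_lt_of_mem_pr hp
      have h3 : (0 : ℝ) < p - 1 := by linarith
      have : 0 < 4 / ((p : ℝ) - 1) := by positivity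
      linarith
  refine h0.trans ?_
  unfold M
  rw [← Finset.prod_pow]
  apply Finset.prod_le_prod
  · intro p hp
    have h1 := one_lt_of_mem_pr hp
    have h3 : (0 : ℝ) < p - 1 := by linarith
    positivity
  · intro p hp
    have h1 := one_lt_of_mem_pr hp
    have h3 : (0 : ℝ) < p - 1 := by linarith
    have h4 : 0 < 1 / ((p : ℝ) - 1) := by positivity
    have h5 : 4 / ((p : ℝ) - 1) = 4 * (1 / ((p : ℝ) - 1)) := by ring
    rw [h5]
    generalize 1 / ((p : ℝ) - 1) = x at h4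
    nlinarith [sq_nonneg x, mul_pos h4 h4, mul_pos (mul_pos h4 h4) h4,
      mul_pos (mul_pos h4 h4) (mul_pos h4 h4)]

end Pool.Agent.Helper11.Sq
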