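import Mathlib

/-!
# Grouping fractions by their reduced denominators
-/

set_option autoImplicit false

namespace Pool.Agent.Helper11.Sq

open Finset

/-- fractions with denominator `d` grouped by reduced denominators -/
lemma group_one (d : ℕ) (hd : 0 < d) (f : ℕ → ℕ → ℂ)
    (hf : ∀ e q b, 0 < e → f (e * q) (e * b) = f q b) :
    ∑ b ∈ Ico 1 d, f d b =
      ∑ q ∈ (Icc 2 d).filter (fun q => q ∣ d), ∑ b ∈ (Ico 1 q).filter (fun b => b.Coprime q), f q b := by
  classical
  have hmaps : ∀ b ∈ Ico 1 d, d / Nat.gcd b d ∈ (Icc 2 d).filter (fun q => q ∣ d) := by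
    intro b hb
    rw [mem_Ico] at hb
    have hg : Nat.gcd b d ∣ d := Nat.gcd_dvd_right _ _
    have hg0 : 0 < Nat.gcd b d := Nat.gcd_pos_of_pos_right _ hd
    have hgb : Nat.gcd b d ≤ b := Nat.le_of_dvd (by omega) (Nat.gcd_dvd_left _ _)
    rw [mem_filter, mem_Icc]
    refine ⟨⟨?_, Nat.div_le_self _ _⟩, Nat.div_dvd_of_dvd hg⟩
    rw [Nat.le_div_iff_mul_le hg0]
    obtain ⟨k, hk⟩ := hg
    have hk2 : 2 ≤ k := by
      by_contra hcon
      have : k = 0 ∨ k = 1 := by omega
      rcases this with h | h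
      · rw [h, mul_zero] at hk; omega
      · rw [h, mul_one] at hk; omega
    calc 2 * Nat.gcd b d ≤ k * Nat.gcd b d := Nat.mul_le_mul_right _ hk2
      _ = Nat.gcd b d * k := mul_comm _ _
      _ = d := hk.symm
  rw [← Finset.sum_fiberwise_of_maps_to hmaps]
  apply Finset.sum_congr rfl
  intro q hq
  rw [mem_filter, mem_Icc] at hq
  obtain ⟨⟨hq2, hqd⟩, e, he⟩ := hq
  have he0 : 0 < e := by
    rcases Nat.eq_zero_or_pos e with h | h
    · rw [h, mul_zero] at he; omega
    · exact h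
  symm
  apply Finset.sum_bij' (fun b _ => e * b) (fun b _ => b / e)
  · intro b hb
    rw [mem_filter, mem_Ico] at hb
    rw [mem_filter, mem_Ico]
    refine ⟨⟨?_, ?_⟩, ?_⟩
    · exact Nat.mul_pos he0 (by omega)
    · rw [he, mul_comm q e]
      exact Nat.mul_lt_mul_of_pos_left hb.1.2 he0
    · have : Nat.gcd (e * b) d = e := by
        rw [he, mul_comm q e, Nat.gcd_mul_left, hb.2, mul_one]
      rw [this, he]
      exact Nat.mul_div_cancel _ he0
  · intro b hb
    rw [mem_filter, mem_Ico] at hb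
    obtain ⟨⟨hb1, hbd⟩, hbq⟩ := hb
    have hg0 : 0 < Nat.gcd b d := Nat.gcd_pos_of_pos_right _ hd
    have hge : Nat.gcd b d = e := by
      have h1 : d = q * Nat.gcd b d := by
        rw [← hbq, Nat.div_mul_cancel (Nat.gcd_dvd_right _ _)]
      have h2 : q * Nat.gcd b d = q * e := by rw [← h1, ← he]
      exact Nat.eq_of_mul_eq_mul_left (by omega) h2
    have heb : e ∣ b := hge ▸ Nat.gcd_dvd_left b d
    obtain ⟨k, rfl⟩ := heb
    rw [Nat.mul_div_cancel_left _ he0, mem_filter, mem_Ico]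
    refine ⟨⟨?_, ?_⟩, ?_⟩
    · rcases Nat.eq_zero_or_pos k with h | h
      · rw [h] at hb1; simp at hb1
      · exact h
    · rw [he, mul_comm q e] at hbd
      exact lt_of_mul_lt_mul_left hbd (Nat.zero_le _)
    · rw [he, mul_comm q e, Nat.gcd_mul_left] at hge
      exact Nat.eq_of_mul_eq_mul_left he0 (by rw [hge, mul_one])
  · intro b _
    exact Nat.mul_div_cancel_left _ he0
  · intro b hb
    rw [mem_filter, mem_Ico] at hb
    obtain ⟨⟨hb1, hbd⟩, hbq⟩ := hb
    have hge : Nat.gcd b d = e := by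
      have h1 : d = q * Nat.gcd b d := by
        rw [← hbq, Nat.div_mul_cancel (Nat.gcd_dvd_right _ _)]
      have h2 : q * Nat.gcd b d = q * e := by rw [← h1, ← he]
      exact Nat.eq_of_mul_eq_mul_left (by omega) h2
    have heb : e ∣ b := hge ▸ Nat.gcd_dvd_left b d
    exact Nat.mul_div_cancel' heb
  · intro b _
    rw [he, mul_comm q e, hf e q b he0]

/-- the grouped form of a sum over all fractions -/
lemma group_all (z : ℕ) (g : ℕ → ℂ) (f : ℕ → ℕ → ℂ)
    (hf : ∀ e q b, 0 < e → f (e * q) (e * b) = f q b) :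
    ∑ d ∈ Icc 1 z, g d * ∑ b ∈ Ico 1 d, f d b =
      ∑ q ∈ Icc 2 z, (∑ d ∈ (Icc 1 z).filter (fun d => q ∣ d), g d) *
        ∑ b ∈ (Ico 1 q).filter (fun b => b.Coprime q), f q b := by
  classical
  have h1 : ∀ d ∈ Icc 1 z, g d * ∑ b ∈ Ico 1 d, f d b =
      ∑ q ∈ Icc 2 z, if q ∣ d then g d * ∑ b ∈ (Ico 1 q).filter (fun b => b.Coprime q), f q b
        else 0 := by
    intro d hd
    rw [mem_Icc] at hd
    rw [group_one d (by omega) f hf, Finset.mul_sum, ← Finset.sum_filter]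
    apply Finset.sum_congr _ (fun _ _ => rfl)
    ext q
    simp only [mem_filter, mem_Icc]
    constructor
    · rintro ⟨⟨h1, h2⟩, h3⟩
      exact ⟨⟨h1, h2.trans hd.2⟩, h3⟩
    · rintro ⟨⟨h1, h2⟩, h3⟩
      exact ⟨⟨h1, Nat.le_of_dvd (by omega) h3⟩, h3⟩
  rw [Finset.sum_congr rfl h1, Finset.sum_comm]
  apply Finset.sum_congr rfl
  intro q _
  rw [← Finset.sum_filter, Finset.sum_mul]

end Pool.Agent.Helper11.Sq
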