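import Pool.Agent.Helper11.Sq.Param
import Pool.Agent.Helper11.Sq.Cases

/-!
# Density one
-/

set_option autoImplicit false

namespace Pool.Agent.Helper11.Sq

open Finset Filter Topology

open Classical in
/-- counting function of a set -/
noncomputable def cnt (A : ℕ → Prop) (N : ℕ) : ℕ := #((range N).filter A)

/-- from residue classes to all integers -/
lemma cnt_le {α β : ℕ} (hα : α ∣ 14) (hβ : β ∣ 8) (A : ℕ → Prop)
    (hA : ∀ n, A n → ∀ k, Odd k → ¬ 7 ∣ k → β * k ^ 4 < α * n →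
      chi (α * n - β * k ^ 4) = 1 ∧ ∑ d ∈ (α * n - β * k ^ 4).divisors, chi d = 0)
    {κ : ℝ} (hκ : 0 < κ) : ∃ C : ℝ, ∀ N : ℕ, (cnt A N : ℝ) ≤ 2 * κ * N + C := by
  classical
  obtain ⟨L0, hL0, hL⟩ := exists_L0
  obtain ⟨w, ε, hw, hε, hε4, hpar⟩ := exists_param hL0 hκ
  have h1 : ∀ a : ℕ, ∃ C : ℝ, ∀ U : ℕ, (badCount α β (PP w) a 0 U : ℝ) ≤ 2 * κ * U + C :=
    fun a => class_total (mkData (a := a) hα hβ hw hL0 hL) hε hε4 hpar hκ
  choose C hC using h1
  set P := PP w with hP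
  have hP0 : 0 < P := PP_pos w
  refine ⟨∑ a ∈ range P, (2 * κ + C a), ?_⟩
  intro N
  have h2 : cnt A N ≤ ∑ a ∈ range P, badCount α β P a 0 (N / P + 1) := by
    unfold cnt badCount
    have hsub : (range N).filter A ⊆ (range P).biUnion (fun a =>
        ((Ico 0 (N / P + 1)).filter (fun u => BadU α β P a u)).image (fun u => a + P * u)) := by
      intro n hn
      rw [mem_filter, mem_range] at hn
      simp only [mem_biUnion, mem_image, mem_filter, mem_range, mem_Ico]
      refine ⟨n % P, Nat.mod_lt _ hP0, n / P, ⟨⟨Nat.zero_le _, ?_⟩, ?_⟩, Nat.mod_add_div n P⟩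
      · exact Nat.lt_succ_of_le (Nat.div_le_div_right hn.1.le)
      · unfold BadU
        rw [Nat.mod_add_div n P]
        exact hA n hn.2
    refine (Finset.card_le_card hsub).trans (Finset.card_biUnion_le.trans ?_)
    apply Finset.sum_le_sum
    intro a _
    exact Finset.card_image_le
  have h3 : (cnt A N : ℝ) ≤ ∑ a ∈ range P, (badCount α β P a 0 (N / P + 1) : ℝ) := by
    exact_mod_cast h2
  refine h3.trans ?_
  have h4 : ∀ a ∈ range P, (badCount α β P a 0 (N / P + 1) : ℝ) ≤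
      2 * κ * ((N : ℝ) / P) + (2 * κ + C a) := by
    intro a _
    have h5 := hC a (N / P + 1)
    push_cast at h5
    have h6 : ((N / P : ℕ) : ℝ) ≤ (N : ℝ) / P := Nat.cast_div_le
    have h7 : 2 * κ * ((N / P : ℕ) : ℝ) ≤ 2 * κ * ((N : ℝ) / P) := by gcongr
    linarith
  refine (Finset.sum_le_sum h4).trans (le_of_eq ?_)
  rw [Finset.sum_add_distrib, Finset.sum_const, card_range, nsmul_eq_mul]
  have hP1 : (P : ℝ) ≠ 0 := by exact_mod_cast hP0.ne'
  field_simp

/-- the numbers which are not sums of three squares -/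
def E : Set ℕ := {n | ∃ k l : ℕ, n = 4 ^ k * (8 * l + 7)}

/-- the exceptions -/
def Exc (n : ℕ) : Prop := n ∉ E ∧ ¬ Good n

lemma cnt_mono {A B : ℕ → Prop} (h : ∀ n, A n → B n) (N : ℕ) : cnt A N ≤ cnt B N := by
  classical
  unfold cnt
  apply Finset.card_le_card
  intro n hn
  rw [mem_filter] at hn ⊢
  exact ⟨hn.1, h n hn.2⟩

lemma good_zero : Good 0 := ⟨0, 0, 0, by norm_num, 0, Or.inl (by norm_num)⟩

lemma cnt_rec (A B D : ℕ → Prop) (h : ∀ n, D n → A n ∨ B n ∨ ∃ m, n = 4 * m ∧ D m) (N : ℕ) :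
    cnt D N ≤ cnt A N + (cnt B N + cnt D (N / 4 + 1)) := by
  classical
  unfold cnt
  have hsub : (range N).filter D ⊆ (range N).filter A ∪ ((range N).filter B ∪
        ((range (N / 4 + 1)).filter D).image (fun m => 4 * m)) := by
    intro n hn
    rw [mem_filter, mem_range] at hn
    simp only [mem_union, mem_filter, mem_range, mem_image]
    rcases h n hn.2 with h | h | ⟨m, hm, hD⟩
    · exact Or.inl ⟨hn.1, h⟩
    · exact Or.inr (Or.inl ⟨hn.1, h⟩)
    · exact Or.inr (Or.inr ⟨m, ⟨by omega, hD⟩, hm.symm⟩)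
  refine (Finset.card_le_card hsub).trans ((Finset.card_union_le _ _).trans ?_)
  apply Nat.add_le_add_left
  refine (Finset.card_union_le _ _).trans ?_
  apply Nat.add_le_add_left
  exact Finset.card_image_le

/-- the recursion -/
lemma cnt_exc (N : ℕ) : cnt Exc N ≤
    cnt (fun n => (n % 8 = 1 ∨ n % 8 = 2 ∨ n % 8 = 5 ∨ n % 8 = 6) ∧ ¬ Good n) N +
    (cnt (fun n => n % 8 = 3 ∧ ¬ Good n) N + cnt Exc (N / 4 + 1)) := by
  apply cnt_rec
  rintro n ⟨hE, hG⟩
  have h7 : n % 8 ≠ 7 := by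
    intro h
    apply hE
    exact ⟨0, n / 8, by omega⟩
  by_cases h4 : n % 4 = 0
  · right; right
    refine ⟨n / 4, by omega, ?_, ?_⟩
    · rintro ⟨k, l, hkl⟩
      apply hE
      refine ⟨k + 1, l, ?_⟩
      have : n = 4 * (n / 4) := by omega
      rw [this, hkl, pow_succ]
      ring
    · intro hg
      apply hG
      have : n = 4 * (n / 4) := by omega
      rw [this]
      exact hg.four
  · by_cases h3 : n % 8 = 3
    · exact Or.inr (Or.inl ⟨h3, hG⟩)
    · left
      refine ⟨?_, hG⟩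
      omega

theorem exc_density {κ : ℝ} (hκ : 0 < κ) : ∃ C : ℝ, ∀ N : ℕ, (cnt Exc N : ℝ) ≤ κ * N + C := by
  obtain ⟨C₁, hC₁⟩ := cnt_le (α := 14) (β := 1) (by norm_num) (by norm_num)
    (fun n => (n % 8 = 1 ∨ n % 8 = 2 ∨ n % 8 = 5 ∨ n % 8 = 6) ∧ ¬ Good n)
    (by
      rintro n ⟨hn, hG⟩ k hk h7 hlt
      refine ⟨caseA_chi hn hk h7 hlt, ?_⟩
      by_contra hcon
      exact hG (caseA_good hn hk h7 hlt hcon)) (κ := κ / 16) (by positivity)
  obtain ⟨C₂, hC₂⟩ := cnt_le (α := 7) (β := 8) (by norm_num) (by norm_num)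
    (fun n => n % 8 = 3 ∧ ¬ Good n)
    (by
      rintro n ⟨hn, hG⟩ k hk h7 hlt
      refine ⟨caseB_chi hn h7 hlt, ?_⟩
      by_contra hcon
      exact hG (caseB_good hn h7 hlt hcon)) (κ := κ / 16) (by positivity)
  obtain ⟨N₁, hN₁⟩ := exists_nat_ge ((κ + |C₁| + |C₂|) * 2 / κ + 4)
  refine ⟨N₁, ?_⟩
  intro N
  induction N using Nat.strong_induction_on with
  | _ N ih =>
    by_cases hN : N < N₁
    · have h1 : (cnt Exc N : ℝ) ≤ N := by
        have : cnt Exc N ≤ N := by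
          classical
          unfold cnt
          refine (Finset.card_filter_le _ _).trans ?_
          simp
        exact_mod_cast this
      have h2 : (N : ℝ) ≤ N₁ := by exact_mod_cast hN.le
      have h3 : 0 ≤ κ * (N : ℝ) := by positivity
      linarith
    · push Not at hN
      have hNr : (κ + |C₁| + |C₂|) * 2 / κ + 4 ≤ (N : ℝ) := hN₁.trans (by exact_mod_cast hN)
      have hpos : 0 ≤ (κ + |C₁| + |C₂|) * 2 / κ := by positivity
      have hN4 : 4 ≤ N := by
        have : (4 : ℝ) ≤ N := by linarith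
        exact_mod_cast this
      have h1 := ih (N / 4 + 1) (by omega)
      have h2 := cnt_exc N
      have h3 : (cnt Exc N : ℝ) ≤
        cnt (fun n => (n % 8 = 1 ∨ n % 8 = 2 ∨ n % 8 = 5 ∨ n % 8 = 6) ∧ ¬ Good n) N +
        (cnt (fun n => n % 8 = 3 ∧ ¬ Good n) N + cnt Exc (N / 4 + 1)) := by exact_mod_cast h2
      have h4 := hC₁ N
      have h5 := hC₂ N
      push_cast at h1
      have h6 : ((N / 4 : ℕ) : ℝ) ≤ (N : ℝ) / 4 := by
        have := Nat.cast_div_le (α := ℝ) (m := N) (n := 4)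
        simpa using this
      have h7 : κ * (((N / 4 : ℕ) : ℝ) + 1) ≤ κ * ((N : ℝ) / 4 + 1) := by gcongr
      have h8 : κ + |C₁| + |C₂| ≤ κ * (N : ℝ) / 2 := by
        have h9 : (κ + |C₁| + |C₂|) * 2 / κ ≤ (N : ℝ) := by linarith
        rw [div_le_iff₀ hκ] at h9
        linarith
      have h10 := le_abs_self C₁
      have h11 := le_abs_self C₂
      nlinarith

/-- **Density one**: the set of exceptions has natural density zero. -/
theorem density_one : Tendsto (fun N : ℕ => (cnt Exc N : ℝ) / N) atTop (𝓝 0) := by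
  rw [Metric.tendsto_atTop]
  intro ε hε
  obtain ⟨C, hC⟩ := exc_density (κ := ε / 2) (by positivity)
  obtain ⟨N₁, hN₁⟩ := exists_nat_ge (|C| * 2 / ε + 1)
  refine ⟨N₁, ?_⟩
  intro N hN
  have hNr : |C| * 2 / ε + 1 ≤ (N : ℝ) := hN₁.trans (by exact_mod_cast hN)
  have hpos : 0 ≤ |C| * 2 / ε := by positivity
  have hN0 : (0 : ℝ) < N := by linarith
  rw [Real.dist_eq, sub_zero, abs_of_nonneg (by positivity), div_lt_iff₀ hN0]
  have h1 := hC N
  have h2 := le_abs_self C
  have h3 : |C| * 2 / ε < N := by linarith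
  rw [div_lt_iff₀ hε] at h3
  linarith

end Pool.Agent.Helper11.Sq
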