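import Pool.Agent.Helper11.Sq.Chi

/-!
# The sums `∑ χ(d) / d`
-/

set_option autoImplicit false

namespace Pool.Agent.Helper11.Sq

open Finset Filter Topology

/-- `∑_{d ≤ y, (d, P) = 1} χ(d) / d` -/
noncomputable def Lam (P y : ℕ) : ℝ :=
  ∑ d ∈ (Icc 1 y).filter (fun d => d.Coprime P), (chi d : ℝ) / d

lemma Lam_one (y : ℕ) : Lam 1 y = ∑ d ∈ range y, (chi (d + 1) : ℝ) / ((d : ℝ) + 1) := by
  unfold Lam
  rw [Finset.filter_true_of_mem (fun d _ => Nat.coprime_one_right d)]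
  have h := Finset.sum_Ico_add' (fun d : ℕ => (chi d : ℝ) / (d : ℝ)) 0 y 1
  have e : Icc 1 y = Ico (0 + 1) (y + 1) := by ext d; simp only [mem_Icc, mem_Ico]; omega
  rw [Finset.range_eq_Ico, e, ← h]
  refine Finset.sum_congr rfl fun d _ => ?_
  push_cast
  rfl

/-- Abel summation -/
noncomputable def G (y : ℕ) : ℝ :=
  ∑ d ∈ range y, (S (d + 1) : ℝ) * (1 / ((d : ℝ) + 1) - 1 / ((d : ℝ) + 2))

lemma Lam_one_eq (y : ℕ) : Lam 1 y = G y + (S y : ℝ) / ((y : ℝ) + 1) := by
  rw [Lam_one]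
  unfold G
  induction y with
  | zero => simp [S]
  | succ y ih =>
    rw [Finset.sum_range_succ, ih, Finset.sum_range_succ]
    have h2 : (S (y + 1) : ℝ) = S y + chi (y + 1) := by
      unfold S
      rw [Finset.sum_range_succ]
      push_cast
      rfl
    rw [h2]
    have h3 : ((y : ℝ) + 1) ≠ 0 := by positivity
    have h4 : ((y : ℝ) + 2) ≠ 0 := by positivity
    push_cast
    have h5 : ((y : ℝ) + 1 + 1) = (y : ℝ) + 2 := by ring
    rw [h5]
    field_simp
    ring

lemma S_nonneg (n : ℕ) : (0 : ℝ) ≤ S n := by exact_mod_cast (S_bounds n).1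
lemma S_le (n : ℕ) : (S n : ℝ) ≤ 8 := by exact_mod_cast (S_bounds n).2

lemma G_term_nonneg (d : ℕ) : 0 ≤ 1 / ((d : ℝ) + 1) - 1 / ((d : ℝ) + 2) := by
  rw [sub_nonneg]
  apply one_div_le_one_div_of_le (by positivity)
  linarith

lemma G_mono : Monotone G := by
  apply monotone_nat_of_le_succ
  intro n
  unfold G
  rw [Finset.sum_range_succ]
  have := mul_nonneg (S_nonneg (n + 1)) (G_term_nonneg n)
  linarith

lemma G_le (y : ℕ) : G y ≤ 8 * (1 - 1 / ((y : ℝ) + 1)) := by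
  unfold G
  induction y with
  | zero => simp
  | succ y ih =>
    rw [Finset.sum_range_succ]
    have h1 : (S (y + 1) : ℝ) * (1 / ((y : ℝ) + 1) - 1 / ((y : ℝ) + 2)) ≤
        8 * (1 / ((y : ℝ) + 1) - 1 / ((y : ℝ) + 2)) :=
      mul_le_mul_of_nonneg_right (S_le _) (G_term_nonneg y)
    push_cast
    have h5 : ((y : ℝ) + 1 + 1) = (y : ℝ) + 2 := by ring
    rw [h5]
    linarith

lemma G_zero : G 0 = 0 := by simp [G]

lemma G_nonneg (y : ℕ) : 0 ≤ G y := by
  have := G_mono (Nat.zero_le y)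
  rwa [G_zero] at this

lemma abs_Lam_one_le (y : ℕ) : |Lam 1 y| ≤ 8 := by
  rw [Lam_one_eq]
  have h1 := G_le y
  have h2 := G_nonneg y
  have h3 : (S y : ℝ) / ((y : ℝ) + 1) ≤ 8 / ((y : ℝ) + 1) := by
    gcongr
    exact S_le y
  have h4 : 0 ≤ (S y : ℝ) / ((y : ℝ) + 1) := div_nonneg (S_nonneg y) (by positivity)
  rw [abs_of_nonneg (by linarith)]
  have h5 : 8 * (1 - 1 / ((y : ℝ) + 1)) + 8 / ((y : ℝ) + 1) = 8 := by ring
  linarith

/-- the limit exists and is positive -/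
lemma exists_L0 : ∃ L0 : ℝ, 0 < L0 ∧ Tendsto (fun y => Lam 1 y) atTop (𝓝 L0) := by
  have hbdd : BddAbove (Set.range G) := by
    refine ⟨8, ?_⟩
    rintro _ ⟨y, rfl⟩
    refine (G_le y).trans ?_
    have : 0 ≤ 1 / ((y : ℝ) + 1) := by positivity
    linarith
  have h1 := tendsto_atTop_ciSup G_mono hbdd
  refine ⟨⨆ i, G i, ?_, ?_⟩
  · have h2 : G 1 ≤ ⨆ i, G i := le_ciSup hbdd 1
    have h3 : G 1 = 1 / 2 := by
      unfold G
      rw [Finset.sum_range_one]
      have : S (0 + 1) = 1 := by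
        unfold S
        simp [chi_one]
      rw [this]
      norm_num
    linarith
  · have h2 : Tendsto (fun y : ℕ => (S y : ℝ) / ((y : ℝ) + 1)) atTop (𝓝 0) := by
      apply squeeze_zero (g := fun y : ℕ => 8 * (1 / ((y : ℝ) + 1)))
      · intro y
        exact div_nonneg (S_nonneg y) (by positivity)
      · intro y
        rw [mul_one_div]
        gcongr
        exact S_le y
      · have := (tendsto_one_div_add_atTop_nhds_zero_nat (𝕜 := ℝ)).const_mul 8
        simpa using this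
    have h3 := h1.add h2
    rw [add_zero] at h3
    refine h3.congr ?_
    intro y
    exact (Lam_one_eq y).symm

/-- removing one more prime -/
lemma Lam_mul {P p : ℕ} (hp : p.Prime) (hpP : ¬ p ∣ P) (y : ℕ) :
    Lam (P * p) y = Lam P y - (chi p : ℝ) / p * Lam P (y / p) := by
  unfold Lam
  have h1 : (Icc 1 y).filter (fun d => d.Coprime P) =
      (Icc 1 y).filter (fun d => d.Coprime (P * p)) ∪
      ((Icc 1 (y / p)).filter (fun d => d.Coprime P)).image (fun e => p * e) := by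
    ext d
    simp only [mem_filter, mem_Icc, mem_union, mem_image]
    constructor
    · rintro ⟨⟨h1, h2⟩, h3⟩
      by_cases hpd : p ∣ d
      · right
        obtain ⟨e, rfl⟩ := hpd
        refine ⟨e, ⟨⟨?_, ?_⟩, ?_⟩, rfl⟩
        · rcases Nat.eq_zero_or_pos e with h | h
          · rw [h] at h1; simp at h1
          · exact h
        · rw [Nat.le_div_iff_mul_le hp.pos]
          rwa [mul_comm]
        · exact Nat.Coprime.coprime_mul_left h3
      · left
        refine ⟨⟨h1, h2⟩, ?_⟩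
        exact Nat.Coprime.mul_right h3 ((hp.coprime_iff_not_dvd.2 hpd).symm)
    · rintro (⟨⟨h1, h2⟩, h3⟩ | ⟨e, ⟨⟨h1, h2⟩, h3⟩, rfl⟩)
      · exact ⟨⟨h1, h2⟩, Nat.Coprime.coprime_mul_right_right h3⟩
      · refine ⟨⟨?_, ?_⟩, ?_⟩
        · exact Nat.mul_pos hp.pos h1
        · rw [Nat.le_div_iff_mul_le hp.pos] at h2
          rwa [mul_comm]
        · exact Nat.Coprime.mul_left (hp.coprime_iff_not_dvd.2 hpP) h3
  rw [h1, Finset.sum_union, Finset.sum_image, Finset.mul_sum]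
  · have : ∑ x ∈ (Icc 1 (y / p)).filter (fun d => d.Coprime P),
        (chi (p * x) : ℝ) / ((p * x : ℕ) : ℝ) =
        ∑ i ∈ (Icc 1 (y / p)).filter (fun d => d.Coprime P), (chi p : ℝ) / p * ((chi i : ℝ) / i) := by
      apply Finset.sum_congr rfl
      intro x hx
      have hx0 : x ≠ 0 := by
        simp only [mem_filter, mem_Icc] at hx
        omega
      rw [chi_mul hp.ne_zero hx0]
      push_cast
      rw [div_mul_div_comm]
    rw [this]
    ring
  · intro a _ b _ hab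
    exact Nat.eq_of_mul_eq_mul_left hp.pos hab
  · rw [Finset.disjoint_left]
    intro d hd hd'
    simp only [mem_filter, mem_image] at hd hd'
    obtain ⟨e, _, rfl⟩ := hd'
    have h2 : Nat.Coprime (p * e) p := Nat.Coprime.coprime_mul_left_right hd.2
    have h3 := Nat.Coprime.coprime_mul_right h2
    rw [Nat.coprime_self] at h3
    exact hp.one_lt.ne' h3

/-- uniform bound -/
lemma abs_Lam_le (s : Finset ℕ) (hs : ∀ p ∈ s, p.Prime) (y : ℕ) :
    |Lam (∏ p ∈ s, p) y| ≤ 8 * ∏ p ∈ s, (1 + 1 / (p : ℝ)) := by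
  induction s using Finset.induction_on generalizing y with
  | empty => simpa using abs_Lam_one_le y
  | insert p s hp ih =>
    have hpp := hs p (mem_insert_self _ _)
    have hs' : ∀ q ∈ s, q.Prime := fun q hq => hs q (mem_insert_of_mem hq)
    have hnd : ¬ p ∣ ∏ q ∈ s, q := by
      intro h
      rw [hpp.prime.dvd_finsetProd_iff] at h
      obtain ⟨q, hq, hpq⟩ := h
      rw [(Nat.prime_dvd_prime_iff_eq hpp (hs' q hq)).1 hpq] at hp
      exact hp hq
    rw [Finset.prod_insert hp, mul_comm, Lam_mul hpp hnd, Finset.prod_insert hp]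
    have h1 := ih hs' y
    have h2 := ih hs' (y / p)
    have hp0 : (0 : ℝ) < p := by exact_mod_cast hpp.pos
    have h3 : |(chi p : ℝ) / p * Lam (∏ q ∈ s, q) (y / p)| ≤
        1 / (p : ℝ) * (8 * ∏ q ∈ s, (1 + 1 / (q : ℝ))) := by
      rw [abs_mul, abs_div, abs_of_pos hp0]
      apply mul_le_mul _ h2 (abs_nonneg _) (by positivity)
      gcongr
      exact_mod_cast abs_chi_le p
    have h4 := abs_sub (Lam (∏ q ∈ s, q) y) ((chi p : ℝ) / p * Lam (∏ q ∈ s, q) (y / p))
    calc _ ≤ _ := h4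
      _ ≤ 8 * ∏ q ∈ s, (1 + 1 / (q : ℝ)) + 1 / (p : ℝ) * (8 * ∏ q ∈ s, (1 + 1 / (q : ℝ))) :=
        add_le_add h1 h3
      _ = _ := by ring

/-- the limit of `Lam` -/
lemma tendsto_Lam {L0 : ℝ} (hL : Tendsto (fun y => Lam 1 y) atTop (𝓝 L0)) (s : Finset ℕ)
    (hs : ∀ p ∈ s, p.Prime) :
    Tendsto (fun y => Lam (∏ p ∈ s, p) y) atTop (𝓝 (L0 * ∏ p ∈ s, (1 - (chi p : ℝ) / p))) := by
  induction s using Finset.induction_on with
  | empty => simpa using hL
  | insert p s hp ih =>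
    have hpp := hs p (mem_insert_self _ _)
    have hs' : ∀ q ∈ s, q.Prime := fun q hq => hs q (mem_insert_of_mem hq)
    have hnd : ¬ p ∣ ∏ q ∈ s, q := by
      intro h
      rw [hpp.prime.dvd_finsetProd_iff] at h
      obtain ⟨q, hq, hpq⟩ := h
      rw [(Nat.prime_dvd_prime_iff_eq hpp (hs' q hq)).1 hpq] at hp
      exact hp hq
    have h1 := ih hs'
    have h2 : Tendsto (fun y : ℕ => y / p) atTop atTop := Nat.tendsto_div_const_atTop hpp.ne_zero
    have h3 := h1.sub ((h1.comp h2).const_mul ((chi p : ℝ) / p))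
    rw [Finset.prod_insert (f := fun p => (1 - (chi p : ℝ) / p)) hp]
    have e : L0 * ((1 - (chi p : ℝ) / p) * ∏ q ∈ s, (1 - (chi q : ℝ) / q)) =
        L0 * ∏ q ∈ s, (1 - (chi q : ℝ) / q) -
          (chi p : ℝ) / p * (L0 * ∏ q ∈ s, (1 - (chi q : ℝ) / q)) := by ring
    rw [e]
    refine h3.congr ?_
    intro y
    rw [Finset.prod_insert hp, mul_comm p, Lam_mul hpp hnd]
    rfl

end Pool.Agent.Helper11.Sq
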