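import Pool.Agent.Helper11.Sq.Sums

/-!
# The hyperbola symmetry and the first moment of the divisors near the square root
-/

set_option autoImplicit false

namespace Pool.Agent.Helper11.Sq

open Finset

lemma chi_div {D d : ℕ} (hD : D ≠ 0) (hchi : chi D = 1) (hd : d ∣ D) : chi (D / d) = chi d := by
  obtain ⟨e, rfl⟩ := hd
  have hd0 : d ≠ 0 := by rintro rfl; simp at hD
  have he0 : e ≠ 0 := by rintro rfl; simp at hD
  rw [Nat.mul_div_cancel_left _ (Nat.pos_of_ne_zero hd0)]
  rw [chi_mul hd0 he0] at hchi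
  rcases chi_tri d with h | h | h <;> rcases chi_tri e with h' | h' | h' <;>
    rw [h, h'] at hchi <;> rw [h, h'] <;> norm_num at hchi

/-- hyperbola symmetry -/
lemma hyper {D z : ℕ} (hD : D ≠ 0) (hchi : chi D = 1) (hsum : ∑ d ∈ D.divisors, chi d = 0)
    (hz : D ≤ z ^ 2) :
    ∑ d ∈ (Icc 1 z).filter (fun d => d ∣ D), chi d ≤
      #((Icc 1 z).filter (fun d => d ∣ D ∧ D ≤ d ^ 2)) := by
  classical
  -- split the divisors
  set A := D.divisors.filter (fun d => d ^ 2 < D) with hA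
  set C := D.divisors.filter (fun d => D < d ^ 2) with hC
  set E := D.divisors.filter (fun d => d ^ 2 = D) with hE
  have hAC : ∑ d ∈ A, chi d = ∑ d ∈ C, chi d := by
    apply Finset.sum_bij' (fun d _ => D / d) (fun d _ => D / d)
    · intro d hd
      rw [hA, mem_filter, Nat.mem_divisors] at hd
      rw [hC, mem_filter, Nat.mem_divisors]
      obtain ⟨⟨⟨e, rfl⟩, _⟩, h2⟩ := hd
      have hd0 : 0 < d := Nat.pos_of_ne_zero (by rintro rfl; simp at hD)
      rw [Nat.mul_div_cancel_left _ hd0]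
      refine ⟨⟨dvd_mul_left _ _, hD⟩, ?_⟩
      have hde : d < e := by
        rw [sq] at h2
        exact lt_of_mul_lt_mul_left h2 (Nat.zero_le _)
      rw [sq]
      exact Nat.mul_lt_mul_of_pos_right hde (by omega)
    · intro d hd
      rw [hC, mem_filter, Nat.mem_divisors] at hd
      rw [hA, mem_filter, Nat.mem_divisors]
      obtain ⟨⟨⟨e, rfl⟩, _⟩, h2⟩ := hd
      have hd0 : 0 < d := Nat.pos_of_ne_zero (by rintro rfl; simp at hD)
      have he0 : 0 < e := Nat.pos_of_ne_zero (by rintro rfl; simp at hD)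
      rw [Nat.mul_div_cancel_left _ hd0]
      refine ⟨⟨dvd_mul_left _ _, hD⟩, ?_⟩
      have hde : e < d := by
        rw [sq] at h2
        exact lt_of_mul_lt_mul_left h2 (Nat.zero_le _)
      rw [sq]
      exact Nat.mul_lt_mul_of_pos_right hde he0
    · intro d hd
      rw [hA, mem_filter, Nat.mem_divisors] at hd
      exact Nat.div_div_self hd.1.1 hD
    · intro d hd
      rw [hC, mem_filter, Nat.mem_divisors] at hd
      exact Nat.div_div_self hd.1.1 hD
    · intro d hd
      rw [hA, mem_filter, Nat.mem_divisors] at hd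
      exact (chi_div hD hchi hd.1.1).symm
  have htot : ∑ d ∈ D.divisors, chi d = ∑ d ∈ A, chi d + ∑ d ∈ E, chi d + ∑ d ∈ C, chi d := by
    rw [hA, hE, hC, Finset.sum_filter, Finset.sum_filter, Finset.sum_filter,
      ← Finset.sum_add_distrib, ← Finset.sum_add_distrib]
    apply Finset.sum_congr rfl
    intro d _
    rcases lt_trichotomy (d ^ 2) D with h | h | h
    · rw [if_pos h, if_neg (by omega), if_neg (by omega)]; ring
    · rw [if_neg (by omega), if_pos h, if_neg (by omega)]; ring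
    · rw [if_neg (by omega), if_neg (by omega), if_pos h]; ring
  set C' := (Icc 1 z).filter (fun d => d ∣ D ∧ D < d ^ 2) with hC'
  have hS : ∑ d ∈ (Icc 1 z).filter (fun d => d ∣ D), chi d =
      ∑ d ∈ A, chi d + ∑ d ∈ E, chi d + ∑ d ∈ C', chi d := by
    have h1 : (Icc 1 z).filter (fun d => d ∣ D) = (A ∪ E) ∪ C' := by
      ext d
      simp only [hA, hE, hC', mem_filter, mem_Icc, mem_union, Nat.mem_divisors]
      constructor
      · rintro ⟨⟨h1, h2⟩, h3⟩
        rcases lt_trichotomy (d ^ 2) D with h | h | h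
        · exact Or.inl (Or.inl ⟨⟨h3, hD⟩, h⟩)
        · exact Or.inl (Or.inr ⟨⟨h3, hD⟩, h⟩)
        · exact Or.inr ⟨⟨h1, h2⟩, h3, h⟩
      · rintro ((⟨⟨h1, _⟩, h3⟩ | ⟨⟨h1, _⟩, h3⟩) | ⟨h1, h2, h3⟩)
        · refine ⟨⟨Nat.pos_of_ne_zero (by rintro rfl; simp at h1; exact hD h1), ?_⟩, h1⟩
          have : d ^ 2 ≤ z ^ 2 := by omega
          exact (Nat.pow_le_pow_iff_left (by norm_num)).1 this
        · refine ⟨⟨Nat.pos_of_ne_zero (by rintro rfl; simp at h1; exact hD h1), ?_⟩, h1⟩
          have : d ^ 2 ≤ z ^ 2 := by omega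
          exact (Nat.pow_le_pow_iff_left (by norm_num)).1 this
        · exact ⟨h1, h2⟩
    rw [h1, Finset.sum_union, Finset.sum_union]
    · rw [Finset.disjoint_left]
      intro d h2 h3
      rw [hA, mem_filter] at h2
      rw [hE, mem_filter] at h3
      omega
    · rw [Finset.disjoint_left]
      intro d h2 h3
      rw [hC', mem_filter] at h3
      rw [mem_union, hA, hE, mem_filter, mem_filter] at h2
      omega
  have hcard : #((Icc 1 z).filter (fun d => d ∣ D ∧ D ≤ d ^ 2)) = #E + #C' := by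
    rw [← Finset.card_union_of_disjoint]
    · congr 1
      ext d
      simp only [hE, hC', mem_filter, mem_Icc, mem_union, Nat.mem_divisors]
      constructor
      · rintro ⟨⟨h1, h2⟩, h3, h4⟩
        rcases h4.lt_or_eq with h | h
        · exact Or.inr ⟨⟨h1, h2⟩, h3, h⟩
        · exact Or.inl ⟨⟨h3, hD⟩, h.symm⟩
      · rintro (⟨⟨h1, _⟩, h3⟩ | ⟨h1, h2, h3⟩)
        · refine ⟨⟨Nat.pos_of_ne_zero (by rintro rfl; simp at h1; exact hD h1), ?_⟩, h1, by omega⟩
          have : d ^ 2 ≤ z ^ 2 := by omega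
          exact (Nat.pow_le_pow_iff_left (by norm_num)).1 this
        · exact ⟨h1, h2, h3.le⟩
    · rw [Finset.disjoint_left]
      intro d h2 h3
      rw [hE, mem_filter] at h2
      rw [hC', mem_filter] at h3
      omega
  have hEle : ∑ d ∈ E, chi d ≤ #E := by
    have : ∑ d ∈ E, chi d ≤ ∑ d ∈ E, 1 :=
      Finset.sum_le_sum fun d _ => (le_abs_self _).trans (abs_chi_le d)
    simpa using this
  have hCle : ∑ d ∈ C', chi d ≤ #C' := by
    have : ∑ d ∈ C', chi d ≤ ∑ d ∈ C', 1 :=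
      Finset.sum_le_sum fun d _ => (le_abs_self _).trans (abs_chi_le d)
    simpa using this
  rw [htot] at hsum
  rw [hcard, hS]
  have hE0 : (0 : ℤ) ≤ #E := by positivity
  push_cast
  omega

/-- elements of an interval which are congruent modulo `d` -/
lemma card_cong_le {U₁ U d : ℕ} (s : Finset ℕ) (hs : s ⊆ Ico U₁ U)
    (hc : ∀ u ∈ s, ∀ v ∈ s, u ≡ v [MOD d]) : #s ≤ (U - U₁) / d + 1 := by
  rw [← Finset.card_range ((U - U₁) / d + 1)]
  apply Finset.card_le_card_of_injOn (fun u => (u - U₁) / d)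
  · intro u hu
    have h1 := hs hu
    rw [mem_Ico] at h1
    rw [mem_coe, mem_range]
    apply Nat.lt_succ_of_le
    exact Nat.div_le_div_right (by omega)
  · intro u hu v hv huv
    have h1 := hs hu
    have h2 := hs hv
    rw [mem_Ico] at h1 h2
    have h3 := hc u hu v hv
    have h4 : u - U₁ ≡ v - U₁ [MOD d] := by
      apply Nat.ModEq.add_right_cancel' U₁
      rw [Nat.sub_add_cancel h1.1, Nat.sub_add_cancel h2.1]
      exact h3
    simp only at huv
    have h5 : u - U₁ = v - U₁ := by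
      rw [← Nat.div_add_mod (u - U₁) d, ← Nat.div_add_mod (v - U₁) d, huv, h4]
    omega

/-- the number of divisors between `y` and `z` -/
noncomputable def V (α β k₀ P a J y z u : ℕ) : ℕ :=
  ∑ j ∈ range J, #((Icc y z).filter (fun d : ℕ => d.Coprime P ∧ (d : ℤ) ∣ mm α β k₀ P a j u))

/-- first moment of `V` -/
lemma V_sum_le {α β k₀ P a J y z U₁ U : ℕ} (hα : ∀ q : ℕ, q.Coprime P → q.Coprime α)
    (hy : 1 ≤ y) :
    ∑ u ∈ Ico U₁ U, V α β k₀ P a J y z u ≤ J * ((z + 1 - y) * ((U - U₁) / y + 1)) := by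
  classical
  unfold V
  rw [Finset.sum_comm]
  have h1 : ∀ j ∈ range J, ∑ u ∈ Ico U₁ U,
      #((Icc y z).filter (fun d : ℕ => d.Coprime P ∧ (d : ℤ) ∣ mm α β k₀ P a j u)) ≤
      (z + 1 - y) * ((U - U₁) / y + 1) := by
    intro j _
    have h2 : ∑ u ∈ Ico U₁ U,
        #((Icc y z).filter (fun d : ℕ => d.Coprime P ∧ (d : ℤ) ∣ mm α β k₀ P a j u)) =
        ∑ d ∈ Icc y z, #((Ico U₁ U).filter
          (fun u => d.Coprime P ∧ (d : ℤ) ∣ mm α β k₀ P a j u)) := by
      simp only [Finset.card_filter]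
      rw [Finset.sum_comm]
    rw [h2]
    have h3 : ∀ d ∈ Icc y z, #((Ico U₁ U).filter
          (fun u => d.Coprime P ∧ (d : ℤ) ∣ mm α β k₀ P a j u)) ≤ (U - U₁) / y + 1 := by
      intro d hd
      rw [mem_Icc] at hd
      have hd0 : 0 < d := by omega
      refine (card_cong_le (d := d) _ (Finset.filter_subset _ _) ?_).trans ?_
      · intro u hu v hv
        rw [mem_filter] at hu hv
        have h4 : (d : ℤ) ∣ ((α * P : ℕ) : ℤ) * ((v : ℤ) - u) := by
          have := dvd_sub hv.2.2 hu.2.2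
          have e : mm α β k₀ P a j v - mm α β k₀ P a j u =
              ((α * P : ℕ) : ℤ) * ((v : ℤ) - u) := by
            unfold mm; push_cast; ring
          rwa [e] at this
        have hc : IsCoprime (d : ℤ) ((α * P : ℕ) : ℤ) :=
          Nat.isCoprime_iff_coprime.2 (Nat.Coprime.mul_right (hα d hu.2.1) hu.2.1)
        exact (Nat.modEq_iff_dvd).2 (hc.dvd_of_dvd_mul_left h4)
      · have := Nat.div_le_div_left (a := U - U₁) hd.1 (by omega)
        omega
    refine (Finset.sum_le_card_nsmul _ _ _ h3).trans ?_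
    rw [Nat.card_Icc, smul_eq_mul]
  refine (Finset.sum_le_card_nsmul _ _ _ h1).trans ?_
  rw [card_range, smul_eq_mul]

/-- nothing works for `n = a + P u` -/
def BadU (α β P a u : ℕ) : Prop :=
  ∀ k, Odd k → ¬ 7 ∣ k → β * k ^ 4 < α * (a + P * u) →
    chi (α * (a + P * u) - β * k ^ 4) = 1 ∧
      ∑ d ∈ (α * (a + P * u) - β * k ^ 4).divisors, chi d = 0

/-- the basic inequality for a bad `u` -/
lemma bad_ineq {α β k₀ P a J y z u : ℕ}
    (hk : ∀ j, Odd (k₀ + P * j) ∧ ¬ 7 ∣ (k₀ + P * j))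
    (hlt : ∀ j < J, F β k₀ P j < α * (a + P * u))
    (hcop : ∀ j < J, (α * (a + P * u) - F β k₀ P j).Coprime P)
    (hy : ∀ j < J, y ^ 2 ≤ α * (a + P * u) - F β k₀ P j)
    (hz : α * (a + P * u) ≤ z ^ 2) (hbad : BadU α β P a u) :
    J * Lam P z + T α β k₀ P a J z u ≤ V α β k₀ P a J y z u := by
  classical
  have h1 : J * Lam P z + T α β k₀ P a J z u =
      ∑ j ∈ range J, ((∑ d ∈ (Icc 1 z).filter (fun d => d ∣ α * (a + P * u) - F β k₀ P j), chi d : ℤ)
        : ℝ) := by
    unfold T Lam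
    have h2 : (J : ℝ) * ∑ d ∈ (Icc 1 z).filter (fun d => d.Coprime P), (chi d : ℝ) / d =
        ∑ j ∈ range J, ∑ d ∈ (Icc 1 z).filter (fun d => d.Coprime P), (chi d : ℝ) / d := by
      rw [Finset.sum_const, card_range, nsmul_eq_mul]
    rw [h2, ← Finset.sum_add_distrib]
    apply Finset.sum_congr rfl
    intro j hj
    rw [mem_range] at hj
    rw [← Finset.sum_add_distrib]
    push_cast
    rw [Finset.sum_filter, Finset.sum_filter]
    apply Finset.sum_congr rfl
    intro d hd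
    rw [mem_Icc] at hd
    have hmm : mm α β k₀ P a j u = ((α * (a + P * u) - F β k₀ P j : ℕ) : ℤ) := by
      unfold mm
      rw [Nat.cast_sub (hlt j hj).le]
      push_cast
      ring
    have hdv : (d : ℤ) ∣ mm α β k₀ P a j u ↔ d ∣ α * (a + P * u) - F β k₀ P j := by
      rw [hmm]
      exact Int.natCast_dvd_natCast
    by_cases h3 : d ∣ α * (a + P * u) - F β k₀ P j
    · have h4 : d.Coprime P := Nat.Coprime.coprime_dvd_left h3 (hcop j hj)
      rw [if_pos h4, if_pos h3, if_pos (hdv.2 h3)]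
      ring
    · rw [if_neg h3]
      by_cases h4 : d.Coprime P
      · rw [if_pos h4, if_neg (fun h => h3 (hdv.1 h))]
        ring
      · rw [if_neg h4]
  rw [h1]
  unfold V
  push_cast
  apply Finset.sum_le_sum
  intro j hj
  rw [mem_range] at hj
  obtain ⟨hb1, hb2⟩ := hbad (k₀ + P * j) (hk j).1 (hk j).2 (hlt j hj)
  have hD0 : α * (a + P * u) - F β k₀ P j ≠ 0 := by
    have := hlt j hj
    omega
  have h2 := hyper (z := z) hD0 hb1 hb2 (by omega)
  have h3 : #((Icc 1 z).filter (fun d => d ∣ α * (a + P * u) - F β k₀ P j ∧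
      α * (a + P * u) - F β k₀ P j ≤ d ^ 2)) ≤
      #((Icc y z).filter (fun d : ℕ => d.Coprime P ∧ (d : ℤ) ∣ mm α β k₀ P a j u)) := by
    apply Finset.card_le_card
    intro d hd
    rw [mem_filter, mem_Icc] at hd
    rw [mem_filter, mem_Icc]
    obtain ⟨⟨h4, h5⟩, h6, h7⟩ := hd
    refine ⟨⟨?_, h5⟩, Nat.Coprime.coprime_dvd_left h6 (hcop j hj), ?_⟩
    · have h8 : y ^ 2 ≤ d ^ 2 := (hy j hj).trans h7
      exact (Nat.pow_le_pow_iff_left (by norm_num)).1 h8
    · have hmm : mm α β k₀ P a j u = ((α * (a + P * u) - F β k₀ P j : ℕ) : ℤ) := by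
        unfold mm
        rw [Nat.cast_sub (hlt j hj).le]
        push_cast
        ring
      rw [hmm]
      exact Int.natCast_dvd_natCast.2 h6
  have h4 : ∑ d ∈ (Icc 1 z).filter (fun d => d ∣ α * (a + P * u) - F β k₀ P j), ((chi d : ℤ) : ℝ) ≤
      ((#((Icc 1 z).filter (fun d => d ∣ α * (a + P * u) - F β k₀ P j ∧
      α * (a + P * u) - F β k₀ P j ≤ d ^ 2)) : ℤ) : ℝ) := by exact_mod_cast h2
  refine h4.trans ?_
  exact_mod_cast h3

end Pool.Agent.Helper11.Sq
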