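import Mathlib

/-!
# A crude Mertens bound
-/

set_option autoImplicit false

namespace Pool.Agent.Helper11.Sq

open Finset Filter Topology

/-- primes up to `x` -/
def pr (x : ℕ) : Finset ℕ := (range (x + 1)).filter Nat.Prime

lemma mem_pr {x p : ℕ} : p ∈ pr x ↔ p ≤ x ∧ p.Prime := by
  simp [pr]

/-- `∏_{p ≤ x} (1 - 1/p)⁻¹` -/
noncomputable def M (x : ℕ) : ℝ := ∏ p ∈ pr x, (1 + 1 / ((p : ℝ) - 1))

lemma one_lt_of_mem_pr {x p : ℕ} (h : p ∈ pr x) : (1 : ℝ) < p := by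
  exact_mod_cast (mem_pr.1 h).2.one_lt

lemma one_le_M_factor {x p : ℕ} (h : p ∈ pr x) : 1 ≤ 1 + 1 / ((p : ℝ) - 1) := by
  have h2 : (0 : ℝ) < (p : ℝ) - 1 := by
    have := one_lt_of_mem_pr h
    linarith
  have : 0 < 1 / ((p : ℝ) - 1) := by positivity
  linarith

lemma pr_mono {x y : ℕ} (hxy : x ≤ y) : pr x ⊆ pr y := by
  intro p hp
  rw [mem_pr] at hp ⊢
  exact ⟨hp.1.trans hxy, hp.2⟩

lemma one_le_M (x : ℕ) : 1 ≤ M x := by
  unfold M
  have : ∏ p ∈ pr x, (1 : ℝ) ≤ ∏ p ∈ pr x, (1 + 1 / ((p : ℝ) - 1)) := by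
    apply Finset.prod_le_prod
    · intro _ _; norm_num
    · intro p hp
      exact one_le_M_factor hp
  simpa using this

lemma M_mono {x y : ℕ} (hxy : x ≤ y) : M x ≤ M y := by
  unfold M
  rw [← Finset.prod_sdiff (pr_mono hxy)]
  have h1 : 1 ≤ ∏ p ∈ pr y \ pr x, (1 + 1 / ((p : ℝ) - 1)) := by
    have : ∏ p ∈ pr y \ pr x, (1 : ℝ) ≤ ∏ p ∈ pr y \ pr x, (1 + 1 / ((p : ℝ) - 1)) := by
      apply Finset.prod_le_prod
      · intro _ _; norm_num
      · intro p hp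
        exact one_le_M_factor (Finset.sdiff_subset hp)
    simpa using this
  have h2 : 0 ≤ ∏ p ∈ pr x, (1 + 1 / ((p : ℝ) - 1)) := by
    have := one_le_M x
    unfold M at this
    linarith
  nlinarith

/-- a dyadic block of primes -/
lemma block (i : ℕ) (hi : 1 ≤ i) :
    ∑ p ∈ pr (2 ^ (i + 1)) \ pr (2 ^ i), 1 / (p : ℝ) ≤ 4 / i := by
  have hmem : ∀ p ∈ pr (2 ^ (i + 1)) \ pr (2 ^ i), 2 ^ i < p ∧ p ≤ 2 ^ (i + 1) ∧ p.Prime := by
    intro p hp
    rw [Finset.mem_sdiff, mem_pr, mem_pr] at hp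
    refine ⟨?_, hp.1.1, hp.1.2⟩
    by_contra hcon
    exact hp.2 ⟨not_lt.1 hcon, hp.1.2⟩
  have hlog2 : 0 < Real.log 2 := Real.log_pos (by norm_num)
  have h1 : ∑ p ∈ pr (2 ^ (i + 1)) \ pr (2 ^ i), Real.log p ≤ Real.log 4 * 2 ^ (i + 1) := by
    have h2 := Chebyshev.theta_le_log4_mul_x (x := ((2 ^ (i + 1) : ℕ) : ℝ)) (by positivity)
    rw [Chebyshev.theta_eq_sum_Icc, Nat.floor_natCast] at h2
    push_cast at h2
    refine le_trans ?_ h2
    apply Finset.sum_le_sum_of_subset_of_nonneg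
    · intro p hp
      have := hmem p hp
      simp only [mem_filter, mem_Icc]
      exact ⟨⟨Nat.zero_le _, this.2.1⟩, this.2.2⟩
    · intro p hp _
      simp only [mem_filter] at hp
      exact Real.log_nonneg (by exact_mod_cast hp.2.one_lt.le)
  have h3 : (#(pr (2 ^ (i + 1)) \ pr (2 ^ i)) : ℝ) * (i * Real.log 2) ≤
      ∑ p ∈ pr (2 ^ (i + 1)) \ pr (2 ^ i), Real.log p := by
    rw [← nsmul_eq_mul]
    apply Finset.card_nsmul_le_sum
    intro p hp
    have := (hmem p hp).1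
    have h4 : ((2 : ℝ) ^ i) ≤ p := by exact_mod_cast this.le
    calc (i : ℝ) * Real.log 2 = Real.log (2 ^ i) := by rw [Real.log_pow]
      _ ≤ Real.log p := Real.log_le_log (by positivity) h4
  have h4 : Real.log 4 = 2 * Real.log 2 := by
    rw [show (4 : ℝ) = 2 ^ 2 by norm_num, Real.log_pow]; push_cast; ring
  have h5 : (#(pr (2 ^ (i + 1)) \ pr (2 ^ i)) : ℝ) * i ≤ 2 * 2 ^ (i + 1) := by
    have h6 := h3.trans h1
    rw [h4] at h6
    have h7 : (#(pr (2 ^ (i + 1)) \ pr (2 ^ i)) : ℝ) * i * Real.log 2 ≤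
        (2 * 2 ^ (i + 1)) * Real.log 2 := by linarith
    exact le_of_mul_le_mul_right h7 hlog2
  have h6 : ∑ p ∈ pr (2 ^ (i + 1)) \ pr (2 ^ i), 1 / (p : ℝ) ≤
      #(pr (2 ^ (i + 1)) \ pr (2 ^ i)) * (1 / 2 ^ i) := by
    rw [← nsmul_eq_mul]
    apply Finset.sum_le_card_nsmul
    intro p hp
    have := (hmem p hp).1
    apply one_div_le_one_div_of_le (by positivity)
    exact_mod_cast this.le
  refine h6.trans ?_
  have hi0 : (0 : ℝ) < i := by exact_mod_cast hi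
  rw [le_div_iff₀ hi0]
  have h7 : (#(pr (2 ^ (i + 1)) \ pr (2 ^ i)) : ℝ) * (1 / 2 ^ i) * i =
      ((#(pr (2 ^ (i + 1)) \ pr (2 ^ i)) : ℝ) * i) / 2 ^ i := by ring
  rw [h7, div_le_iff₀ (by positivity)]
  refine h5.trans (le_of_eq ?_)
  rw [pow_succ]; ring

lemma sum_pr_le (m : ℕ) : ∑ p ∈ pr (2 ^ (m + 1)), 1 / (p : ℝ) ≤ 1 / 2 + 4 * (harmonic m : ℝ) := by
  induction m with
  | zero =>
    have : pr (2 ^ (0 + 1)) = {2} := by decide
    rw [this]
    simp
  | succ m ih =>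
    have hsub : pr (2 ^ (m + 1)) ⊆ pr (2 ^ (m + 1 + 1)) :=
      pr_mono (Nat.pow_le_pow_right (by norm_num) (by omega))
    rw [← Finset.sum_sdiff hsub, harmonic_succ]
    have h1 := block (m + 1) (by omega)
    push_cast at h1 ⊢
    have h2 : 4 / ((m : ℝ) + 1) = 4 * ((m : ℝ) + 1)⁻¹ := by ring
    linarith

lemma M_le_exp (m : ℕ) : M (2 ^ (m + 1)) ≤ Real.exp (9 + 8 * Real.log m) := by
  have h1 := sum_pr_le m
  have h2 := harmonic_le_one_add_log m
  unfold M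
  calc ∏ p ∈ pr (2 ^ (m + 1)), (1 + 1 / ((p : ℝ) - 1))
      ≤ ∏ p ∈ pr (2 ^ (m + 1)), Real.exp (2 * (1 / (p : ℝ))) := by
        apply Finset.prod_le_prod
        · intro p hp
          linarith [one_le_M_factor hp]
        · intro p hp
          have hp2 : (2 : ℝ) ≤ p := by exact_mod_cast (mem_pr.1 hp).2.two_le
          have h3 : 1 / ((p : ℝ) - 1) ≤ 2 * (1 / (p : ℝ)) := by
            rw [mul_one_div, div_le_div_iff₀ (by linarith) (by linarith)]
            linarith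
          have h4 := Real.add_one_le_exp (2 * (1 / (p : ℝ)))
          linarith
    _ = Real.exp (2 * ∑ p ∈ pr (2 ^ (m + 1)), 1 / (p : ℝ)) := by
        rw [← Real.exp_sum, Finset.mul_sum]
    _ ≤ _ := by
        apply Real.exp_le_exp.2
        linarith

lemma M_le {x : ℕ} (hx : 2 ≤ x) : M x ≤ Real.exp 9 * (2 * Real.log x) ^ 8 := by
  set m := Nat.log 2 x with hm
  have hm1 : 1 ≤ m := by
    rw [hm]
    exact Nat.log_pos (by norm_num) hx
  have h1 : x ≤ 2 ^ (m + 1) := (Nat.lt_pow_succ_log_self (by norm_num) x).le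
  have h2 := (M_mono h1).trans (M_le_exp m)
  refine h2.trans ?_
  have hm0 : (0 : ℝ) < m := by exact_mod_cast hm1
  rw [Real.exp_add]
  have h3 : Real.exp (8 * Real.log m) = (m : ℝ) ^ 8 := by
    rw [show (8 : ℝ) * Real.log m = Real.log ((m : ℝ) ^ 8) by rw [Real.log_pow]; norm_num,
      Real.exp_log (by positivity)]
  rw [h3]
  have h4 : (m : ℝ) ≤ 2 * Real.log x := by
    have h5 : 2 ^ m ≤ x := Nat.pow_log_le_self 2 (by omega)
    have h6 : (m : ℝ) * Real.log 2 ≤ Real.log x := by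
      rw [← Real.log_pow]
      apply Real.log_le_log (by positivity)
      exact_mod_cast h5
    have h7 : (1 : ℝ) / 2 ≤ Real.log 2 := by
      have := Real.log_two_gt_d9
      linarith
    nlinarith
  gcongr

/-- every power of `M` is `o(x)` -/
lemma tendsto_M_pow (k : ℕ) : Tendsto (fun x : ℕ => M x ^ k / x) atTop (𝓝 0) := by
  have h1 : Tendsto (fun x : ℝ => Real.log x ^ (8 * k) / x) atTop (𝓝 0) := by
    have := (Real.isLittleO_pow_log_id_atTop (n := 8 * k)).tendsto_div_nhds_zero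
    simpa using this
  have h2 := (h1.comp tendsto_natCast_atTop_atTop).const_mul ((Real.exp 9 * 2 ^ 8) ^ k)
  rw [mul_zero] at h2
  apply squeeze_zero' (g := fun x : ℕ => (Real.exp 9 * 2 ^ 8) ^ k *
    (Real.log x ^ (8 * k) / x))
  · filter_upwards with x
    have := one_le_M x
    positivity
  · filter_upwards [eventually_ge_atTop 2] with x hx
    have h3 := M_le hx
    have h4 : M x ^ k ≤ (Real.exp 9 * (2 * Real.log x) ^ 8) ^ k :=
      pow_le_pow_left₀ (by linarith [one_le_M x]) h3 k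
    have h5 : (Real.exp 9 * (2 * Real.log x) ^ 8) ^ k =
        (Real.exp 9 * 2 ^ 8) ^ k * Real.log x ^ (8 * k) := by
      rw [mul_pow 2, ← mul_assoc, mul_pow, ← pow_mul]
    rw [h5] at h4
    calc M x ^ k / x ≤ ((Real.exp 9 * 2 ^ 8) ^ k * Real.log x ^ (8 * k)) / x := by gcongr
      _ = _ := by ring
  · exact h2

end Pool.Agent.Helper11.Sq
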