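import Pool.Agent.Helper10.LargeSieve
import Pool.Agent.Helper11.Sq.Farey
import Pool.Agent.Helper11.Sq.Harm
import Pool.Agent.Helper11.Sq.Count

/-!
# The second moment
-/

set_option autoImplicit false

namespace Pool.Agent.Helper11.Sq

open Finset Pool.Agent.Helper10

/-- the coefficient of the divisor `d` -/
noncomputable def cf (P d : ℕ) : ℂ := if d.Coprime P then ((chi d : ℝ) / d : ℝ) else 0

/-- the coefficient of the denominator `q` -/
noncomputable def cq (P z q : ℕ) : ℂ := ∑ d ∈ (Icc 1 z).filter (fun d => q ∣ d), cf P d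

lemma cq_zero {P z q : ℕ} (h : ¬ q.Coprime P) : cq P z q = 0 := by
  unfold cq
  apply Finset.sum_eq_zero
  intro d hd
  rw [mem_filter] at hd
  unfold cf
  rw [if_neg]
  intro hdP
  exact h (Nat.Coprime.coprime_dvd_left hd.2 hdP)

lemma cq_eq {P z q : ℕ} (hq : 0 < q) (h : q.Coprime P) :
    cq P z q = (((chi q : ℝ) / q * Lam P (z / q) : ℝ) : ℂ) := by
  unfold cq Lam
  rw [Finset.mul_sum, Complex.ofReal_sum]
  have h1 : (Icc 1 z).filter (fun d => q ∣ d) = (Icc 1 (z / q)).image (fun e => q * e) := by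
    ext d
    simp only [mem_filter, mem_Icc, mem_image]
    constructor
    · rintro ⟨⟨h1, h2⟩, e, rfl⟩
      refine ⟨e, ⟨?_, ?_⟩, rfl⟩
      · rcases Nat.eq_zero_or_pos e with h | h
        · rw [h] at h1; simp at h1
        · exact h
      · rw [Nat.le_div_iff_mul_le hq, mul_comm]
        exact h2
    · rintro ⟨e, ⟨h1, h2⟩, rfl⟩
      rw [Nat.le_div_iff_mul_le hq, mul_comm] at h2
      exact ⟨⟨Nat.mul_pos hq h1, h2⟩, dvd_mul_right _ _⟩
  rw [h1, Finset.sum_image (fun a _ b _ hab => Nat.eq_of_mul_eq_mul_left hq hab)]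
  rw [Finset.sum_filter]
  apply Finset.sum_congr rfl
  intro e he
  rw [mem_Icc] at he
  unfold cf
  by_cases heP : e.Coprime P
  · rw [if_pos heP, if_pos (Nat.Coprime.mul_left h heP), chi_mul (by omega) (by omega)]
    congr 1
    push_cast
    rw [div_mul_div_comm]
  · rw [if_neg heP, if_neg]
    intro h'
    exact heP (Nat.Coprime.coprime_mul_left h')

lemma norm_cq_le {P z q : ℕ} (hq : 0 < q) {B : ℝ} (hB : ∀ y, |Lam P y| ≤ B) :
    ‖cq P z q‖ ≤ B / q := by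
  have hB0 : 0 ≤ B := (abs_nonneg _).trans (hB 0)
  by_cases h : q.Coprime P
  · rw [cq_eq hq h, Complex.norm_real, Real.norm_eq_abs, abs_mul, abs_div]
    have h1 : |((chi q : ℤ) : ℝ)| ≤ 1 := by exact_mod_cast abs_chi_le q
    have hq0 : (0 : ℝ) < q := by exact_mod_cast hq
    rw [abs_of_pos hq0, div_mul_eq_mul_div]
    apply div_le_div_of_nonneg_right _ hq0.le
    calc |((chi q : ℤ) : ℝ)| * |Lam P (z / q)| ≤ 1 * B :=
          mul_le_mul h1 (hB _) (abs_nonneg _) (by norm_num)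
      _ = B := one_mul _
  · rw [cq_zero h, norm_zero]
    positivity

/-- `[d ∣ m] - 1/d` as an exponential sum -/
lemma ind_eq {d : ℕ} (hd : 0 < d) (m : ℤ) :
    (if (d : ℤ) ∣ m then (1 : ℂ) else 0) - 1 / d =
      (1 / d) * ∑ b ∈ Ico 1 d, ee ((b : ℝ) * ((m : ℝ) / d)) := by
  have h1 := sum_ee_eq d hd m
  rw [Finset.range_eq_Ico, Finset.sum_eq_sum_Ico_succ_bot hd] at h1
  have h2 : ee (((0 : ℕ) : ℝ) * ((m : ℝ) / d)) = 1 := by simp [ee_zero]
  rw [h2] at h1
  have h3 : ∑ b ∈ Ico 1 d, ee ((b : ℝ) * ((m : ℝ) / d)) =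
      (if (d : ℤ) ∣ m then (d : ℂ) else 0) - 1 := by
    rw [← h1]
    simp
  rw [h3]
  have hd0 : (d : ℂ) ≠ 0 := by exact_mod_cast hd.ne'
  split_ifs <;> (field_simp; try ring)

/-- Parseval -/
lemma parseval {q : ℕ} (hq : 0 < q) (J : ℕ) (n : ℕ → ℤ) :
    ∑ b ∈ range q, ‖∑ j ∈ range J, ee ((b : ℝ) * ((n j : ℝ) / q))‖ ^ 2 =
      q * #((range J ×ˢ range J).filter (fun p => (q : ℤ) ∣ n p.1 - n p.2)) := by
  have h1 : ∀ b ∈ range q, ((‖∑ j ∈ range J, ee ((b : ℝ) * ((n j : ℝ) / q))‖ ^ 2 : ℝ) : ℂ) =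
      ∑ p ∈ range J ×ˢ range J, ee ((b : ℝ) * (((n p.1 - n p.2 : ℤ) : ℝ) / q)) := by
    intro b _
    rw [ofReal_norm_sq, map_sum, Finset.sum_mul_sum, Finset.sum_product]
    apply Finset.sum_congr rfl
    intro i _
    apply Finset.sum_congr rfl
    intro j _
    rw [← ee_neg, ← ee_add]
    congr 1
    push_cast
    ring
  have h2 : ((∑ b ∈ range q, ‖∑ j ∈ range J, ee ((b : ℝ) * ((n j : ℝ) / q))‖ ^ 2 : ℝ) : ℂ) =
      ((q * #((range J ×ˢ range J).filter (fun p => (q : ℤ) ∣ n p.1 - n p.2)) : ℝ) : ℂ) := by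
    rw [Complex.ofReal_sum, Finset.sum_congr rfl h1, Finset.sum_comm,
      Finset.sum_congr rfl (fun p _ => sum_ee_eq q hq _), ← Finset.sum_filter, Finset.sum_const]
    push_cast
    rw [nsmul_eq_mul]
    ring
  exact_mod_cast h2

/-- distance of a fraction to the integers -/
lemma nd_frac {D : ℕ} (hD : 0 < D) {h : ℤ} (hh : ¬ (D : ℤ) ∣ h) : 1 / (D : ℝ) ≤ nd ((h : ℝ) / D) := by
  unfold nd
  have hD0 : (0 : ℝ) < D := by exact_mod_cast hD
  set r := round ((h : ℝ) / D)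
  have h1 : (h : ℝ) / D - r = ((h - D * r : ℤ) : ℝ) / D := by
    push_cast
    field_simp
  rw [h1, abs_div, abs_of_pos hD0]
  apply div_le_div_of_nonneg_right _ hD0.le
  have h2 : h - D * r ≠ 0 := by
    intro h0
    apply hh
    exact ⟨r, by linarith⟩
  exact_mod_cast Int.one_le_abs h2

/-- the index set of reduced fractions -/
def idx (P Y₁ Y₂ : ℕ) : Finset (ℕ × ℕ) :=
  ((Ioc Y₁ Y₂) ×ˢ (Ico 1 Y₂)).filter
    (fun p => p.1.Coprime P ∧ p.2 < p.1 ∧ p.2.Coprime p.1)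

/-- spacing -/
lemma idx_spacing {A P Y₁ Y₂ : ℕ} (hA : ∀ q : ℕ, q.Coprime P → q.Coprime A) :
    ∀ r ∈ idx P Y₁ Y₂, ∀ s ∈ idx P Y₁ Y₂, r ≠ s →
      1 / ((Y₂ : ℝ) ^ 2) ≤ nd ((A : ℝ) * r.2 / r.1 - (A : ℝ) * s.2 / s.1) := by
  rintro ⟨q, b⟩ hr ⟨q', b'⟩ hs hne
  simp only [idx, mem_filter, mem_product, mem_Ioc, mem_Ico] at hr hs
  obtain ⟨⟨⟨h1, h2⟩, h3, h3'⟩, h4, h5, h6⟩ := hr
  obtain ⟨⟨⟨g1, g2⟩, g3, g3'⟩, g4, g5, g6⟩ := hs
  have hq : 0 < q := by omega
  have hq' : 0 < q' := by omega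
  have hq0 : (q : ℝ) ≠ 0 := by exact_mod_cast hq.ne'
  have hq0' : (q' : ℝ) ≠ 0 := by exact_mod_cast hq'.ne'
  simp only
  have e : (A : ℝ) * b / q - (A : ℝ) * b' / q' =
      (((A : ℤ) * ((b : ℤ) * q' - b' * q) : ℤ) : ℝ) / ((q * q' : ℕ) : ℝ) := by
    push_cast
    field_simp
  rw [e]
  have hnd : ¬ (((q * q' : ℕ) : ℤ)) ∣ (A : ℤ) * ((b : ℤ) * q' - b' * q) := by
    intro hdvd
    have hc : IsCoprime (((q * q' : ℕ) : ℤ)) (A : ℤ) :=
      Nat.isCoprime_iff_coprime.2 (Nat.Coprime.mul_left (hA q h4) (hA q' g4))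
    have hd2 := hc.dvd_of_dvd_mul_left hdvd
    have hd3 : (q : ℤ) ∣ (b : ℤ) * q' - b' * q :=
      (Int.natCast_dvd_natCast.2 (dvd_mul_right q q')).trans hd2
    have hd4 : (q' : ℤ) ∣ (b : ℤ) * q' - b' * q :=
      (Int.natCast_dvd_natCast.2 (dvd_mul_left q' q)).trans hd2
    have hd5 : (q : ℤ) ∣ (b : ℤ) * q' := by
      have := dvd_add hd3 (dvd_mul_left (q : ℤ) (b' : ℤ))
      simpa using this
    have hd6 : (q' : ℤ) ∣ (b' : ℤ) * q := by
      have := dvd_sub (dvd_mul_left (q' : ℤ) (b : ℤ)) hd4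
      simpa using this
    have hqq : q ∣ q' := by
      have h7 : q ∣ b * q' := by exact_mod_cast hd5
      exact (Nat.Coprime.symm h6).dvd_of_dvd_mul_left h7
    have hqq' : q' ∣ q := by
      have h7 : q' ∣ b' * q := by exact_mod_cast hd6
      exact (Nat.Coprime.symm g6).dvd_of_dvd_mul_left h7
    have heq : q = q' := Nat.dvd_antisymm hqq hqq'
    subst heq
    have hd7 : (((q * q : ℕ) : ℤ)) ∣ (q : ℤ) * ((b : ℤ) - b') := by
      have e2 : (q : ℤ) * ((b : ℤ) - b') = (b : ℤ) * q - b' * q := by ring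
      rw [e2]
      exact hd2
    push_cast at hd7
    have hd8 : (q : ℤ) ∣ (b : ℤ) - b' :=
      (mul_dvd_mul_iff_left (by exact_mod_cast hq.ne')).1 hd7
    have hd9 : (b : ℤ) - b' = 0 := by
      apply Int.eq_zero_of_abs_lt_dvd hd8
      rw [abs_lt]
      constructor <;> omega
    apply hne
    have : b = b' := by omega
    rw [this]
  refine le_trans ?_ (nd_frac (Nat.mul_pos hq hq') hnd)
  apply one_div_le_one_div_of_le
  · exact_mod_cast Nat.mul_pos hq hq'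
  · push_cast
    have : (q : ℝ) ≤ Y₂ := by exact_mod_cast h2
    have : (q' : ℝ) ≤ Y₂ := by exact_mod_cast g2
    rw [sq]
    gcongr


/-- the number `α (a + P u) - β (k₀ + P j) ^ 4` -/
def mm (α β k₀ P a j u : ℕ) : ℤ := (α : ℤ) * (a + P * u) - F β k₀ P j

/-- the error term -/
noncomputable def T (α β k₀ P a J z u : ℕ) : ℝ :=
  ∑ j ∈ range J, ∑ d ∈ (Icc 1 z).filter (fun d => d.Coprime P),
    (chi d : ℝ) * ((if (d : ℤ) ∣ mm α β k₀ P a j u then 1 else 0) - 1 / d)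

/-- the exponential sum -/
noncomputable def ff (α β k₀ P a J u d b : ℕ) : ℂ :=
  ∑ j ∈ range J, ee ((b : ℝ) * ((mm α β k₀ P a j u : ℝ) / d))

lemma ff_scale (α β k₀ P a J u : ℕ) (e q b : ℕ) (he : 0 < e) :
    ff α β k₀ P a J u (e * q) (e * b) = ff α β k₀ P a J u q b := by
  unfold ff
  apply Finset.sum_congr rfl
  intro j _
  congr 1
  push_cast
  have he0 : (e : ℝ) ≠ 0 := by exact_mod_cast he.ne'
  rcases Nat.eq_zero_or_pos q with h | h
  · rw [h]; simp
  · have hq0 : (q : ℝ) ≠ 0 := by exact_mod_cast h.ne'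
    field_simp

/-- a piece of the grouped sum -/
noncomputable def Piece (α β k₀ P a J z Y₁ Y₂ u : ℕ) : ℂ :=
  ∑ q ∈ Ioc Y₁ Y₂, cq P z q * ∑ b ∈ (Ico 1 q).filter (fun b => b.Coprime q),
    ff α β k₀ P a J u q b

lemma T_eq (α β k₀ P a J z Z u : ℕ) (hZ : 1 ≤ Z) (hZz : Z ≤ z) :
    ((T α β k₀ P a J z u : ℝ) : ℂ) = Piece α β k₀ P a J z 1 Z u + Piece α β k₀ P a J z Z z u := by
  unfold Piece
  have hI : Icc 2 z = Ioc 1 Z ∪ Ioc Z z := by
    ext q
    simp only [mem_Icc, mem_union, mem_Ioc]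
    omega
  rw [← Finset.sum_union (by
    rw [Finset.disjoint_left]; intro q h1 h2; simp only [mem_Ioc] at h1 h2; omega), ← hI]
  unfold cq
  rw [← group_all z (cf P) (ff α β k₀ P a J u) (ff_scale α β k₀ P a J u)]
  unfold T
  rw [Finset.sum_comm, Complex.ofReal_sum, Finset.sum_filter]
  apply Finset.sum_congr rfl
  intro d hd
  rw [mem_Icc] at hd
  unfold cf
  by_cases hdP : d.Coprime P
  · rw [if_pos hdP, if_pos hdP]
    unfold ff
    rw [Finset.sum_comm, Complex.ofReal_sum, Finset.mul_sum]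
    apply Finset.sum_congr rfl
    intro j _
    have h1 := ind_eq (d := d) (by omega) (mm α β k₀ P a j u)
    have h2 : ((((chi d : ℝ) / d : ℝ)) : ℂ) * ∑ b ∈ Ico 1 d,
        ee ((b : ℝ) * ((mm α β k₀ P a j u : ℝ) / d)) =
        (chi d : ℂ) * ((1 / d) * ∑ b ∈ Ico 1 d,
        ee ((b : ℝ) * ((mm α β k₀ P a j u : ℝ) / d))) := by
      push_cast
      ring
    rw [h2, ← h1]
    push_cast
    congr 2
    split_ifs <;> simp
  · rw [if_neg hdP, if_neg hdP]
    simp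

/-- the large sieve bound for a piece -/
lemma piece_le {α β k₀ P a J z Y₁ Y₂ U : ℕ} {B : ℝ} (hB : ∀ y, |Lam P y| ≤ B)
    (hα : ∀ q : ℕ, q.Coprime P → q.Coprime α) (hY : 1 ≤ Y₁) (hY2 : 1 ≤ Y₂) (hU : Y₂ ^ 2 ≤ U) :
    ∑ u ∈ range U, ‖Piece α β k₀ P a J z Y₁ Y₂ u‖ ^ 2 ≤
      5 * U * (B ^ 2 * ∑ q ∈ (Ioc Y₁ Y₂).filter (fun q => q.Coprime P),
        (#((range J ×ˢ range J).filter
          (fun p => (q : ℤ) ∣ (F β k₀ P p.1 : ℤ) - F β k₀ P p.2)) : ℝ) / q) := by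
  classical
  have hB0 : 0 ≤ B := (abs_nonneg _).trans (hB 0)
  set n : ℕ → ℤ := fun j => (α : ℤ) * a - F β k₀ P j with hn
  set θ : ℕ × ℕ → ℝ := fun p => ((α * P : ℕ) : ℝ) * p.2 / p.1 with hθ
  set bb : ℕ × ℕ → ℂ := fun p => cq P z p.1 *
    ∑ j ∈ range J, ee ((p.2 : ℝ) * ((n j : ℝ) / p.1)) with hbb
  have hpiece : ∀ u : ℕ, Piece α β k₀ P a J z Y₁ Y₂ u = ∑ r ∈ idx P Y₁ Y₂, bb r * ee (u * θ r) := by
    intro u
    unfold Piece idx
    rw [Finset.sum_filter, Finset.sum_product]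
    apply Finset.sum_congr rfl
    intro q hq
    rw [mem_Ioc] at hq
    have hq0 : (q : ℝ) ≠ 0 := by
      have : 0 < q := by omega
      exact_mod_cast this.ne'
    by_cases hqP : q.Coprime P
    · rw [Finset.mul_sum, ← Finset.sum_filter]
      have hset : (Ico 1 Y₂).filter (fun b => q.Coprime P ∧ b < q ∧ b.Coprime q) =
          (Ico 1 q).filter (fun b => b.Coprime q) := by
        ext b
        simp only [mem_filter, mem_Ico]
        constructor
        · rintro ⟨⟨h1, h2⟩, h3, h4, h5⟩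
          exact ⟨⟨h1, h4⟩, h5⟩
        · rintro ⟨⟨h1, h4⟩, h5⟩
          exact ⟨⟨h1, by omega⟩, hqP, h4, h5⟩
      rw [hset]
      apply Finset.sum_congr rfl
      intro b _
      simp only [hbb, hθ]
      unfold ff
      rw [mul_assoc, Finset.sum_mul]
      congr 1
      apply Finset.sum_congr rfl
      intro j _
      rw [← ee_add]
      congr 1
      simp only [hn, mm]
      push_cast
      field_simp
      ring
    · rw [cq_zero hqP, zero_mul]
      symm
      apply Finset.sum_eq_zero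
      intro b _
      rw [if_neg]
      rintro ⟨h, _⟩
      exact hqP h
  have hsp := idx_spacing (A := α * P) (P := P) (Y₁ := Y₁) (Y₂ := Y₂)
    (fun q hq => Nat.Coprime.mul_right (hα q hq) hq)
  have hY20 : (0 : ℝ) < (Y₂ : ℝ) ^ 2 := by
    have : (0 : ℝ) < Y₂ := by exact_mod_cast hY2
    positivity
  have hls := dual_large_sieve (idx P Y₁ Y₂) θ (1 / (Y₂ : ℝ) ^ 2) (by positivity) hsp U
    (by rw [one_div_one_div]; exact_mod_cast hU) bb
  rw [Finset.sum_congr rfl (fun u _ => by rw [hpiece u])]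
  refine hls.trans ?_
  apply mul_le_mul_of_nonneg_left _ (by positivity)
  -- the sum of the squared coefficients
  unfold idx
  rw [Finset.sum_filter, Finset.sum_product, Finset.mul_sum, Finset.sum_filter]
  apply Finset.sum_le_sum
  intro q hq
  rw [mem_Ioc] at hq
  have hq1 : 0 < q := by omega
  have hq0 : (0 : ℝ) < q := by exact_mod_cast hq1
  by_cases hqP : q.Coprime P
  · rw [if_pos hqP]
    have h1 : ∑ b ∈ Ico 1 Y₂, (if (q, b).1.Coprime P ∧ (q, b).2 < (q, b).1 ∧ (q, b).2.Coprime (q, b).1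
        then ‖bb (q, b)‖ ^ 2 else 0) ≤
        ∑ b ∈ range q, (B / q) ^ 2 * ‖∑ j ∈ range J, ee ((b : ℝ) * ((n j : ℝ) / q))‖ ^ 2 := by
      rw [← Finset.sum_filter]
      refine (Finset.sum_le_sum_of_subset_of_nonneg (t := range q) ?_ ?_).trans ?_
      · intro b hb
        rw [mem_filter] at hb
        rw [mem_range]
        exact hb.2.2.1
      · intro _ _ _
        positivity
      · apply Finset.sum_le_sum
        intro b _
        simp only [hbb]
        rw [norm_mul, mul_pow]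
        apply mul_le_mul_of_nonneg_right _ (by positivity)
        exact pow_le_pow_left₀ (norm_nonneg _) (norm_cq_le hq1 hB) 2
    refine h1.trans ?_
    rw [← Finset.mul_sum, parseval hq1]
    have h2 : (range J ×ˢ range J).filter (fun p => (q : ℤ) ∣ n p.1 - n p.2) =
        (range J ×ˢ range J).filter
          (fun p => (q : ℤ) ∣ (F β k₀ P p.1 : ℤ) - F β k₀ P p.2) := by
      apply Finset.filter_congr
      intro p _
      simp only [hn]
      rw [← dvd_neg]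
      have : -((α : ℤ) * a - (F β k₀ P p.1 : ℤ) - ((α : ℤ) * a - (F β k₀ P p.2 : ℤ))) =
        (F β k₀ P p.1 : ℤ) - F β k₀ P p.2 := by ring
      rw [this]
    rw [h2]
    apply le_of_eq
    field_simp
  · rw [if_neg hqP]
    apply le_of_eq
    apply Finset.sum_eq_zero
    intro b _
    rw [if_neg]
    rintro ⟨h, _⟩
    exact hqP h

end Pool.Agent.Helper11.Sq
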