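import Pool.Agent.Helper11.Sq.Total

/-!
# Choice of the parameters
-/

set_option autoImplicit false

namespace Pool.Agent.Helper11.Sq

open Finset Filter Topology

/-- the primorial -/
def PP (w : ℕ) : ℕ := ∏ p ∈ pr w, p

/-- the upper bound of the harmonic sums -/
noncomputable def BB (w : ℕ) : ℝ := 8 * ∏ p ∈ pr w, (1 + 1 / (p : ℝ))

/-- the limit of the harmonic sums -/
noncomputable def LL (L0 : ℝ) (w : ℕ) : ℝ := L0 * ∏ p ∈ pr w, (1 - (chi p : ℝ) / p)

lemma BB_le (w : ℕ) : BB w ≤ 8 * M w := by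
  unfold BB M
  apply mul_le_mul_of_nonneg_left _ (by norm_num)
  apply Finset.prod_le_prod
  · intro p _; positivity
  · intro p hp
    have h1 := one_lt_of_mem_pr hp
    have : 1 / (p : ℝ) ≤ 1 / ((p : ℝ) - 1) :=
      one_div_le_one_div_of_le (by linarith) (by linarith)
    linarith

lemma BB_nonneg (w : ℕ) : 0 ≤ BB w := by
  unfold BB
  positivity

lemma LL_ge {L0 : ℝ} (hL0 : 0 < L0) (w : ℕ) : L0 / M w ≤ LL L0 w := by
  unfold LL M
  rw [div_eq_mul_inv, ← Finset.prod_inv_distrib]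
  apply mul_le_mul_of_nonneg_left _ hL0.le
  apply Finset.prod_le_prod
  · intro p hp
    have h1 := one_lt_of_mem_pr hp
    have : 0 < (p : ℝ) - 1 := by linarith
    positivity
  · intro p hp
    have h1 := one_lt_of_mem_pr hp
    have h2 : (1 + 1 / ((p : ℝ) - 1))⁻¹ = 1 - 1 / p := by
      have h3 : (p : ℝ) - 1 ≠ 0 := by linarith
      have h4 : (p : ℝ) ≠ 0 := by linarith
      have h7 : 1 + 1 / ((p : ℝ) - 1) = p / (p - 1) := by
        rw [eq_div_iff h3, add_mul, one_div_mul_cancel h3]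
        ring
      rw [h7, inv_div, sub_div, div_self h4]
    rw [h2]
    have h5 : (chi p : ℝ) ≤ 1 := by exact_mod_cast (le_abs_self _).trans (abs_chi_le p)
    have h6 : (chi p : ℝ) / p ≤ 1 / p := by
      apply div_le_div_of_nonneg_right h5 (by linarith)
    linarith

lemma LL_pos {L0 : ℝ} (hL0 : 0 < L0) (w : ℕ) : 0 < LL L0 w := by
  refine lt_of_lt_of_le ?_ (LL_ge hL0 w)
  have := one_le_M w
  positivity

/-- choice of `w` and `ε` -/
lemma exists_param {L0 : ℝ} (hL0 : 0 < L0) {κ : ℝ} (hκ : 0 < κ) :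
    ∃ (w : ℕ) (ε : ℝ), 7 ≤ w ∧ 0 < ε ∧ ε ≤ 1 / 4 ∧
      24 * ε ^ 2 / LL L0 w + 160 * BB w ^ 2 / LL L0 w ^ 2 * (Real.exp (4 / w) - 1) < κ * ε := by
  set c₁ : ℝ := min (1 / 4) (κ * L0 / 96) with hc₁
  have hc₁0 : 0 < c₁ := by positivity
  set c₂ : ℝ := 160 * 64 / L0 ^ 2 * 8 with hc₂
  have hlim := (tendsto_M_pow 5).const_mul c₂
  rw [mul_zero] at hlim
  have h1 := hlim.eventually_lt_const (show 0 < κ * c₁ / 2 by positivity)
  obtain ⟨w, hw1, hw2⟩ := (h1.and (eventually_ge_atTop 7)).exists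
  have hM1 := one_le_M w
  have hM0 : 0 < M w := by linarith
  have hL := LL_ge hL0 w
  have hLp := LL_pos hL0 w
  set L := LL L0 w with hLdef
  refine ⟨w, c₁ / M w, hw2, by positivity, ?_, ?_⟩
  · rw [div_le_iff₀ hM0]
    have : c₁ ≤ 1 / 4 := min_le_left _ _
    nlinarith
  · have hw0 : (0 : ℝ) < w := by exact_mod_cast (by omega : 0 < w)
    have hw4 : (4 : ℝ) / w ≤ 1 := by
      rw [div_le_one hw0]
      exact_mod_cast (by omega : 4 ≤ w)
    have hexp : Real.exp (4 / w) - 1 ≤ 8 / w := by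
      have h2 := Real.abs_exp_sub_one_le (x := 4 / (w : ℝ)) (by
        rw [abs_of_nonneg (by positivity)]; exact hw4)
      rw [abs_of_nonneg (by positivity : (0 : ℝ) ≤ 4 / w)] at h2
      have h3 := le_abs_self (Real.exp (4 / (w : ℝ)) - 1)
      have h4 : 2 * (4 / (w : ℝ)) = 8 / w := by ring
      linarith
    have hexp0 : 0 ≤ Real.exp (4 / w) - 1 := by
      have : 1 ≤ Real.exp (4 / w) := Real.one_le_exp (by positivity)
      linarith
    -- first term
    have ht1 : 24 * (c₁ / M w) ^ 2 / L ≤ κ * (c₁ / M w) / 4 := by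
      rw [div_le_iff₀ hLp]
      have h5 : c₁ ≤ κ * L0 / 96 := min_le_right _ _
      have h6 : c₁ / M w ≤ κ / 96 * L := by
        calc c₁ / M w ≤ (κ * L0 / 96) / M w := by gcongr
          _ = κ / 96 * (L0 / M w) := by ring
          _ ≤ κ / 96 * L := by gcongr
      have h7 : 0 ≤ c₁ / M w := by positivity
      calc 24 * (c₁ / M w) ^ 2 = 24 * (c₁ / M w) * (c₁ / M w) := by ring
        _ ≤ 24 * (c₁ / M w) * (κ / 96 * L) := by gcongr
        _ = _ := by ring
    -- second term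
    have ht2 : 160 * BB w ^ 2 / L ^ 2 * (Real.exp (4 / w) - 1) ≤ c₂ * (M w ^ 5 / w) / M w := by
      have hB := BB_le w
      have hB0 := BB_nonneg w
      have h8 : 160 * BB w ^ 2 / L ^ 2 ≤ 160 * (8 * M w) ^ 2 / (L0 / M w) ^ 2 := by
        gcongr
      calc 160 * BB w ^ 2 / L ^ 2 * (Real.exp (4 / w) - 1)
          ≤ 160 * (8 * M w) ^ 2 / (L0 / M w) ^ 2 * (8 / w) := by
            apply mul_le_mul h8 hexp hexp0 (by positivity)
        _ = c₂ * (M w ^ 5 / w) / M w := by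
            rw [hc₂]
            field_simp
            ring
    have ht3 : c₂ * (M w ^ 5 / w) / M w < (κ * c₁ / 2) / M w := by
      apply div_lt_div_of_pos_right hw1 hM0
    have ht4 : (κ * c₁ / 2) / M w = κ * (c₁ / M w) / 2 := by ring
    have ht5 : 0 < κ * (c₁ / M w) := by positivity
    linarith

/-- the starting point of the progression of `k` -/
def kk (w a : ℕ) : ℕ := ∏ p ∈ (pr w).filter (fun p => ¬ p ∣ 14 ∧ ¬ p ∣ a), p

lemma prime_dvd_kk {w a p : ℕ} (hp : p.Prime) : p ∣ kk w a ↔ p ≤ w ∧ ¬ p ∣ 14 ∧ ¬ p ∣ a := by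
  unfold kk
  rw [hp.prime.dvd_finsetProd_iff]
  constructor
  · rintro ⟨q, hq, hpq⟩
    rw [mem_filter, mem_pr] at hq
    rw [(Nat.prime_dvd_prime_iff_eq hp hq.1.2).1 hpq]
    exact ⟨hq.1.1, hq.2⟩
  · rintro ⟨h1, h2⟩
    exact ⟨p, mem_filter.2 ⟨mem_pr.2 ⟨h1, hp⟩, h2⟩, dvd_rfl⟩

lemma prime_dvd_PP {w p : ℕ} (hp : p.Prime) : p ∣ PP w ↔ p ≤ w := by
  unfold PP
  rw [hp.prime.dvd_finsetProd_iff]
  constructor
  · rintro ⟨q, hq, hpq⟩
    rw [mem_pr] at hq
    rw [(Nat.prime_dvd_prime_iff_eq hp hq.2).1 hpq]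
    exact hq.1
  · intro h
    exact ⟨p, mem_pr.2 ⟨h, hp⟩, dvd_rfl⟩

lemma PP_pos (w : ℕ) : 0 < PP w := by
  unfold PP
  exact Finset.prod_pos fun p hp => (mem_pr.1 hp).2.pos

theorem mkData {α β w a : ℕ} {L0 : ℝ} (hα : α ∣ 14) (hβ : β ∣ 8) (hw : 7 ≤ w) (hL0 : 0 < L0)
    (hL : Tendsto (fun y => Lam 1 y) atTop (𝓝 L0)) :
    Data α β (kk w a) (PP w) w a (BB w) (LL L0 w) := by
  have h14 : 14 ∣ PP w := by
    have h2 : 2 ∣ PP w := (prime_dvd_PP (by norm_num)).2 (by omega)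
    have h7 : 7 ∣ PP w := (prime_dvd_PP (by norm_num)).2 hw
    exact (by norm_num : Nat.Coprime 2 7).mul_dvd_of_dvd_of_dvd h2 h7
  have hs : ∀ p ∈ pr w, p.Prime := fun p hp => (mem_pr.1 hp).2
  have hα14 : ∀ p, p.Prime → p ∣ α → p ∣ 14 := fun p _ h => h.trans hα
  have hβ14 : ∀ p, p.Prime → p ∣ β → p ∣ 14 := by
    intro p hp h
    have h8 : p ∣ 2 ^ 3 := h.trans hβ
    have := (Nat.prime_dvd_prime_iff_eq hp Nat.prime_two).1 (hp.dvd_of_dvd_pow h8)
    rw [this]
    norm_num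
  have h2k : ∀ p, p.Prime → p ∣ 14 → ∀ j, ¬ p ∣ kk w a + PP w * j := by
    intro p hp hp14 j h
    have h1 : p ∣ PP w * j := ((hp14.trans h14)).mul_right j
    have h2 : p ∣ kk w a := (Nat.dvd_add_left h1).1 h
    exact ((prime_dvd_kk hp).1 h2).2.1 hp14
  refine ⟨Nat.pos_of_dvd_of_pos hα (by norm_num), ?_, Nat.pos_of_dvd_of_pos hβ (by norm_num),
    PP_pos w, ?_, by omega, ?_, ?_, LL_pos hL0 w, ?_, ?_, ?_⟩
  · intro q hq
    exact Nat.Coprime.coprime_dvd_right (hα.trans h14) hq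
  · intro p hp h1 h2
    exact h1 ((hβ14 p hp h2).trans h14)
  · intro p hp hpw
    exact (prime_dvd_PP hp).2 hpw
  · intro y
    exact abs_Lam_le (pr w) hs y
  · exact tendsto_Lam hL (pr w) hs
  · intro j
    refine ⟨?_, h2k 7 (by norm_num) (by norm_num) j⟩
    rw [← Nat.not_even_iff_odd, even_iff_two_dvd]
    exact h2k 2 (by norm_num) (by norm_num) j
  · intro u j hbad hlt
    have hodd : Odd (kk w a + PP w * j) ∧ ¬ 7 ∣ kk w a + PP w * j := by
      refine ⟨?_, h2k 7 (by norm_num) (by norm_num) j⟩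
      rw [← Nat.not_even_iff_odd, even_iff_two_dvd]
      exact h2k 2 (by norm_num) (by norm_num) j
    obtain ⟨hchi, -⟩ := hbad _ hodd.1 hodd.2 hlt
    have hD0 : α * (a + PP w * u) - F β (kk w a) (PP w) j ≠ 0 := by omega
    change chi (α * (a + PP w * u) - F β (kk w a) (PP w) j) = 1 at hchi
    rw [PP, Nat.coprime_prod_right_iff]
    intro p hp
    rw [mem_pr] at hp
    apply Nat.Coprime.symm
    rw [hp.2.coprime_iff_not_dvd]
    intro hpD
    by_cases hp14 : p ∣ 14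
    · have h14' : p = 2 ∨ p = 7 := by
        have h3 : p ∣ 2 * 7 := by simpa using hp14
        rcases (hp.2.dvd_mul).1 h3 with h | h
        · exact Or.inl ((Nat.prime_dvd_prime_iff_eq hp.2 Nat.prime_two).1 h)
        · exact Or.inr ((Nat.prime_dvd_prime_iff_eq hp.2 (by norm_num)).1 h)
      rcases h14' with h | h
      · rw [h] at hpD
        rw [chi_even hD0 (even_iff_two_dvd.2 hpD)] at hchi
        norm_num at hchi
      · rw [h] at hpD
        rw [chi_seven hD0 hpD] at hchi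
        norm_num at hchi
    · -- `p ∣ α a ↔ p ∣ β k₀⁴`
      have h1 : (p : ℤ) ∣ (α : ℤ) * (a + PP w * u) - β * (kk w a + PP w * j) ^ 4 := by
        have : ((α * (a + PP w * u) - F β (kk w a) (PP w) j : ℕ) : ℤ) =
            (α : ℤ) * (a + PP w * u) - β * (kk w a + PP w * j) ^ 4 := by
          rw [Nat.cast_sub hlt.le]
          unfold F
          push_cast
          ring
        rw [← this]
        exact_mod_cast hpD
      have hpP : p ∣ PP w := (prime_dvd_PP hp.2).2 hp.1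
      by_cases hpa : p ∣ a
      · -- then `p ∣ β k⁴`
        have h2 : p ∣ α * (a + PP w * u) :=
          (dvd_add hpa (hpP.mul_right u)).mul_left α
        have h3 : (p : ℤ) ∣ β * ((kk w a : ℤ) + PP w * j) ^ 4 := by
          have h4 : (p : ℤ) ∣ (α : ℤ) * (a + PP w * u) := by exact_mod_cast h2
          have := dvd_sub h4 h1
          simpa using this
        have h4 : p ∣ β * (kk w a + PP w * j) ^ 4 := by exact_mod_cast h3
        rcases (hp.2.dvd_mul).1 h4 with h | h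
        · exact hp14 (hβ14 p hp.2 h)
        · have h5 := hp.2.dvd_of_dvd_pow h
          have h6 : p ∣ kk w a := (Nat.dvd_add_left (hpP.mul_right j)).1 h5
          exact ((prime_dvd_kk hp.2).1 h6).2.2 hpa
      · -- then `p ∣ α a`
        have hpk : p ∣ kk w a := (prime_dvd_kk hp.2).2 ⟨hp.1, hp14, hpa⟩
        have h2 : p ∣ β * (kk w a + PP w * j) ^ 4 :=
          (dvd_pow (dvd_add hpk (hpP.mul_right j)) (by norm_num)).mul_left β
        have h3 : (p : ℤ) ∣ (α : ℤ) * ((a : ℤ) + PP w * u) := by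
          have h4 : (p : ℤ) ∣ β * ((kk w a : ℤ) + PP w * j) ^ 4 := by exact_mod_cast h2
          have := dvd_add h1 h4
          simpa using this
        have h4 : p ∣ α * (a + PP w * u) := by exact_mod_cast h3
        rcases (hp.2.dvd_mul).1 h4 with h | h
        · exact hp14 (hα14 p hp.2 h)
        · exact hpa ((Nat.dvd_add_left (hpP.mul_right u)).1 h)

end Pool.Agent.Helper11.Sq
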