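import Pool.Agent.Helper11.Sq.Mom

/-!
# Bounds for the sums over the denominators, and the second moment
-/

set_option autoImplicit false

namespace Pool.Agent.Helper11.Sq

open Finset Pool.Agent.Helper10

lemma sum_inv_Ioc_le (Y z : ℕ) : ∑ q ∈ Ioc Y z, 1 / (q : ℝ) ≤ 1 + Real.log z := by
  have h1 : ∑ q ∈ Ioc Y z, 1 / (q : ℝ) ≤ ∑ q ∈ Icc 1 z, 1 / (q : ℝ) := by
    apply Finset.sum_le_sum_of_subset_of_nonneg
    · intro q hq
      rw [mem_Ioc] at hq
      rw [mem_Icc]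
      omega
    · intro _ _ _; positivity
  have h2 := harmonic_le_one_add_log z
  rw [harmonic_eq_sum_Icc] at h2
  push_cast at h2
  refine h1.trans (le_trans (le_of_eq ?_) h2)
  apply Finset.sum_congr rfl
  intro q _
  rw [one_div]

/-- small denominators -/
lemma small_le {β k₀ P w : ℕ} (hβ : ∀ p, p.Prime → ¬ p ∣ P → ¬ p ∣ β) (hw : 1 ≤ w)
    (hP : ∀ p, p.Prime → p ≤ w → p ∣ P) (Z J : ℕ) :
    ∑ q ∈ (Ioc 1 Z).filter (fun q => q.Coprime P),
        (#((range J ×ˢ range J).filter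
          (fun p => (q : ℤ) ∣ (F β k₀ P p.1 : ℤ) - F β k₀ P p.2)) : ℝ) / q ≤
      J * (J * (Real.exp (4 / w) - 1) + M Z ^ 4) := by
  classical
  rcases Nat.eq_zero_or_pos Z with hZ | hZ
  · subst hZ
    simp only [Finset.Ioc_eq_empty (by omega : ¬ 1 < 0), Finset.filter_empty, Finset.sum_empty]
    have h1 : 1 ≤ Real.exp (4 / w) := Real.one_le_exp (by positivity)
    have h2 := one_le_M 0
    have h3 : 0 ≤ Real.exp (4 / w) - 1 := by linarith
    positivity
  have h1 : ∀ q ∈ (Ioc 1 Z).filter (fun q => q.Coprime P),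
      (#((range J ×ˢ range J).filter
          (fun p => (q : ℤ) ∣ (F β k₀ P p.1 : ℤ) - F β k₀ P p.2)) : ℝ) / q =
      ∑ i ∈ range J, ∑ j ∈ range J, if (q : ℤ) ∣ (F β k₀ P j : ℤ) - F β k₀ P i then 1 / (q : ℝ)
        else 0 := by
    intro q _
    rw [Finset.sum_comm, ← Finset.sum_product', ← Finset.sum_filter, Finset.sum_const, nsmul_eq_mul,
      mul_one_div]
  rw [Finset.sum_congr rfl h1, Finset.sum_comm]
  have h2 : ∀ i ∈ range J, ∑ q ∈ (Ioc 1 Z).filter (fun q => q.Coprime P),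
      ∑ j ∈ range J, (if (q : ℤ) ∣ (F β k₀ P j : ℤ) - F β k₀ P i then 1 / (q : ℝ) else 0) ≤
      J * (Real.exp (4 / w) - 1) + M Z ^ 4 := by
    intro i _
    rw [Finset.sum_comm]
    have h3 : ∀ j ∈ range J, ∑ q ∈ (Ioc 1 Z).filter (fun q => q.Coprime P),
        (if (q : ℤ) ∣ (F β k₀ P j : ℤ) - F β k₀ P i then 1 / (q : ℝ) else 0) ≤
        ∏ p ∈ ((pr Z).filter (fun p => ¬ p ∣ P)).filter
          (fun p : ℕ => (p : ℤ) ∣ (F β k₀ P j : ℤ) - F β k₀ P i), (1 + 1 / ((p : ℝ) - 1)) - 1 := by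
      intro j _
      have h4 := sum_inv_le P Z ((F β k₀ P j : ℤ) - F β k₀ P i)
      rw [← Finset.sum_filter, Finset.filter_filter]
      have h5 : (Icc 1 Z).filter (fun q : ℕ => q.Coprime P ∧ (q : ℤ) ∣ (F β k₀ P j : ℤ) - F β k₀ P i)
          = insert 1 ((Ioc 1 Z).filter
            (fun q : ℕ => q.Coprime P ∧ (q : ℤ) ∣ (F β k₀ P j : ℤ) - F β k₀ P i)) := by
        ext q
        simp only [mem_filter, mem_Icc, mem_insert, mem_Ioc]
        constructor
        · rintro ⟨⟨h1, h2⟩, h3⟩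
          rcases h1.lt_or_eq with h | h
          · exact Or.inr ⟨⟨h, h2⟩, h3⟩
          · exact Or.inl h.symm
        · rintro (h | ⟨⟨h1, h2⟩, h3⟩)
          · subst h
            exact ⟨⟨le_rfl, hZ⟩, Nat.coprime_one_left _, by simp⟩
          · exact ⟨⟨h1.le, h2⟩, h3⟩
      rw [h5, Finset.sum_insert (by simp)] at h4
      simp only [Nat.cast_one, div_one] at h4
      linarith
    refine (Finset.sum_le_sum h3).trans ?_
    refine (avg_prod_le hβ Z J _).trans ?_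
    have h4 := prod_small (Z := Z) hw hP
    have h5 := prod_big P Z
    have hJ : (0 : ℝ) ≤ J := by positivity
    have h6 : (J : ℝ) * (∏ p ∈ (pr Z).filter (fun p => ¬ p ∣ P), (1 + 4 / ((p : ℝ) * (p - 1))) - 1)
        ≤ J * (Real.exp (4 / w) - 1) := mul_le_mul_of_nonneg_left (by linarith) hJ
    linarith
  refine (Finset.sum_le_sum h2).trans ?_
  rw [Finset.sum_const, card_range, nsmul_eq_mul]

lemma F_strictMono {β k₀ P : ℕ} (hβ : 0 < β) (hP : 0 < P) : StrictMono (F β k₀ P) := by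
  intro i j hij
  unfold F
  apply Nat.mul_lt_mul_of_pos_left _ hβ
  apply Nat.pow_lt_pow_left _ (by norm_num)
  have := Nat.mul_lt_mul_of_pos_left hij hP
  omega

/-- large denominators -/
lemma large_le {β k₀ P : ℕ} (hβ : 0 < β) (hP : 0 < P) (Z z J : ℕ) (hZ : F β k₀ P J ≤ Z) :
    ∑ q ∈ (Ioc Z z).filter (fun q => q.Coprime P),
        (#((range J ×ˢ range J).filter
          (fun p => (q : ℤ) ∣ (F β k₀ P p.1 : ℤ) - F β k₀ P p.2)) : ℝ) / q ≤
      J * (1 + Real.log z) := by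
  classical
  have h1 : ∀ q ∈ (Ioc Z z).filter (fun q => q.Coprime P),
      (#((range J ×ˢ range J).filter
          (fun p => (q : ℤ) ∣ (F β k₀ P p.1 : ℤ) - F β k₀ P p.2)) : ℝ) / q ≤ J * (1 / (q : ℝ)) := by
    intro q hq
    rw [mem_filter, mem_Ioc] at hq
    have h2 : #((range J ×ˢ range J).filter
          (fun p => (q : ℤ) ∣ (F β k₀ P p.1 : ℤ) - F β k₀ P p.2)) ≤ J := by
      conv_rhs => rw [← card_range J]
      apply Finset.card_le_card_of_injOn (fun p => p.1)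
      · intro p hp
        rw [mem_coe, mem_filter, mem_product] at hp
        exact hp.1.1
      · have key : ∀ p : ℕ × ℕ, p ∈ (range J ×ˢ range J).filter
            (fun p => (q : ℤ) ∣ (F β k₀ P p.1 : ℤ) - F β k₀ P p.2) → p.1 = p.2 := by
          intro p hp
          rw [mem_filter, mem_product, mem_range, mem_range] at hp
          have hm := F_strictMono (k₀ := k₀) hβ hP
          have h3 := hm hp.1.1
          have h4 := hm hp.1.2
          have h5 : (F β k₀ P p.1 : ℤ) - F β k₀ P p.2 = 0 := by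
            apply Int.eq_zero_of_abs_lt_dvd hp.2
            rw [abs_lt]
            constructor <;> omega
          exact hm.injective (by omega)
        intro p hp p' hp' h
        rw [mem_coe] at hp hp'
        have e1 := key p hp
        have e2 := key p' hp'
        simp only at h
        exact Prod.ext h (by rw [← e1, ← e2, h])
    rw [mul_one_div]
    apply div_le_div_of_nonneg_right _ (by positivity)
    exact_mod_cast h2
  refine (Finset.sum_le_sum h1).trans ?_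
  rw [← Finset.mul_sum]
  apply mul_le_mul_of_nonneg_left _ (by positivity)
  refine le_trans ?_ (sum_inv_Ioc_le Z z)
  apply Finset.sum_le_sum_of_subset_of_nonneg (Finset.filter_subset _ _)
  intro _ _ _; positivity

/-- the second moment -/
theorem second_moment {α β k₀ P w a J z Z U U' : ℕ} {B : ℝ} (hB : ∀ y, |Lam P y| ≤ B)
    (hα : ∀ q : ℕ, q.Coprime P → q.Coprime α) (hβ0 : 0 < β) (hP0 : 0 < P)
    (hβ : ∀ p, p.Prime → ¬ p ∣ P → ¬ p ∣ β) (hw : 1 ≤ w)
    (hP : ∀ p, p.Prime → p ≤ w → p ∣ P) (hZ1 : 1 ≤ Z) (hZz : Z ≤ z) (hZ : F β k₀ P J ≤ Z)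
    (hZU : Z ^ 2 ≤ U) (hUU' : U ≤ U') (hzU' : z ^ 2 ≤ U') :
    ∑ u ∈ range U, (T α β k₀ P a J z u) ^ 2 ≤
      10 * B ^ 2 * J * (U * (J * (Real.exp (4 / w) - 1) + M Z ^ 4) + U' * (1 + Real.log z)) := by
  have h1 : ∀ u ∈ range U, (T α β k₀ P a J z u) ^ 2 ≤
      2 * ‖Piece α β k₀ P a J z 1 Z u‖ ^ 2 + 2 * ‖Piece α β k₀ P a J z Z z u‖ ^ 2 := by
    intro u _
    have h2 := T_eq α β k₀ P a J z Z u hZ1 hZz
    have h3 : |T α β k₀ P a J z u| ≤
        ‖Piece α β k₀ P a J z 1 Z u‖ + ‖Piece α β k₀ P a J z Z z u‖ := by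
      rw [← Real.norm_eq_abs, ← Complex.norm_real, h2]
      exact norm_add_le _ _
    rw [← sq_abs]
    have h4 := pow_le_pow_left₀ (abs_nonneg _) h3 2
    nlinarith [sq_nonneg (‖Piece α β k₀ P a J z 1 Z u‖ - ‖Piece α β k₀ P a J z Z z u‖)]
  refine (Finset.sum_le_sum h1).trans ?_
  rw [Finset.sum_add_distrib, ← Finset.mul_sum, ← Finset.mul_sum]
  have h2 := piece_le (α := α) (β := β) (k₀ := k₀) (a := a) (J := J) (z := z) (Y₁ := 1) (Y₂ := Z)
    (U := U) hB hα le_rfl hZ1 hZU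
  have h3 := piece_le (α := α) (β := β) (k₀ := k₀) (a := a) (J := J) (z := z) (Y₁ := Z) (Y₂ := z)
    (U := U') hB hα hZ1 (hZ1.trans hZz) hzU'
  have h4 : ∑ u ∈ range U, ‖Piece α β k₀ P a J z Z z u‖ ^ 2 ≤
      ∑ u ∈ range U', ‖Piece α β k₀ P a J z Z z u‖ ^ 2 := by
    apply Finset.sum_le_sum_of_subset_of_nonneg (Finset.range_mono hUU')
    intro _ _ _; positivity
  have h5 := small_le (k₀ := k₀) hβ hw hP Z J
  have h6 := large_le (k₀ := k₀) hβ0 hP0 Z z J hZ
  have h7 : 5 * (U : ℝ) * (B ^ 2 * ∑ q ∈ (Ioc 1 Z).filter (fun q => q.Coprime P),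
        (#((range J ×ˢ range J).filter
          (fun p => (q : ℤ) ∣ (F β k₀ P p.1 : ℤ) - F β k₀ P p.2)) : ℝ) / q) ≤
      5 * U * (B ^ 2 * (J * (J * (Real.exp (4 / w) - 1) + M Z ^ 4))) := by gcongr
  have h8 : 5 * (U' : ℝ) * (B ^ 2 * ∑ q ∈ (Ioc Z z).filter (fun q => q.Coprime P),
        (#((range J ×ˢ range J).filter
          (fun p => (q : ℤ) ∣ (F β k₀ P p.1 : ℤ) - F β k₀ P p.2)) : ℝ) / q) ≤
      5 * U' * (B ^ 2 * (J * (1 + Real.log z))) := by gcongr
  calc _ ≤ 2 * (5 * (U : ℝ) * (B ^ 2 * (J * (J * (Real.exp (4 / w) - 1) + M Z ^ 4)))) +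
      2 * (5 * U' * (B ^ 2 * (J * (1 + Real.log z)))) := by linarith
    _ = _ := by ring

end Pool.Agent.Helper11.Sq
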