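import Pool.Agent.Helper11.Sq.Asym

/-!
# The density of the bad elements of a residue class
-/

set_option autoImplicit false

namespace Pool.Agent.Helper11.Sq

open Finset Filter Topology

lemma tendsto_zz (α P a : ℕ) (hα : 0 < α) (hP : 0 < P) : Tendsto (zz α P a) atTop atTop := by
  rw [tendsto_atTop]
  intro b
  filter_upwards [eventually_ge_atTop (b ^ 2)] with U hU
  unfold zz
  have h1 : b ^ 2 ≤ α * (a + P * U) := by
    have h2 : U ≤ P * U := Nat.le_mul_of_pos_left _ hP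
    have h3 : P * U ≤ α * (a + P * U) := by
      calc P * U ≤ a + P * U := Nat.le_add_left _ _
        _ ≤ α * (a + P * U) := Nat.le_mul_of_pos_left _ hα
    omega
  have h2 : b ≤ Nat.sqrt (α * (a + P * U)) := by
    rw [Nat.le_sqrt']; exact h1
  omega

theorem class_bound {α β k₀ P w a : ℕ} {B L : ℝ} (hD : Data α β k₀ P w a B L) {ε τ : ℝ}
    (hε : 0 < ε) (hε4 : ε ≤ 1 / 4) (hτ : 0 < τ) :
    ∀ᶠ U : ℕ in atTop, (badCount α β P a (U - ⌊ε * U⌋₊) U : ℝ) ≤
      (24 * ε ^ 2 / L + 160 * B ^ 2 / L ^ 2 * (Real.exp (4 / w) - 1) + τ) * U := by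
  have hL0 := hD.hL0
  set K : ℝ := 160 * B ^ 2 / L ^ 2 with hK
  have hK0 : 0 ≤ K := by positivity
  set τ₁ : ℝ := τ / (2 * K + 1) with hτ₁
  have hτ₁0 : 0 < τ₁ := by positivity
  have hKτ : K * (τ₁ + τ₁) ≤ τ := by
    rw [hτ₁]
    have : K * (τ / (2 * K + 1) + τ / (2 * K + 1)) = τ * (2 * K / (2 * K + 1)) := by ring
    rw [this]
    have h2 : 2 * K / (2 * K + 1) ≤ 1 := by
      rw [div_le_one (by positivity)]; linarith
    nlinarith
  have e1 : ∀ᶠ U : ℕ in atTop, L / 2 ≤ Lam P (zz α P a U) := by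
    have := (hD.hL.comp (tendsto_zz α P a hD.hα0 hD.hP0)).eventually_const_le
      (show L / 2 < L by linarith)
    exact this
  have e2 : ∀ᶠ U : ℕ in atTop, M (F β k₀ P (JJ U)) ^ 4 / (JJ U : ℝ) ≤ τ₁ := by
    have := ((asym1 (k₀ := k₀) hD.hβ0 hD.hP0).comp tendsto_JJ).eventually_le_const hτ₁0
    exact this
  have e3 := asym2 α P a hD.hα0 hD.hP0 hτ₁0
  have e4 := asym3 α β k₀ P a hD.hα0 hD.hP0 hε hε4
  have e5 : ∀ᶠ U : ℕ in atTop, F β k₀ P (JJ U) ^ 2 ≤ U := by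
    filter_upwards [tendsto_JJ.eventually_ge_atTop ((β * (k₀ + P) ^ 4) ^ 2),
      tendsto_JJ.eventually_ge_atTop 1] with U h1 h2
    set c := β * (k₀ + P) ^ 4
    calc F β k₀ P (JJ U) ^ 2 ≤ (c * JJ U ^ 4) ^ 2 := Nat.pow_le_pow_left (F_le h2) 2
      _ = c ^ 2 * JJ U ^ 8 := by ring
      _ ≤ JJ U * JJ U ^ 8 := Nat.mul_le_mul_right _ h1
      _ ≤ JJ U ^ 8 * JJ U ^ 8 := Nat.mul_le_mul_right _ (Nat.le_self_pow (by norm_num) _)
      _ = JJ U ^ 16 := by ring
      _ ≤ U := JJ_pow_le U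
  filter_upwards [e1, e2, e3, e4, e5, eventually_ge_atTop 1,
    tendsto_JJ.eventually_ge_atTop 1] with U h1 h2 h3 h4 h5 hU hJ
  obtain ⟨hy1, h4⟩ := h4 h5
  have hJ0 : (0 : ℝ) < JJ U := by exact_mod_cast hJ
  have hU0 : (0 : ℝ) < U := by exact_mod_cast hU
  set U₁ := U - ⌊ε * U⌋₊ with hU₁
  set y := yy α β k₀ P a U₁ U with hy
  have hFpos := F_pos (k₀ := k₀) hD.hβ0 hD.hP0 hJ
  have hysq : y ^ 2 ≤ α * (a + P * U₁) - F β k₀ P (JJ U) := Nat.sqrt_le' _
  have hpos : 1 ≤ α * (a + P * U₁) - F β k₀ P (JJ U) := by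
    have : 1 ≤ y ^ 2 := Nat.one_le_pow _ _ hy1
    omega
  have hFj : ∀ j < JJ U, F β k₀ P j < F β k₀ P (JJ U) := fun j hj =>
    F_strictMono hD.hβ0 hD.hP0 hj
  have hzU : U ≤ zz α P a U ^ 2 := by
    refine le_trans ?_ (zz_sq α P a U)
    calc U ≤ P * U := Nat.le_mul_of_pos_left _ hD.hP0
      _ ≤ a + P * U := Nat.le_add_left _ _
      _ ≤ α * (a + P * U) := Nat.le_mul_of_pos_left _ hD.hα0
  have h6 := class_ineq hD (J := JJ U) (y := y) (z := zz α P a U) (Z := F β k₀ P (JJ U))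
    (U₁ := U₁) (U := U) hJ h1
    (fun j hj => by have := hFj j hj; omega) hy1
    (fun j hj => by have := hFj j hj; omega) (zz_sq α P a U) hFpos
    ((Nat.pow_le_pow_iff_left (by norm_num)).1 (h5.trans hzU)) le_rfl h5 hzU
  refine h6.trans ?_
  have h7 : 4 / L * (((zz α P a U + 1 - y : ℕ) : ℝ) * (((U - U₁) / y + 1 : ℕ) : ℝ)) ≤
      4 / L * (6 * ε ^ 2 * U) := mul_le_mul_of_nonneg_left h4 (by positivity)
  have h8 : K * (U * ((Real.exp (4 / w) - 1) + M (F β k₀ P (JJ U)) ^ 4 / JJ U) +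
        (zz α P a U : ℝ) ^ 2 * (1 + Real.log (zz α P a U)) / JJ U) ≤
      K * (U * ((Real.exp (4 / w) - 1) + τ₁) + τ₁ * U) := by
    apply mul_le_mul_of_nonneg_left _ hK0
    apply add_le_add _ h3
    apply mul_le_mul_of_nonneg_left _ hU0.le
    linarith
  have h9 : K * (U * ((Real.exp (4 / w) - 1) + τ₁) + τ₁ * U) =
      K * (Real.exp (4 / w) - 1) * U + (K * (τ₁ + τ₁)) * U := by ring
  have h10 : (K * (τ₁ + τ₁)) * U ≤ τ * U := mul_le_mul_of_nonneg_right hKτ hU0.le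
  have h11 : 4 / L * (6 * ε ^ 2 * U) = 24 * ε ^ 2 / L * U := by ring
  rw [← hK]
  calc _ ≤ 4 / L * (6 * ε ^ 2 * U) + K * (U * ((Real.exp (4 / w) - 1) + τ₁) + τ₁ * U) :=
        add_le_add h7 h8
    _ ≤ _ := by
        rw [h9, h11]
        have : (24 * ε ^ 2 / L + K * (Real.exp (4 / w) - 1) + τ) * U =
          24 * ε ^ 2 / L * U + (K * (Real.exp (4 / w) - 1) * U + τ * U) := by ring
        rw [this]
        linarith

lemma badCount_split (α β P a : ℕ) {U₁ U : ℕ} (h : U₁ ≤ U) :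
    badCount α β P a 0 U ≤ badCount α β P a 0 U₁ + badCount α β P a U₁ U := by
  classical
  unfold badCount
  rw [← Finset.Ico_union_Ico_eq_Ico (Nat.zero_le U₁) h, Finset.filter_union]
  convert Finset.card_union_le _ _ using 2

lemma badCount_le (α β P a U : ℕ) : badCount α β P a 0 U ≤ U := by
  classical
  unfold badCount
  refine (Finset.card_filter_le _ _).trans ?_
  simp

/-- from short intervals to initial segments -/
theorem class_total {α β k₀ P w a : ℕ} {B L : ℝ} (hD : Data α β k₀ P w a B L) {ε κ : ℝ}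
    (hε : 0 < ε) (hε4 : ε ≤ 1 / 4)
    (hκ : 24 * ε ^ 2 / L + 160 * B ^ 2 / L ^ 2 * (Real.exp (4 / w) - 1) < κ * ε)
    (hκ0 : 0 < κ) :
    ∃ C : ℝ, ∀ U : ℕ, (badCount α β P a 0 U : ℝ) ≤ 2 * κ * U + C := by
  have h1 := class_bound hD hε hε4 (sub_pos.2 hκ)
  obtain ⟨U₀, hU₀⟩ := eventually_atTop.1 h1
  obtain ⟨U₂, hU₂⟩ := exists_nat_ge (2 / ε)
  refine ⟨((U₀ + U₂ : ℕ) : ℝ), ?_⟩
  intro U
  induction U using Nat.strong_induction_on with
  | _ U ih =>
    by_cases hU : U < U₀ + U₂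
    · have h2 : (badCount α β P a 0 U : ℝ) ≤ U := by exact_mod_cast badCount_le α β P a U
      have h3 : (U : ℝ) ≤ ((U₀ + U₂ : ℕ) : ℝ) := by exact_mod_cast hU.le
      have h4 : 0 ≤ 2 * κ * (U : ℝ) := by positivity
      linarith
    · push Not at hU
      have hUr : 2 / ε ≤ (U : ℝ) := hU₂.trans (by exact_mod_cast (by omega : U₂ ≤ U))
      have hεU : 2 ≤ ε * U := by
        rw [div_le_iff₀ hε] at hUr
        linarith
      have h2 := hU₀ U (by omega)
      set fl := ⌊ε * U⌋₊ with hfl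
      have hfl1 : (fl : ℝ) ≤ ε * U := Nat.floor_le (by linarith)
      have hfl2 : ε * U < fl + 1 := Nat.lt_floor_add_one _
      have hU0 : (0 : ℝ) ≤ U := by positivity
      have hflU : fl ≤ U := by
        have : (fl : ℝ) ≤ U := by nlinarith
        exact_mod_cast this
      have hfl0 : 0 < fl := by
        have : (0 : ℝ) < fl := by linarith
        exact_mod_cast this
      have h3 := ih (U - fl) (by omega)
      have h4 := badCount_split α β P a (Nat.sub_le U fl)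
      have h5 : (badCount α β P a 0 U : ℝ) ≤ badCount α β P a 0 (U - fl) +
          badCount α β P a (U - fl) U := by exact_mod_cast h4
      rw [Nat.cast_sub hflU] at h3
      have h6 : 24 * ε ^ 2 / L + 160 * B ^ 2 / L ^ 2 * (Real.exp (4 / w) - 1) +
          (κ * ε - (24 * ε ^ 2 / L + 160 * B ^ 2 / L ^ 2 * (Real.exp (4 / w) - 1))) = κ * ε := by
        ring
      rw [h6] at h2
      have h7 : 2 * κ * ((U : ℝ) - fl) ≤ 2 * κ * U - 2 * κ * (ε * U) + 2 * κ := by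
        have : (U : ℝ) - fl ≤ U - ε * U + 1 := by linarith
        nlinarith
      have h8 : 2 * κ ≤ κ * (ε * U) := by nlinarith
      nlinarith

end Pool.Agent.Helper11.Sq
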